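import Mathlib

/-!
Decomposition of an integral of a signed function along an increasing family of good sets, and
elementary inequalities.
-/

set_option autoImplicit false

namespace Pool.Agent.Lib.MP_f9aece_nt_rt

open MeasureTheory Set Filter Topology

/-- the bad set: points of `I` in none of `G 0, …, G L` -/
def Bad (I : Set ℝ) (G : ℕ → Set ℝ) (L : ℕ) : Set ℝ := I \ partialSups G L

lemma bad_meas {I : Set ℝ} {G : ℕ → Set ℝ} (hI : MeasurableSet I) (hG : ∀ l, MeasurableSet (G l))
    (L : ℕ) : MeasurableSet (Bad I G L) := by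
  refine hI.diff ?_
  have : ∀ n, MeasurableSet (partialSups G n) := by
    intro n
    induction n with
    | zero => simpa using hG 0
    | succ n ih => rw [partialSups_add_one]; exact ih.union (hG _)
  exact this L

lemma bad_sub {I : Set ℝ} {G : ℕ → Set ℝ} (L : ℕ) : Bad I G L ⊆ I \ G L :=
  sdiff_subset_sdiff_right (le_partialSups G L)

lemma disjointed_sub (G : ℕ → Set ℝ) (l : ℕ) : disjointed G l ⊆ G l := disjointed_le G l

lemma disjointed_succ_sub (G : ℕ → Set ℝ) (l : ℕ) : disjointed G (l + 1) ⊆ G (l + 1) \ G l := by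
  rw [disjointed_add_one]
  exact sdiff_subset_sdiff_right (le_partialSups G l)

lemma partialSups_meas {G : ℕ → Set ℝ} (hG : ∀ l, MeasurableSet (G l)) (n : ℕ) :
    MeasurableSet (partialSups G n) := by
  induction n with
  | zero => simpa using hG 0
  | succ n ih => rw [partialSups_add_one]; exact ih.union (hG _)

lemma partialSups_sub {I : Set ℝ} {G : ℕ → Set ℝ} (hGI : ∀ l, G l ⊆ I) (n : ℕ) :
    partialSups G n ⊆ I := partialSups_le G n I fun l _ => hGI l

lemma disjointed_meas {G : ℕ → Set ℝ} (hG : ∀ l, MeasurableSet (G l)) (l : ℕ) :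
    MeasurableSet (disjointed G l) := MeasurableSet.disjointed hG l

/-- the decomposition -/
theorem integral_decomp {F : ℝ → ℝ} {I : Set ℝ} {G : ℕ → Set ℝ} (hF : IntegrableOn F I)
    (hI : MeasurableSet I) (hG : ∀ l, MeasurableSet (G l)) (hGI : ∀ l, G l ⊆ I) (L : ℕ) :
    ∫ t in I, F t = (∑ l ∈ Finset.range (L + 1), ∫ t in disjointed G l, F t)
      + ∫ t in Bad I G L, F t := by
  have key : ∀ n : ℕ, ∫ t in partialSups G n, F t
      = ∑ l ∈ Finset.range (n + 1), ∫ t in disjointed G l, F t := by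
    intro n
    induction n with
    | zero => simp
    | succ n ih =>
      rw [Finset.sum_range_succ, ← ih, disjointed_add_one, partialSups_add_one]
      have h1 : (partialSups G n ⊔ G (n + 1) : Set ℝ)
          = partialSups G n ∪ (G (n + 1) \ partialSups G n) := by
        rw [union_sdiff_self]; rfl
      rw [h1, setIntegral_union disjoint_sdiff_self_right ((hG _).diff (partialSups_meas hG n))
        (hF.mono_set (partialSups_sub hGI n)) (hF.mono_set (sdiff_subset.trans (hGI _)))]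
  rw [← key L]
  unfold Bad
  rw [← setIntegral_union disjoint_sdiff_self_right (hI.diff (partialSups_meas hG L))
    (hF.mono_set (partialSups_sub hGI L)) (hF.mono_set sdiff_subset),
    Set.union_sdiff_cancel (partialSups_sub hGI L)]

/-- `log z ≤ 2 √z`, in the shape used on the bad set -/
lemma sq_mul_log_le {z : ℝ} (hz : 0 ≤ z) : z ^ 2 * Real.log z ≤ 2 * z ^ (5 / 2 : ℝ) := by
  rcases hz.eq_or_lt with h | h
  · rw [← h]; norm_num
  have h1 := Real.log_le_sub_one_of_pos (x := z ^ (1 / 2 : ℝ)) (by positivity)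
  rw [Real.log_rpow h] at h1
  have h2 : z ^ (5 / 2 : ℝ) = z ^ 2 * z ^ (1 / 2 : ℝ) := by
    rw [← Real.rpow_natCast, ← Real.rpow_add h]; norm_num
  rw [h2]
  have h3 : Real.log z ≤ 2 * z ^ (1 / 2 : ℝ) := by linarith
  have h4 : 0 < z ^ 2 := by positivity
  nlinarith

/-- `z² log z ≥ -1/2` -/
lemma sq_mul_log_ge {z : ℝ} (hz : 0 ≤ z) : -(1 / 2) ≤ z ^ 2 * Real.log z := by
  rcases hz.eq_or_lt with h | h
  · rw [← h]; norm_num
  have h1 := Real.one_sub_inv_le_log_of_pos (x := z ^ 2) (by positivity)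
  rw [Real.log_pow] at h1
  have h4 : 0 < z ^ 2 := by positivity
  have h5 : z ^ 2 * (1 - (z ^ 2)⁻¹) ≤ z ^ 2 * (((2 : ℕ) : ℝ) * Real.log z) := by gcongr
  have h6 : z ^ 2 * (1 - (z ^ 2)⁻¹) = z ^ 2 - 1 := by field_simp
  rw [h6] at h5
  push_cast at h5
  nlinarith

/-- Gibbs inequality -/
lemma gibbs {z X : ℝ} (hz : 0 ≤ z) :
    z ^ 2 * X + (z ^ 2 - Real.exp (2 * X)) / 2 ≤ z ^ 2 * Real.log z := by
  rcases hz.eq_or_lt with h | h
  · rw [← h]
    have := Real.exp_pos (2 * X)
    norm_num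
    linarith
  have h4 : 0 < z ^ 2 := by positivity
  have h1 := Real.one_sub_inv_le_log_of_pos (x := z ^ 2 / Real.exp (2 * X)) (by positivity)
  rw [Real.log_div (by positivity) (Real.exp_pos _).ne', Real.log_pow, Real.log_exp] at h1
  have h5 : z ^ 2 * (1 - (z ^ 2 / Real.exp (2 * X))⁻¹) ≤ z ^ 2 * (((2 : ℕ) : ℝ) * Real.log z - 2 * X) := by
    gcongr
  have h6 : z ^ 2 * (1 - (z ^ 2 / Real.exp (2 * X))⁻¹) = z ^ 2 - Real.exp (2 * X) := by field_simp
  rw [h6] at h5
  push_cast at h5
  nlinarith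

end Pool.Agent.Lib.MP_f9aece_nt_rt
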