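import Mathlib
import Pool.Agent.Lib.MP_f9aece_nt.Scales
import Pool.Agent.Lib.MP_f9aece_nt_h22.SmallJ

/-!
Definitions shared by the modules of the rate project.
-/

set_option autoImplicit false

namespace Pool.Agent.Lib.MP_f9aece_nt_rt

open MeasureTheory Set Filter Topology Complex
open Pool.Agent.Lib.MP_f9aece_nt
open Pool.Agent.Lib.MP_f9aece_nt_h22 (J1)

/-- the real part of the prime polynomials over the scales `l ≤ j < J` -/
noncomputable def XX (p0 : ℕ) (Y : ℝ) (J l : ℕ) (t : ℝ) : ℝ :=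
  ∑ j ∈ Finset.Ico l J, (ev t (PP (sc Y p0 j))).re

/-- the levels at exponent `2` -/
structure Lev (C A : ℝ) (p0 : ℕ) (T : ℝ) (L : ℕ) (G : ℕ → Set ℝ) : Prop where
  meas : ∀ l, MeasurableSet (G l)
  sub : ∀ l, G l ⊆ Icc 0 T
  LJ : L ≤ J1 (Real.log T / A)
  upper : ∀ l ≤ L, ∀ t ∈ G l, riemannZeta (1 / 2 + I * t) ≠ 0 →
    Real.log ‖riemannZeta (1 / 2 + I * t)‖
      ≤ C * (l + 1) + XX p0 (Real.log T / A) (J1 (Real.log T / A)) l t
  piece : ∀ l < L, ∫ t in G (l + 1) \ G l, ‖riemannZeta (1 / 2 + I * t)‖ ^ 2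
      ≤ C * (1 / 2) ^ l * (T * Real.log T)
  tilt : ∀ l ≤ L, ∫ t in G l, Real.exp (2 * XX p0 (Real.log T / A) (J1 (Real.log T / A)) l t)
      ≤ C * (1 / 4) ^ l * (T * Real.log T)
  last : ∫ t in Icc 0 T \ G L, ‖riemannZeta (1 / 2 + I * t)‖ ^ 2 ≤ T
  last' : ∫ t in Icc 0 T \ G L, ‖riemannZeta (1 / 2 + I * t)‖ ^ (5 / 2 : ℝ) ≤ T

/-- the logarithmic moment -/
noncomputable def lmom (x T : ℝ) : ℝ :=
  ∫ u in (0 : ℝ)..1, ‖riemannZeta (1 / 2 + I * x + I * u * T)‖ ^ 2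
    * Real.log ‖riemannZeta (1 / 2 + I * x + I * u * T)‖

end Pool.Agent.Lib.MP_f9aece_nt_rt
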