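import Mathlib
import Pool.Agent.Lib.MP_f9aece_nt_h24.UpperTwoPlus
import Pool.Agent.Lib.MP_f9aece_nt_h5.MeanB
import Pool.Agent.Lib.MP_f9aece_nt_rt.Defs

/-!
R6: the levels at the exponent `2`.
-/

set_option autoImplicit false

namespace Pool.Agent.Lib.MP_f9aece_nt_rt

open MeasureTheory Set Filter Topology Complex
open Pool.Agent.Lib.MP_f9aece_nt
open Pool.Agent.Lib.MP_f9aece_nt_h97
open Pool.Agent.Lib.MP_f9aece_nt_h5 (cone_B aug_B prime_sc cone_Smo_block mean_ev_abs)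
open Pool.Agent.Lib.MP_f9aece_nt_h22 (Psc Rsc J1 J1_le J1_lt J1_pos VS norm_DD_ge sum_VV_eq_VS
  exp_VS_le)

/-- the energy of the tilting polynomial -/
lemma K1_DD {Y : ℝ} (hY : 1 ≤ Y) (m p0 : ℕ) {J : ℕ} (hJ : Y / 4 ^ J < Real.log 2) :
    BK K1 (DD m p0 1 Y J) (DD m p0 1 Y J) ≤ 43 * Y := by
  have hY0 : 0 < Y := by linarith
  refine le_trans ?_ (exp_VS_le (A := 43) le_rfl hY p0)
  rw [← sum_VV_eq_VS hY0 p0 hJ, Real.exp_sum]
  unfold DD
  have hcone : ∀ j ∈ Finset.range J,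
      Cone (Smo (sc Y p0 j)) (expo 1 (Mm m j) (sc Y p0 j)) :=
    fun j _ => cone_Smo_block zero_le_one (Mm m j) j
  rw [BK_prod mulKer_K1 (Finset.range J) (sc Y p0) (fun i _ j _ hij => sc_disjoint hY0 hij) _ _
    hcone hcone]
  refine Finset.prod_le_prod (fun j hj => BK_nonneg (hcone j hj) (hcone j hj) K1_nonneg)
    fun j _ => ?_
  have h := BK_expo (prime_sc (Y := Y) (p0 := p0) j) 1 (Mm m j)
  rwa [one_pow, one_mul] at h

/-- mean value of the tilting polynomial -/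
lemma mean_DD {T Y : ℝ} (hT : 0 < T) (hY : 1 ≤ Y) (m p0 : ℕ) {J : ℕ}
    (hJ : Y / 4 ^ J < Real.log 2) (hlen : 6 * m * Y + 2 * J ≤ Real.log T) :
    ∫ t in Icc 0 T, ‖ev t (DD m p0 1 Y J)‖ ^ 2 ≤ 47 * Y * T := by
  have hY0 : 0 < Y := by linarith
  have h1 := (abs_le.mp (mean_ev_abs hT (cone_B (m := m) (p0 := p0) (k := 1) hY0 zero_le_one J)
    (aug_B (m := m) (p0 := p0) (k := 1) hY0 zero_le_one le_rfl J))).2
  have h2 : Real.exp (2 * m * Y) * Real.exp (J + 2 * m * Y) ^ 2 ≤ T := by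
    rw [← Real.exp_nat_mul, ← Real.exp_add, ← Real.le_log_iff_exp_le hT]
    push_cast
    linarith
  have h3 : BK K1 (Bm m p0 1 Y J) (Bm m p0 1 Y J) ≤ 43 * Y := K1_DD hY m p0 hJ
  have e : ∫ t in Icc 0 T, ‖ev t (DD m p0 1 Y J)‖ ^ 2
      = ∫ t in (0 : ℝ)..T, ‖ev t (Bm m p0 1 Y J)‖ ^ 2 := by
    rw [intervalIntegral.integral_of_le hT.le, integral_Icc_eq_integral_Ioc]
    rfl
  rw [e]
  have h4 : T * BK K1 (Bm m p0 1 Y J) (Bm m p0 1 Y J) ≤ T * (43 * Y) :=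
    mul_le_mul_of_nonneg_left h3 hT.le
  have h5 : T ≤ Y * T := le_mul_of_one_le_left hT.le hY
  have h6 : 4 * Real.exp (2 * m * Y) * Real.exp (J + 2 * m * Y) ^ 2 ≤ 4 * T := by
    rw [mul_assoc]
    exact mul_le_mul_of_nonneg_left h2 (by norm_num)
  linarith

/-- the sum over the scales of a level -/
lemma XX_level {Y : ℝ} (hY : 0 ≤ Y) (p0 J l : ℕ) (t : ℝ) :
    ∑ j ∈ Finset.range (J - l), (ev t (PP (sc (Y / 4 ^ l) p0 j))).re = XX p0 Y J l t := by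
  unfold XX
  rw [Finset.sum_Ico_eq_sum_range]
  exact Finset.sum_congr rfl fun j _ => by rw [sc_level Y hY]

/-- points of the good set of a level -/
lemma gds_upper {T V : ℝ} {m p0 J : ℕ} (hm : 1 ≤ m) {Y t : ℝ}
    (ht : t ∈ GdS T V m p0 Y J) (hz : riemannZeta (1 / 2 + I * t) ≠ 0) :
    Real.log ‖riemannZeta (1 / 2 + I * t)‖
      ≤ Real.log V + 2 + ∑ j ∈ Finset.range J, (ev t (PP (sc Y p0 j))).re := by
  obtain ⟨-, h1, h2⟩ := ht
  obtain ⟨X, hX⟩ : ∃ X, X = ∑ j ∈ Finset.range J, (ev t (PP (sc Y p0 j))).re := ⟨_, rfl⟩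
  have hlow := norm_DD_ge (c := -1) hm (by norm_num) h2
  rw [← hX] at hlow ⊢
  rw [abs_neg, abs_one, one_mul] at hlow
  have h3 : (1 / 3 : ℝ) ^ m ≤ 1 := pow_le_one₀ (by norm_num) (by norm_num)
  have hz0 : 0 < ‖riemannZeta (1 / 2 + I * t)‖ := norm_pos_iff.mpr hz
  rw [norm_mul] at h1
  have h4 : ‖riemannZeta (1 / 2 + I * t)‖ * Real.exp (-(2 * (1 / 3) ^ m) + -1 * X) ≤ V :=
    (mul_le_mul_of_nonneg_left hlow hz0.le).trans h1
  have h5 := Real.log_le_log (by positivity) h4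
  rw [Real.log_mul hz0.ne' (Real.exp_pos _).ne', Real.log_exp] at h5
  linarith

lemma gds_tilt {T V : ℝ} {m p0 J : ℕ} (hm : 1 ≤ m) {Y t : ℝ} (ht : t ∈ GdS T V m p0 Y J) :
    Real.exp (2 * ∑ j ∈ Finset.range J, (ev t (PP (sc Y p0 j))).re)
      ≤ Real.exp 4 * ‖ev t (DD m p0 1 Y J)‖ ^ 2 := by
  obtain ⟨-, -, h2⟩ := ht
  obtain ⟨X, hX⟩ : ∃ X, X = ∑ j ∈ Finset.range J, (ev t (PP (sc Y p0 j))).re := ⟨_, rfl⟩
  have hlow := norm_DD_ge (c := 1) hm (by norm_num) h2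
  rw [← hX] at hlow ⊢
  rw [abs_one, one_mul, one_mul] at hlow
  have h3 : (1 / 3 : ℝ) ^ m ≤ 1 := pow_le_one₀ (by norm_num) (by norm_num)
  calc Real.exp (2 * X) ≤ Real.exp 4 * Real.exp (-(2 * (1 / 3) ^ m) + X) ^ 2 := by
        rw [← Real.exp_nat_mul, ← Real.exp_add]
        apply Real.exp_le_exp.mpr
        push_cast
        linarith
    _ ≤ _ := by gcongr

/-- the geometric decay of the bracket of `level_step` -/
lemma bracket_le {L m0 p0 a l : ℕ} (hm0 : 1 ≤ m0) {x y Γ : ℝ} (hy : 4 ≤ y) (hxy : x = y ^ 10)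
    (hL : (2 : ℝ) ^ L ≤ y) (hΓ : 2 ^ 100 ≤ Γ) (hl : l < L) :
    1 / 4 / 2 ^ l + ((2 : ℝ) ^ (m0 * 2 ^ l))⁻¹ + x⁻¹
        + (2 ^ p0 * (640 * ((a * 4 ^ l : ℕ) : ℝ)) ^ 24) ^ 3 / (Γ ^ l) ^ 2
      ≤ (3 + (2 ^ p0 * (640 * (a : ℝ)) ^ 24) ^ 3) * (1 / 2) ^ l := by
  have hy0 : 0 < y := by linarith
  have h2l : (0 : ℝ) < 2 ^ l := by positivity
  have e0 : (1 / 2 : ℝ) ^ l = (2 ^ l)⁻¹ := by rw [one_div, inv_pow]
  have h1 : 1 / 4 / (2 : ℝ) ^ l ≤ (1 / 2) ^ l := by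
    rw [e0, div_eq_mul_inv]
    have : (0 : ℝ) ≤ (2 ^ l)⁻¹ := by positivity
    linarith
  have h2 : ((2 : ℝ) ^ (m0 * 2 ^ l))⁻¹ ≤ (1 / 2) ^ l := by
    rw [e0]
    apply inv_anti₀ h2l
    apply pow_le_pow_right₀ (by norm_num)
    have h3 : l < 2 ^ l := Nat.lt_two_pow_self
    nlinarith
  have h3 : x⁻¹ ≤ (1 / 2) ^ l := by
    rw [e0]
    apply inv_anti₀ h2l
    have h4 : (2 : ℝ) ^ l ≤ 2 ^ L := pow_le_pow_right₀ (by norm_num) hl.le
    have h5 : y ≤ y ^ 10 := le_self_pow₀ (by linarith) (by norm_num)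
    rw [hxy]
    linarith
  have h4 : (2 ^ p0 * (640 * ((a * 4 ^ l : ℕ) : ℝ)) ^ 24) ^ 3 / (Γ ^ l) ^ 2
      ≤ (2 ^ p0 * (640 * (a : ℝ)) ^ 24) ^ 3 * (1 / 2) ^ l := by
    have hΓ0 : 0 < Γ := lt_of_lt_of_le (by positivity) hΓ
    have e1 : ((2 : ℝ) ^ p0 * (640 * ((a * 4 ^ l : ℕ) : ℝ)) ^ 24) ^ 3
        = (2 ^ p0 * (640 * (a : ℝ)) ^ 24) ^ 3 * (4 ^ 72) ^ l := by
      push_cast
      have e2 : ((4 : ℝ) ^ 72) ^ l = (4 ^ l) ^ 72 := by rw [← pow_mul, ← pow_mul, mul_comm]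
      rw [e2]
      ring
    rw [e1, mul_div_assoc]
    refine mul_le_mul_of_nonneg_left ?_ (by positivity)
    have e3 : (Γ ^ l) ^ 2 = (Γ ^ 2) ^ l := by rw [← pow_mul, ← pow_mul, mul_comm]
    rw [e3, ← div_pow]
    apply pow_le_pow_left₀ (by positivity)
    rw [div_le_iff₀ (by positivity)]
    have h5 : ((2 : ℝ) ^ 100) ^ 2 ≤ Γ ^ 2 := by gcongr
    have h6 : (4 : ℝ) ^ 72 ≤ 1 / 2 * (2 ^ 100) ^ 2 := by norm_num
    linarith
  have h5 : (3 + ((2 : ℝ) ^ p0 * (640 * (a : ℝ)) ^ 24) ^ 3) * (1 / 2) ^ l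
      = (1 / 2) ^ l + (1 / 2) ^ l + (1 / 2) ^ l
        + (2 ^ p0 * (640 * (a : ℝ)) ^ 24) ^ 3 * (1 / 2) ^ l := by ring
  rw [h5]
  exact add_le_add (add_le_add (add_le_add h1 h2) h3) h4

/-- **existence of the levels** -/
theorem levels : ∃ (A C : ℝ) (p0 : ℕ), 2000 ≤ A ∧ 0 ≤ C ∧ 1 ≤ p0 ∧ ∃ T0 : ℝ, ∀ T : ℝ, T0 ≤ T →
    ∃ (L : ℕ) (G : ℕ → Set ℝ), Lev C A p0 T L G := by
  obtain ⟨C7, hC7, ma, pa, hma, hpa, T7, hstep⟩ :=
    level_step Pool.Agent.Lib.MP_f9aece_nt_h22.h4c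
  obtain ⟨C6, mb, pb, hlast⟩ := h4d h4z
  obtain ⟨T6, hlast⟩ := hlast 1 one_pos
  -- the constants
  obtain ⟨m0, hm1, hm2, hm4⟩ : ∃ m0 : ℕ, ma ≤ m0 ∧ mb ≤ m0 ∧ 2 ≤ m0 :=
    ⟨max ma (max mb 2), by omega, by omega, by omega⟩
  obtain ⟨p0, hp1, hp2, hp3⟩ : ∃ p0 : ℕ, pa ≤ p0 ∧ pb ≤ p0 ∧ 1 ≤ p0 :=
    ⟨max pa (max pb 1), by omega, by omega, by omega⟩
  obtain ⟨A, hA⟩ : ∃ A : ℝ, A = 2304 * m0 + 2000 := ⟨_, rfl⟩
  have hm0r : (0 : ℝ) ≤ m0 := Nat.cast_nonneg _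
  have hA0 : 2000 ≤ A := by rw [hA]; linarith
  have hA00 : 0 < A := by linarith
  obtain ⟨κ, hκ⟩ : ∃ κ, κ = (2 ^ p0 * (640 * ((⌈A⌉₊ : ℕ) : ℝ)) ^ 24) ^ 3 := ⟨_, rfl⟩
  have hκ0 : 0 ≤ κ := by rw [hκ]; positivity
  obtain ⟨Γ, hΓ⟩ : ∃ Γ : ℝ, Γ = 2 ^ (20 * (C6 + 5)) := ⟨_, rfl⟩
  have hΓ100 : (2 : ℝ) ^ 100 ≤ Γ := by
    rw [hΓ]
    exact pow_le_pow_right₀ (by norm_num) (by omega)
  have hΓ1 : 1 ≤ Γ := le_trans (by norm_num) hΓ100
  have hΓ0 : 0 < Γ := by linarith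
  have hlΓ : 0 ≤ Real.log Γ := Real.log_nonneg hΓ1
  -- the threshold
  obtain ⟨y0, hy01, hy02, hy03⟩ : ∃ y0 : ℝ, 4 ≤ y0 ∧ 4 * A ≤ y0 ∧ 4800 ≤ 1 / 4 * y0 :=
    ⟨4 * A + 19200, by linarith, by linarith, by linarith⟩
  obtain ⟨C, hC⟩ : ∃ C : ℝ, C = C7 * (3 + κ) + (Real.log Γ + 2) + 47 * Real.exp 4 := ⟨_, rfl⟩
  have he4 : 0 < Real.exp 4 := Real.exp_pos 4
  have hC1 : C7 * (3 + κ) ≤ C := by rw [hC]; linarith
  have hC2 : Real.log Γ + 2 ≤ C := by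
    rw [hC]
    have : 0 ≤ C7 * (3 + κ) := by positivity
    linarith
  have hC3 : 47 * Real.exp 4 ≤ C := by
    rw [hC]
    have : 0 ≤ C7 * (3 + κ) := by positivity
    linarith
  have hC0 : 0 ≤ C := by linarith
  refine ⟨A, C, p0, hA0, hC0, hp3, max (max T6 T7) (Real.exp (y0 ^ 10)), ?_⟩
  intro T hT
  have hT6 : T6 ≤ T := ((le_max_left _ _).trans (le_max_left _ _)).trans hT
  have hT7 : T7 ≤ T := ((le_max_right _ _).trans (le_max_left _ _)).trans hT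
  have hTy : Real.exp (y0 ^ 10) ≤ T := (le_max_right _ _).trans hT
  have hT0 : 0 < T := (Real.exp_pos _).trans_le hTy
  obtain ⟨x, hx⟩ : ∃ x, x = Real.log T := ⟨_, rfl⟩
  have hx1 : y0 ^ 10 ≤ x := by rw [hx, Real.le_log_iff_exp_le hT0]; exact hTy
  have hy0pos : 0 < y0 := by linarith
  have hx0 : 0 < x := lt_of_lt_of_le (by positivity) hx1
  obtain ⟨y, hy⟩ : ∃ y, y = x ^ (1 / 10 : ℝ) := ⟨_, rfl⟩
  have hxy : x = y ^ 10 := by
    rw [hy, ← Real.rpow_natCast, ← Real.rpow_mul hx0.le]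
    norm_num
  have hypos : 0 < y := by rw [hy]; positivity
  have hyy0 : y0 ≤ y := by
    rw [hxy] at hx1
    exact (pow_le_pow_iff_left₀ hy0pos.le hypos.le (by norm_num)).mp hx1
  have hy4 : 4 ≤ y := hy01.trans hyy0
  have hx1' : 1 ≤ x := by rw [hxy]; exact one_le_pow₀ (by linarith)
  have hlogx : Real.log x ≤ 10 * y := by
    have := Real.log_le_rpow_div hx0.le (show (0 : ℝ) < 1 / 10 by norm_num)
    rw [← hy] at this
    linarith
  obtain ⟨L, hL1, hL2⟩ := exists_level (y := y) (by linarith)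
  have hY0 : 1 ≤ x / A := by
    rw [one_le_div hA00]
    have h1 : y ≤ y ^ 10 := le_self_pow₀ (by linarith) (by norm_num)
    rw [hxy]
    linarith
  have hJ1 : (J1 (x / A) : ℝ) ≤ 11 * y := by
    have h1 := J1_le hY0
    have h2 : Real.log (x / A) ≤ Real.log x :=
      Real.log_le_log (by positivity) (div_le_self hx0.le (by linarith))
    linarith
  have par : Par A (1 / 4) x y m0 L (J1 (x / A)) :=
    ⟨by linarith, by rw [hA]; linarith, by rw [hA]; linarith, by norm_num, le_rfl, hy4,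
      hy02.trans hyy0, hy03.trans (by gcongr), hxy, hlogx, hL1, hJ1, J1_lt (by linarith)⟩
  obtain ⟨J, hJdef⟩ : ∃ J, J = J1 (x / A) := ⟨_, rfl⟩
  rw [← hJdef] at par
  have hJL := par.J_gt
  have hxA0 : 0 ≤ x / A := by positivity
  -- the good sets
  obtain ⟨G, hG⟩ : ∃ G : ℕ → Set ℝ, G = fun l =>
      GdS T (Γ ^ l) (m0 * 2 ^ l) p0 (x / A / 4 ^ l) (J - l) := ⟨_, rfl⟩
  have hGm : ∀ l, MeasurableSet (G l) := fun l => by rw [hG]; exact gds_meas _ _ _ _ _ _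
  have hGs : ∀ l, G l ⊆ Icc 0 T := fun l => by rw [hG]; exact gds_sub _ _ _ _ _ _
  have hml1 : ∀ l : ℕ, 1 ≤ m0 * 2 ^ l := fun l => by
    have : 0 < m0 * 2 ^ l := by positivity
    omega
  have h64 := par.J64
  -- the last level, both exponents
  have hlst : ∀ b : ℝ, 0 ≤ b → b ≤ 1 / 4 →
      ∫ t in Icc 0 T \ G L, ‖riemannZeta (1 / 2 + I * t)‖ ^ (2 * (1 + b)) ≤ 1 * T := by
    intro b hb0 hb4
    have hmL : mb ≤ m0 * 2 ^ L := hm2.trans (Nat.le_mul_of_pos_right _ (by positivity))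
    have e1 : G L = GdS T (Γ ^ L) (m0 * 2 ^ L) p0 (x / A / 4 ^ L) (J - L) := by rw [hG]
    rw [e1]
    refine hlast T hT6 (m0 * 2 ^ L) hmL p0 hp2 (J - L) b (x / A / 4 ^ L) (Γ ^ L) hb0 hb4
      (par.Y4 le_rfl) ?_ ?_ ?_ (par.JJ le_rfl) ?_ ?_
    · rw [← hx]; exact par.Y43 L
    · rw [← hx]; exact par.mY L
    · rw [← hx]
      have h1 : ((J - L : ℕ) : ℝ) + 1 ≤ J + 1 := by
        have : J - L + 1 ≤ J + 1 := by omega
        exact_mod_cast this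
      have h2 : 64 * ((J : ℝ) + 1) ≤ x := by
        have h3 : 64 * (12 * y) ≤ y ^ 10 := by
          have h3 : (4 : ℝ) ^ 9 ≤ y ^ 9 := by gcongr
          have h4 : y ^ 10 = y ^ 9 * y := by ring
          rw [h4]
          nlinarith only [h3, hypos]
        have h4 := par.hJ
        rw [hxy]
        linarith only [h3, h4, hy4]
      linarith only [h1, h2]
    · rw [← hx]
      have := thr_last (C6 := C6) hy4 hxy hL2 le_rfl
      rwa [one_mul, ← hΓ] at this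
    · rw [← hx, ← hy]
      push_cast
      have h1 : (2 : ℝ) ≤ m0 := by exact_mod_cast hm4
      have h2 : (0 : ℝ) < 2 ^ L := by positivity
      rw [pow_succ] at hL2
      nlinarith only [h1, h2, hL2]
  refine ⟨L, G, hGm, hGs, ?_, ?_, ?_, ?_, ?_, ?_⟩
  · rw [← hx, ← hJdef]; exact hJL.le
  · -- upper
    intro l _ t ht hz
    rw [← hx, ← hJdef]
    have ht' : t ∈ GdS T (Γ ^ l) (m0 * 2 ^ l) p0 (x / A / 4 ^ l) (J - l) := by rw [hG] at ht; exact ht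
    have h1 := gds_upper (hml1 l) ht' hz
    rw [XX_level hxA0, Real.log_pow] at h1
    have hl0 : (0 : ℝ) ≤ l := Nat.cast_nonneg l
    have h2 : l * Real.log Γ + 2 ≤ C * (l + 1) := by
      calc l * Real.log Γ + 2 ≤ (Real.log Γ + 2) * (l + 1) := by linarith only [hl0, hlΓ]
        _ ≤ C * (l + 1) := by gcongr
    linarith
  · -- piece
    intro l hl
    rw [← hx]
    have hJl : J - (l + 1) + 1 = J - l := by omega
    have e1 : G (l + 1) = GdS T (Γ ^ (l + 1)) (2 * (m0 * 2 ^ l)) p0 (x / A / 4 ^ l / 4)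
        (J - (l + 1)) := by
      rw [hG]
      simp only
      rw [div_div (x / A) (4 ^ l) 4, ← pow_succ]
      congr 1
      ring
    have e2 : G l = GdS T (Γ ^ l) (m0 * 2 ^ l) p0 (x / A / 4 ^ l) (J - (l + 1) + 1) := by
      rw [hG, hJl]
    have hml : ma ≤ m0 * 2 ^ l := hm1.trans (Nat.le_mul_of_pos_right _ (by positivity))
    have h2l : (1 : ℝ) ≤ 2 ^ l := one_le_pow₀ (by norm_num)
    have k := hstep T hT7 (m0 * 2 ^ l) hml p0 hp1 0 le_rfl (by norm_num) (J - (l + 1))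
      (⌈A⌉₊ * 4 ^ l) (x / A / 4 ^ l) (1 / 4 / 2 ^ l) (Γ ^ l) (Γ ^ (l + 1)) (par.Y4 hl.le)
    rw [← hx] at k
    have k' := k (par.Y43 l) (by rw [hJl]; exact par.JJ hl.le) (by positivity)
      (div_le_self (by norm_num) h2l) (par.loglog hl.le) (by rw [← Nat.sub_sub]; exact par.len hl)
      (by
        have h1 : 1 ≤ ⌈A⌉₊ := Nat.one_le_ceil_iff.mpr hA00
        have h2 : 1 ≤ 4 ^ l := Nat.one_le_pow _ _ (by norm_num)
        nlinarith only [h1, h2]) (par.mu l) (par.mY l)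
      (by
        have h1 : ((J - (l + 1) : ℕ) : ℝ) + 1 ≤ J := by
          have : J - (l + 1) + 1 ≤ J := by omega
          exact_mod_cast this
        linarith only [h64, h1]) (by positivity) (by positivity)
    rw [← e1, ← e2] at k'
    have e3 : (2 * (1 + 0) : ℝ) = 2 := by norm_num
    have e4 : ((1 + 0 : ℝ)) ^ 2 = 1 := by norm_num
    rw [e3, e4, mul_zero, mul_zero, Real.exp_zero, Real.rpow_zero, Real.rpow_one, one_mul,
      one_mul] at k'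
    simp only [Real.rpow_two] at k'
    refine k'.trans ?_
    have hbr := bracket_le (p0 := p0) (a := ⌈A⌉₊) (m0 := m0) (by omega) hy4 hxy hL1 hΓ100 hl
    rw [← hκ] at hbr
    have hU : 0 ≤ T * x := by positivity
    refine mul_le_mul_of_nonneg_right ?_ hU
    calc C7 * _ ≤ C7 * ((3 + κ) * (1 / 2) ^ l) := mul_le_mul_of_nonneg_left hbr hC7
      _ = (C7 * (3 + κ)) * (1 / 2) ^ l := by ring
      _ ≤ C * (1 / 2) ^ l := by gcongr
  · -- tilt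
    intro l hl
    rw [← hx, ← hJdef]
    have hYl := par.Y4 hl
    have hmYl := par.mY l
    have hE : G l = GdS T (Γ ^ l) (m0 * 2 ^ l) p0 (x / A / 4 ^ l) (J - l) := by rw [hG]
    obtain ⟨D, hD⟩ : ∃ D : DP, D = DD (m0 * 2 ^ l) p0 1 (x / A / 4 ^ l) (J - l) := ⟨_, rfl⟩
    have hcD : Continuous fun t : ℝ => ‖ev t D‖ ^ 2 := (continuous_ev D).norm.pow 2
    have hcX : Continuous fun t : ℝ => Real.exp (2 * XX p0 (x / A) J l t) := by
      unfold XX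
      refine Real.continuous_exp.comp (continuous_const.mul ?_)
      exact continuous_finsetSum _ fun j _ => Complex.continuous_re.comp (continuous_ev _)
    have h1 : ∫ t in G l, Real.exp (2 * XX p0 (x / A) J l t)
        ≤ ∫ t in G l, Real.exp 4 * ‖ev t D‖ ^ 2 := by
      refine setIntegral_mono_on (hcX.integrableOn_Icc.mono_set (hGs l))
        ((hcD.integrableOn_Icc.mono_set (hGs l)).const_mul _) (hGm l) fun t ht => ?_
      rw [hE] at ht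
      have h2 := gds_tilt (hml1 l) ht
      rw [XX_level hxA0, ← hD] at h2
      exact h2
    have h2 : ∫ t in G l, ‖ev t D‖ ^ 2 ≤ ∫ t in Icc 0 T, ‖ev t D‖ ^ 2 :=
      setIntegral_mono_set hcD.integrableOn_Icc (Eventually.of_forall fun t => by positivity)
        (LE.le.eventuallyLE (hGs l))
    have h3 : ∫ t in Icc 0 T, ‖ev t D‖ ^ 2 ≤ 47 * (x / A / 4 ^ l) * T := by
      rw [hD]
      refine mean_DD hT0 (by linarith) _ p0 (par.JJ hl) ?_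
      rw [← hx]
      have h4 : ((J - l : ℕ) : ℝ) ≤ J := by
        have : J - l ≤ J := by omega
        exact_mod_cast this
      linarith
    have h4 : x / A / 4 ^ l ≤ (1 / 4) ^ l * x := by
      rw [one_div, inv_pow, div_eq_mul_inv (x / A), mul_comm]
      refine mul_le_mul_of_nonneg_left (div_le_self hx0.le (by linarith)) (by positivity)
    rw [integral_const_mul] at h1
    calc ∫ t in G l, Real.exp (2 * XX p0 (x / A) J l t)
        ≤ Real.exp 4 * ∫ t in G l, ‖ev t D‖ ^ 2 := h1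
      _ ≤ Real.exp 4 * (47 * (x / A / 4 ^ l) * T) :=
          mul_le_mul_of_nonneg_left (h2.trans h3) he4.le
      _ ≤ Real.exp 4 * (47 * ((1 / 4) ^ l * x) * T) := by gcongr
      _ = (47 * Real.exp 4) * ((1 / 4) ^ l * (T * x)) := by ring
      _ ≤ C * ((1 / 4) ^ l * (T * x)) := by gcongr
      _ = _ := by ring
  · -- last
    have h := hlst 0 le_rfl (by norm_num)
    have e3 : (2 * (1 + 0) : ℝ) = 2 := by norm_num
    rw [e3, one_mul] at h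
    simp only [Real.rpow_two] at h
    exact h
  · have h := hlst (1 / 4) (by norm_num) le_rfl
    have e3 : (2 * (1 + 1 / 4) : ℝ) = 5 / 2 := by norm_num
    rw [e3, one_mul] at h
    exact h

end Pool.Agent.Lib.MP_f9aece_nt_rt
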