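import Mathlib
import Pool.Agent.Lib.MP_f9aece_nt_h97.TSM
import Pool.Agent.Lib.MP_f9aece_nt_h97.Polys
import Pool.Agent.Lib.MP_f9aece_nt_h97.Window
import Pool.Agent.Lib.MP_f9aece_nt_h22.OnGood
import Pool.Agent.Lib.MP_f9aece_nt_h22.SmallJ
import Pool.Agent.Lib.MP_f9aece_nt_rt.Defs

/-!
The quadratic forms of the Dirichlet polynomials `c PP I` and `1 + c PP I`.
-/

set_option autoImplicit false

namespace Pool.Agent.Lib.MP_f9aece_nt_rt

open MeasureTheory Set Filter Topology Complex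
open Pool.Agent.Lib.MP_f9aece_nt
open Pool.Agent.Lib.MP_f9aece_nt_h97
open Pool.Agent.Lib.MP_f9aece_nt_h22 (VS J1 biUnion_sc VS_le VS_ge J1_lt)
open Pool.Agent.Lib.MP_f9aece_nt_h85 (Pst)

/-! ### values of the kernels -/

lemma BK_PP_PP (K : ℕ → ℕ → ℝ) (I : Finset ℕ) :
    BK K (PP I) (PP I) = ∑ p ∈ I, ∑ q ∈ I, K p q := by
  unfold PP
  rw [BK_sum_left]
  refine Finset.sum_congr rfl fun p _ => ?_
  rw [BK_sum_right]
  refine Finset.sum_congr rfl fun q _ => ?_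
  rw [BK_single]
  ring

lemma BK_one_PP (K : ℕ → ℕ → ℝ) (I : Finset ℕ) : BK K 1 (PP I) = ∑ p ∈ I, K 1 p := by
  unfold PP
  rw [BK_sum_right]
  refine Finset.sum_congr rfl fun p _ => ?_
  rw [MonoidAlgebra.one_def, BK_single]
  ring

lemma BK_PP_one (K : ℕ → ℕ → ℝ) (I : Finset ℕ) : BK K (PP I) 1 = ∑ p ∈ I, K p 1 := by
  unfold PP
  rw [BK_sum_left]
  refine Finset.sum_congr rfl fun p _ => ?_
  rw [MonoidAlgebra.one_def, BK_single]
  ring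

lemma BK_one_one (K : ℕ → ℕ → ℝ) : BK K 1 1 = K 1 1 := by
  rw [MonoidAlgebra.one_def, BK_single]
  ring

/-- the form of `1 + c PP I` -/
lemma BK_one_add (K : ℕ → ℕ → ℝ) (I : Finset ℕ) (c : ℝ) :
    BK K (1 + c • PP I) (1 + c • PP I)
      = K 1 1 + c * (∑ p ∈ I, K 1 p + ∑ p ∈ I, K p 1) + c ^ 2 * ∑ p ∈ I, ∑ q ∈ I, K p q := by
  rw [BK_add_left, BK_add_right, BK_add_right, BK_smul_left, BK_smul_left, BK_smul_right,
    BK_smul_right, BK_PP_PP, BK_one_PP, BK_PP_one, BK_one_one]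
  ring

lemma K2_one_left (p : ℕ) : K2 1 p = (p : ℝ)⁻¹ := by simp [K2]

lemma K2_one_right (p : ℕ) : K2 p 1 = (p : ℝ)⁻¹ := by simp [K2]

lemma K2_primes {p q : ℕ} (hp : p.Prime) (hq : q.Prime) :
    K2 p q ≤ (p : ℝ)⁻¹ * (q : ℝ)⁻¹ + if p = q then (p : ℝ)⁻¹ else 0 := by
  unfold K2
  have hp0 : (0 : ℝ) < p := by exact_mod_cast hp.pos
  have hq0 : (0 : ℝ) < q := by exact_mod_cast hq.pos
  by_cases h : p = q
  · subst h
    rw [Nat.gcd_self, if_pos rfl]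
    have h1 : (p : ℝ) / (p * p) = (p : ℝ)⁻¹ := by field_simp
    rw [h1]
    have : 0 < (p : ℝ)⁻¹ * (p : ℝ)⁻¹ := by positivity
    linarith
  · rw [if_neg h, (Nat.coprime_primes hp hq).mpr h]
    have h1 : ((1 : ℕ) : ℝ) / (p * q) = (p : ℝ)⁻¹ * (q : ℝ)⁻¹ := by
      push_cast
      field_simp
    rw [h1]
    linarith

lemma KL_one_one : KL 1 1 = 0 := by simp [KL, Kl, Kg]

lemma KL_one_left (p : ℕ) : KL 1 p = (p : ℝ)⁻¹ * Real.log p := by
  simp [KL, Kl, Kg, K2_one_left]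

lemma KL_one_right (p : ℕ) : KL p 1 = (p : ℝ)⁻¹ * Real.log p := by
  simp [KL, Kl, Kg, K2_one_right]

lemma KL_primes {p q : ℕ} (hp : p.Prime) (hq : q.Prime) :
    |KL p q| ≤ (p : ℝ)⁻¹ * (q : ℝ)⁻¹ * (Real.log p + Real.log q) := by
  have hp0 : (0 : ℝ) < p := by exact_mod_cast hp.pos
  have hq0 : (0 : ℝ) < q := by exact_mod_cast hq.pos
  have hlp : 0 ≤ Real.log p := Real.log_natCast_nonneg p
  have hlq : 0 ≤ Real.log q := Real.log_natCast_nonneg q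
  by_cases h : p = q
  · subst h
    have h1 : KL p p = 0 := by simp [KL, Kl, Kg]
    rw [h1, abs_zero]
    positivity
  · have hc : Nat.Coprime p q := (Nat.coprime_primes hp hq).mpr h
    have h1 : KL p q = (p : ℝ)⁻¹ * (q : ℝ)⁻¹ * (Real.log p + Real.log q) := by
      unfold KL Kl Kg K2
      rw [hc.gcd_eq_one, hc.lcm_eq_mul]
      push_cast
      rw [Real.log_mul hp0.ne' hq0.ne', Real.log_one]
      field_simp
      ring
    rw [h1, abs_of_nonneg (by positivity)]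

/-! ### bounds for the forms -/

/-- the `K2` form of the prime polynomial -/
noncomputable def WW (I : Finset ℕ) : ℝ := ∑ p ∈ I, ∑ q ∈ I, K2 p q

lemma WW_nonneg (I : Finset ℕ) : 0 ≤ WW I :=
  Finset.sum_nonneg fun p _ => Finset.sum_nonneg fun q _ => K2_nonneg p q

lemma WW_le {I : Finset ℕ} (hI : ∀ p ∈ I, p.Prime) : WW I ≤ VV I ^ 2 + VV I := by
  calc WW I ≤ ∑ p ∈ I, ∑ q ∈ I, ((p : ℝ)⁻¹ * (q : ℝ)⁻¹ + if p = q then (p : ℝ)⁻¹ else 0) :=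
        Finset.sum_le_sum fun p hp => Finset.sum_le_sum fun q hq => K2_primes (hI p hp) (hI q hq)
    _ = VV I ^ 2 + VV I := by
        simp only [Finset.sum_add_distrib]
        congr 1
        · rw [sq, VV, Finset.sum_mul_sum]
        · rw [VV]
          refine Finset.sum_congr rfl fun p hp => ?_
          rw [Finset.sum_ite_eq, if_pos hp]

lemma K2_form (I : Finset ℕ) (c : ℝ) :
    BK K2 (1 + c • PP I) (1 + c • PP I) = 1 + 2 * c * VV I + c ^ 2 * WW I := by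
  rw [BK_one_add]
  simp only [K2_one_left, K2_one_right]
  unfold WW VV
  norm_num
  ring

lemma LL_nonneg' (I : Finset ℕ) : 0 ≤ LL I :=
  Finset.sum_nonneg fun p _ => mul_nonneg (by positivity) (Real.log_natCast_nonneg p)

lemma abs_KL_sum_le {I : Finset ℕ} (hI : ∀ p ∈ I, p.Prime) :
    |∑ p ∈ I, ∑ q ∈ I, KL p q| ≤ 2 * LL I * VV I := by
  calc |∑ p ∈ I, ∑ q ∈ I, KL p q| ≤ ∑ p ∈ I, ∑ q ∈ I, |KL p q| :=
        (Finset.abs_sum_le_sum_abs _ _).trans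
          (Finset.sum_le_sum fun p _ => Finset.abs_sum_le_sum_abs _ _)
    _ ≤ ∑ p ∈ I, ∑ q ∈ I, (p : ℝ)⁻¹ * (q : ℝ)⁻¹ * (Real.log p + Real.log q) :=
        Finset.sum_le_sum fun p hp => Finset.sum_le_sum fun q hq => KL_primes (hI p hp) (hI q hq)
    _ = ∑ p ∈ I, ∑ q ∈ I, ((p : ℝ)⁻¹ * Real.log p) * (q : ℝ)⁻¹
        + ∑ p ∈ I, ∑ q ∈ I, (p : ℝ)⁻¹ * ((q : ℝ)⁻¹ * Real.log q) := by
        rw [← Finset.sum_add_distrib]
        refine Finset.sum_congr rfl fun p _ => ?_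
        rw [← Finset.sum_add_distrib]
        refine Finset.sum_congr rfl fun q _ => ?_
        ring
    _ = 2 * LL I * VV I := by
        rw [← Finset.sum_mul_sum, ← Finset.sum_mul_sum]
        unfold LL VV
        ring

lemma KL_form_le {I : Finset ℕ} (hI : ∀ p ∈ I, p.Prime) (c : ℝ) :
    |BK KL (1 + c • PP I) (1 + c • PP I)| ≤ 2 * |c| * LL I + 2 * c ^ 2 * LL I * VV I := by
  rw [BK_one_add, KL_one_one]
  simp only [KL_one_left, KL_one_right]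
  have h1 := abs_KL_sum_le hI
  have h2 := LL_nonneg' I
  have h3 : ∑ p ∈ I, (p : ℝ)⁻¹ * Real.log p = LL I := rfl
  rw [h3]
  calc |0 + c * (LL I + LL I) + c ^ 2 * ∑ p ∈ I, ∑ q ∈ I, KL p q|
      ≤ |c * (LL I + LL I)| + |c ^ 2 * ∑ p ∈ I, ∑ q ∈ I, KL p q| := by
        rw [zero_add]; exact abs_add_le _ _
    _ = |c| * (LL I + LL I) + c ^ 2 * |∑ p ∈ I, ∑ q ∈ I, KL p q| := by
        rw [abs_mul, abs_mul, abs_of_nonneg (sq_nonneg c), abs_of_nonneg (add_nonneg h2 h2)]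
    _ ≤ |c| * (LL I + LL I) + c ^ 2 * (2 * LL I * VV I) := by gcongr
    _ = _ := by ring

lemma cone_PP {I : Finset ℕ} {A : Set ℕ} (hI : ∀ p ∈ I, p ∈ A) : Cone A (PP I) :=
  Cone.sum _ fun p hp => Cone.single (hI p hp) zero_le_one

/-- the support of `1 + c PP I` -/
lemma supp_one_add {I : Finset ℕ} {H : ℝ} (hH : 1 ≤ H) (hI : ∀ p ∈ I, 1 ≤ p ∧ (p : ℝ) ≤ H) (c : ℝ) :
    ∀ n, (1 + c • PP I : DP).coeff n ≠ 0 → 1 ≤ n ∧ (n : ℝ) ≤ H := by
  intro n hn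
  by_contra hcon
  apply hn
  have h1 : (1 : DP).coeff n = 0 := by
    by_contra h
    exact hcon (((Cone.one (A := {n | 1 ≤ n ∧ (n : ℝ) ≤ H}) (by simpa using hH)) n).2 h)
  have h2 : (PP I).coeff n = 0 := by
    by_contra h
    exact hcon (((cone_PP (A := {n | 1 ≤ n ∧ (n : ℝ) ≤ H}) hI) n).2 h)
  rw [MonoidAlgebra.coeff_add, MonoidAlgebra.coeff_smul, Finsupp.add_apply, Finsupp.smul_apply,
    h1, h2]
  simp

lemma supp_PP {I : Finset ℕ} {H : ℝ} (hI : ∀ p ∈ I, 1 ≤ p ∧ (p : ℝ) ≤ H) :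
    ∀ n, (PP I : DP).coeff n ≠ 0 → 1 ≤ n ∧ (n : ℝ) ≤ H := fun n hn =>
  ((cone_PP (A := {n | 1 ≤ n ∧ (n : ℝ) ≤ H}) hI) n).2 hn

lemma dom_PP (I : Finset ℕ) : Dom (PP I) (PP I) :=
  dom_self (cone_PP (A := Set.univ) fun _ _ => Set.mem_univ _)

lemma nrm_PP_le (I : Finset ℕ) : nrm (PP I) ≤ I.card := by
  rw [← aug_PP]
  exact nrm_le_aug (dom_PP I)

lemma nrm_one_add_le (I : Finset ℕ) {c : ℝ} (hc : |c| ≤ 1) :
    nrm (1 + c • PP I) ≤ 1 + I.card := by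
  have h1 : Dom (1 + c • PP I) (1 + (1 : ℝ) • PP I) := Dom.one.add ((dom_PP I).smul hc)
  refine (nrm_le_aug h1).trans (le_of_eq ?_)
  rw [← aug_PP]
  have h2 := aug_one
  unfold aug at h2 ⊢
  rw [pair_add, pair_smul, h2]
  ring

/-! ### primes up to `exp Y` -/

lemma mem_Pst {p0 p : ℕ} {Y : ℝ} : p ∈ Pst p0 Y ↔ (p0 < p ∧ p ≤ ⌊Real.exp Y⌋₊) ∧ p.Prime := by
  unfold Pst
  rw [Finset.mem_filter, Finset.mem_Ioc]

lemma Pst_prime {p0 : ℕ} {Y : ℝ} : ∀ p ∈ Pst p0 Y, p.Prime := fun _ hp => (mem_Pst.mp hp).2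

lemma Pst_le {p0 : ℕ} {Y : ℝ} : ∀ p ∈ Pst p0 Y, 1 ≤ p ∧ (p : ℝ) ≤ Real.exp Y := fun p hp => by
  refine ⟨(Pst_prime p hp).one_le, ?_⟩
  exact (Nat.le_floor_iff (Real.exp_pos Y).le).mp (mem_Pst.mp hp).1.2

lemma card_Pst_le (p0 : ℕ) (Y : ℝ) : ((Pst p0 Y).card : ℝ) ≤ Real.exp Y := by
  refine card_le_exp fun p hp => ⟨(Pst_le p hp).1, ?_⟩
  rw [Real.log_le_iff_le_exp (by exact_mod_cast (Pst_prime p hp).pos)]
  exact (Pst_le p hp).2

lemma LL_le_of_subset {I : Finset ℕ} {Y : ℝ} (hY : 0 < Y)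
    (hI : ∀ p ∈ I, p.Prime ∧ (p : ℝ) ≤ Real.exp Y) : LL I ≤ Y + 2 := by
  classical
  set n := ⌊Real.exp Y⌋₊ with hn
  have hn1 : 1 ≤ n := Nat.floor_pos.mpr (Real.one_le_exp hY.le)
  have hsub : I ⊆ (Finset.Ioc 0 n).filter Nat.Prime := by
    intro p hp
    rw [Finset.mem_filter, Finset.mem_Ioc]
    exact ⟨⟨(hI p hp).1.pos, Nat.le_floor (hI p hp).2⟩, (hI p hp).1⟩
  calc LL I ≤ ∑ p ∈ (Finset.Ioc 0 n).filter Nat.Prime, (p : ℝ)⁻¹ * Real.log p :=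
        Finset.sum_le_sum_of_subset_of_nonneg hsub fun p _ _ =>
          mul_nonneg (by positivity) (Real.log_natCast_nonneg p)
    _ = ∑ p ∈ (Finset.Ioc 0 n).filter Nat.Prime, Real.log p / p :=
        Finset.sum_congr rfl fun p _ => by ring
    _ ≤ Real.log n + Real.log 4 := sum_log_div_le hn1
    _ ≤ Y + 2 := by
        have h3 : Real.log n ≤ Y := by
          rw [Real.log_le_iff_le_exp (by exact_mod_cast hn1)]
          exact Nat.floor_le (Real.exp_pos Y).le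
        have h4 : Real.log 4 ≤ 2 := by
          have : Real.log 4 = 2 * Real.log 2 := by
            rw [show (4 : ℝ) = 2 ^ 2 by norm_num, Real.log_pow]; norm_num
          rw [this]
          have := Real.log_two_lt_d9
          linarith
        linarith

/-- the prime polynomials over all scales -/
lemma XX_eq {Y : ℝ} (hY : 0 < Y) (p0 : ℕ) (t : ℝ) :
    XX p0 Y (J1 Y) 0 t = (ev t (PP (Pst p0 Y))).re := by
  unfold XX
  rw [← Complex.re_sum, ← map_sum, Nat.Ico_zero_eq_range, ← biUnion_sc hY p0 (J1_lt hY)]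
  congr 2
  unfold PP
  rw [Finset.sum_biUnion]
  intro i _ j _ hij
  exact sc_disjoint hY hij

lemma VV_Pst (p0 : ℕ) (Y : ℝ) : VV (Pst p0 Y) = VS p0 Y := rfl

end Pool.Agent.Lib.MP_f9aece_nt_rt
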