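import Mathlib
import Pool.Agent.Lib.MP_f9aece_nt_rt.PrimeForms

/-!
The first order main term `∫ |zeta|^2 Re P`, from the twisted second moment with polynomial
constants and the lower bound for the second moment.
-/

set_option autoImplicit false

namespace Pool.Agent.Lib.MP_f9aece_nt_rt

open MeasureTheory Set Filter Topology Complex
open Pool.Agent.Lib.MP_f9aece_nt
open Pool.Agent.Lib.MP_f9aece_nt_h97
open Pool.Agent.Lib.MP_f9aece_nt_h22 (VS J1 biUnion_sc VS_le VS_ge J1_lt VS_nonneg)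
open Pool.Agent.Lib.MP_f9aece_nt_h85 (Pst)

/-! ### one block -/

/-- one block (only needs `tsm`) -/
theorem block_second : ∃ C T0 : ℝ, 0 ≤ C ∧ 16 ≤ T0 ∧ ∀ T : ℝ, T0 ≤ T → ∀ (Y : ℝ) (p0 j : ℕ),
    1 ≤ Y → 200 * Y ≤ Real.log T →
    ∫ t in (0 : ℝ)..T, ‖riemannZeta (1 / 2 + I * t) * ev t (PP (sc Y p0 j))‖ ^ 2
      ≤ C * (T * Real.log T) := by
  obtain ⟨C, T0, hC, hT0, h⟩ := tsm (ε := 1) one_pos le_rfl
  refine ⟨2 * (156 + 72) + 157 * C, max T0 16, by positivity, le_max_right _ _, ?_⟩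
  intro T hT Y p0 j hY hYT
  have hT0' : T0 ≤ T := (le_max_left _ _).trans hT
  have hT16 : 16 ≤ T := (le_max_right _ _).trans hT
  have hTpos : 0 < T := by linarith
  have hx : 200 ≤ Real.log T := by linarith
  set S := sc Y p0 j with hS
  have hYpos : 0 < Y := by linarith
  have hprime : ∀ p ∈ S, p.Prime := fun p hp => sc_prime hp
  have hlog : ∀ p ∈ S, Real.log p ≤ Y := fun p hp => by
    refine (sc_log_le hp).trans ?_
    exact div_le_self hYpos.le (one_le_pow₀ (by norm_num))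
  have hle : ∀ p ∈ S, 1 ≤ p ∧ (p : ℝ) ≤ Real.exp Y := fun p hp => by
    refine ⟨(hprime p hp).one_le, ?_⟩
    rw [← Real.log_le_iff_le_exp (by exact_mod_cast (hprime p hp).pos)]
    exact hlog p hp
  have hH : 1 ≤ Real.exp Y := Real.one_le_exp hYpos.le
  have h1 := h T hT0' (PP S) (Real.exp Y) hH (supp_PP hle)
  have hV : VV S ≤ 12 := VV_sc_le hYpos p0 j
  have hV0 : 0 ≤ VV S := VV_nonneg S
  have hW : |BK K2 (PP S) (PP S)| ≤ 156 := by
    rw [BK_PP_PP]
    change |WW S| ≤ 156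
    rw [abs_of_nonneg (WW_nonneg S)]
    have := WW_le hprime
    linarith [pow_le_pow_left₀ hV0 hV 2]
  have hLL : LL S ≤ Y + 2 := LL_le_of_subset hYpos fun p hp => ⟨hprime p hp, (hle p hp).2⟩
  have hLL0 := LL_nonneg' S
  have hK : |BK KL (PP S) (PP S)| ≤ 72 * Real.log T := by
    rw [BK_PP_PP]
    refine (abs_KL_sum_le hprime).trans ?_
    calc 2 * LL S * VV S ≤ 2 * (Y + 2) * 12 := by gcongr
      _ ≤ 72 * Real.log T := by linarith
  have hn : nrm (PP S) ≤ Real.exp Y :=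
    (nrm_PP_le S).trans (card_le_exp fun p hp => ⟨(hle p hp).1, hlog p hp⟩)
  have hn0 := nrm_nonneg (PP S)
  have hE : (nrm (PP S) * Real.exp Y) ^ 2 / T ^ (1 / 16 : ℝ) ≤ 1 := by
    rw [div_le_one (by positivity)]
    calc (nrm (PP S) * Real.exp Y) ^ 2 ≤ (Real.exp Y * Real.exp Y) ^ 2 := by gcongr
      _ = Real.exp (4 * Y) := by
          rw [← Real.exp_add, ← Real.exp_nat_mul]
          congr 1
          push_cast
          ring
      _ ≤ T ^ (1 / 16 : ℝ) := by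
          rw [Real.rpow_def_of_pos hTpos]
          apply Real.exp_le_exp.mpr
          linarith
  refine h1.trans ?_
  have hC2 : C * (nrm (PP S) * Real.exp Y) ^ 2 / T ^ (1 / 16 : ℝ) ≤ C := by
    rw [mul_div_assoc]
    exact mul_le_of_le_one_right hC hE
  have hx0 : 0 ≤ Real.log T := by linarith
  have h3 : Real.log T * |BK K2 (PP S) (PP S)| ≤ Real.log T * 156 := by gcongr
  have h4 : C * |BK K2 (PP S) (PP S)| ≤ C * 156 := by gcongr
  have h5 : C ≤ C * Real.log T := le_mul_of_one_le_right hC (by linarith)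
  calc T * ((1 + 1) * (Real.log T * |BK K2 (PP S) (PP S)| + |BK KL (PP S) (PP S)|)
        + C * |BK K2 (PP S) (PP S)| + C * (nrm (PP S) * Real.exp Y) ^ 2 / T ^ (1 / 16 : ℝ))
      ≤ T * ((2 * (156 + 72) + 157 * C) * Real.log T) := by
        apply mul_le_mul_of_nonneg_left _ hTpos.le
        linarith
    _ = _ := by ring

/-! ### the main term -/

/-- powers of the logarithm are negligible -/
lemma log_pow_le (K : ℝ) (n : ℕ) : ∃ x0 : ℝ, 16 ≤ x0 ∧ ∀ x : ℝ, x0 ≤ x → K * Real.log x ^ n ≤ x := by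
  have h1 := Real.tendsto_pow_log_div_mul_add_atTop 1 0 n one_ne_zero
  simp only [one_mul, add_zero] at h1
  have h2 : ∀ᶠ x in atTop, Real.log x ^ n / x < 1 / (|K| + 1) :=
    h1.eventually (gt_mem_nhds (by positivity))
  rw [eventually_atTop] at h2
  obtain ⟨x1, hx1⟩ := h2
  refine ⟨max x1 16, le_max_right _ _, fun x hx => ?_⟩
  have h3 := hx1 x ((le_max_left _ _).trans hx)
  have hx16 : 16 ≤ x := (le_max_right _ _).trans hx
  have hx0 : 0 < x := by linarith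
  have hl : 0 ≤ Real.log x ^ n := pow_nonneg (Real.log_nonneg (by linarith)) n
  rw [div_lt_div_iff₀ hx0 (by positivity), one_mul] at h3
  have h4 : K ≤ |K| + 1 := by linarith [le_abs_self K]
  calc K * Real.log x ^ n ≤ (|K| + 1) * Real.log x ^ n := by gcongr
    _ ≤ x := by linarith

/-- the linear term is controlled by the two second moments -/
lemma cross_le {T c : ℝ} (hT : 0 ≤ T) (D : DP) :
    2 * c * (∫ t in (0 : ℝ)..T, ‖riemannZeta (1 / 2 + I * t)‖ ^ 2 * (ev t D).re)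
      ≤ (∫ t in (0 : ℝ)..T, ‖riemannZeta (1 / 2 + I * t) * ev t (1 + c • D)‖ ^ 2)
        - ∫ t in (0 : ℝ)..T, ‖riemannZeta (1 / 2 + I * t)‖ ^ 2 := by
  have c1 : Continuous (fun t : ℝ => ‖riemannZeta (1 / 2 + I * t) * ev t (1 + c • D)‖ ^ 2) :=
    (continuous_zeta.mul (continuous_ev _)).norm.pow 2
  have c2 : Continuous (fun t : ℝ => ‖riemannZeta (1 / 2 + I * t)‖ ^ 2) := continuous_zeta.norm.pow 2
  have c3 : Continuous (fun t : ℝ => ‖riemannZeta (1 / 2 + I * t)‖ ^ 2 * (ev t D).re) :=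
    c2.mul (Complex.continuous_re.comp (continuous_ev _))
  rw [← intervalIntegral.integral_const_mul, ← intervalIntegral.integral_sub
    (c1.intervalIntegrable _ _) (c2.intervalIntegrable _ _)]
  refine intervalIntegral.integral_mono_on hT ((continuous_const.mul c3).intervalIntegrable _ _)
    ((c1.sub c2).intervalIntegrable _ _) fun t _ => ?_
  rw [map_add, map_one, map_smul, norm_mul, mul_pow]
  have h1 : ‖(1 : ℂ) + c • ev t D‖ ^ 2 = 1 + 2 * c * (ev t D).re + c ^ 2 * ‖ev t D‖ ^ 2 := by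
    rw [← Complex.normSq_eq_norm_sq, ← Complex.normSq_eq_norm_sq, Complex.normSq_apply,
      Complex.normSq_apply]
    simp only [Complex.add_re, Complex.add_im, Complex.one_re, Complex.one_im, Complex.real_smul,
      Complex.mul_re, Complex.mul_im, Complex.ofReal_re, Complex.ofReal_im]
    ring
  rw [h1]
  have h2 : 0 ≤ ‖riemannZeta (1 / 2 + I * t)‖ ^ 2 * (c ^ 2 * ‖ev t D‖ ^ 2) := by positivity
  linarith

/-- the hypotheses: the twisted second moment with polynomial constants -/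
def TsmRate (C0 : ℝ) (N : ℕ) : Prop := ∀ ε : ℝ, 0 < ε → ε ≤ 1 → ∀ T : ℝ,
    C0 * (1 / ε) ^ N ≤ T → ∀ (D : DP) (H : ℝ), 1 ≤ H →
    (∀ n, D.coeff n ≠ 0 → 1 ≤ n ∧ (n : ℝ) ≤ H) →
    ∫ t in (0 : ℝ)..T, ‖riemannZeta (1 / 2 + I * t) * ev t D‖ ^ 2
      ≤ T * ((1 + ε) * (Real.log T * |BK K2 D D| + |BK KL D D|)
        + C0 * (1 / ε) ^ N * |BK K2 D D|
        + C0 * (1 / ε) ^ N * (nrm D * H) ^ 2 / T ^ (1 / 16 : ℝ))

/-- one side of the estimate, with `c = ±1 / lam ^ 2` -/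
lemma one_side {A : ℝ} (hA : 200 ≤ A) {p0 : ℕ} {C0 C1 : ℝ} {N : ℕ} (hC0 : 1 ≤ C0)
    (hts : TsmRate C0 N) {T x lam V c : ℝ} (hx : x = Real.log T) (hlam : lam = Real.log x)
    (hV : V = VS p0 (x / A)) (hT : 0 < T) (hxA : A ≤ x) (hlam8 : 8 ≤ lam) (hVlam : V ≤ 2 * lam)
    (hc : |c| = 1 / lam ^ 2)
    (h1 : C0 * lam ^ (2 * N) ≤ T) (h2 : 2 * C0 * lam ^ (2 * N + 2) ≤ x) (h3 : C1 * lam ^ 3 ≤ x)
    (hsec : T * (x - C1 * lam) ≤ ∫ t in (0 : ℝ)..T, ‖riemannZeta (1 / 2 + I * t)‖ ^ 2) :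
    2 * c * (∫ t in (0 : ℝ)..T, ‖riemannZeta (1 / 2 + I * t)‖ ^ 2 * (ev t (PP (Pst p0 (x / A)))).re)
      ≤ T * (2 * c * V * x + 20 * |c| * x) := by
  set Y := x / A with hY
  have hA0 : 0 < A := by linarith
  have hlam0 : 0 < lam := by linarith
  have hx200 : 200 ≤ x := by linarith
  have hY1 : 1 ≤ Y := by rw [hY, le_div_iff₀ hA0]; linarith
  have hY0 : 0 < Y := by linarith
  have hYx : 200 * Y ≤ x := by
    rw [hY]
    rw [mul_div_assoc', div_le_iff₀ hA0]
    linarith [mul_le_mul_of_nonneg_right hA (by linarith : (0 : ℝ) ≤ x)]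
  set δ := |c| with hδ
  have hδ0 : 0 < δ := by rw [hc]; positivity
  have hδ1 : δ ≤ 1 := by
    rw [hc, div_le_one (by positivity)]
    exact one_le_pow₀ (by linarith)
  have hδlam : δ * lam ^ 2 = 1 := by rw [hc]; field_simp
  have hδinv : (1 / δ) ^ N = lam ^ (2 * N) := by
    rw [hc, one_div_one_div, ← pow_mul]
  have hV0 : 0 ≤ V := by rw [hV]; exact VS_nonneg _ _
  have key := cross_le hT.le (c := c) (PP (Pst p0 Y))
  have hH : 1 ≤ Real.exp Y := Real.one_le_exp hY0.le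
  have h4 := hts δ hδ0 hδ1 T (by rw [hδinv]; exact h1) (1 + c • PP (Pst p0 Y)) (Real.exp Y) hH
    (supp_one_add hH Pst_le c)
  rw [hδinv, K2_form] at h4
  have hVV : VV (Pst p0 Y) = V := by rw [hV]; rfl
  rw [hVV] at h4
  -- the `K2` form
  have hW0 := WW_nonneg (Pst p0 Y)
  have hW := WW_le (I := Pst p0 Y) Pst_prime
  rw [hVV] at hW
  have hc2 : c ^ 2 = δ ^ 2 := by rw [hδ, sq_abs]
  have hW6 : WW (Pst p0 Y) ≤ 6 * lam ^ 2 := by 
    have q1 : V ^ 2 ≤ (2 * lam) ^ 2 := pow_le_pow_left₀ hV0 hVlam 2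
    have q2 : lam * 1 ≤ lam * lam := mul_le_mul_of_nonneg_left (by linarith) hlam0.le
    linarith
  have hcW : c ^ 2 * WW (Pst p0 Y) ≤ 6 * δ := by
    rw [hc2]
    calc δ ^ 2 * WW (Pst p0 Y) ≤ δ ^ 2 * (6 * lam ^ 2) := by gcongr
      _ = 6 * δ * (δ * lam ^ 2) := by ring
      _ = 6 * δ := by rw [hδlam]; ring
  have hcW0 : 0 ≤ c ^ 2 * WW (Pst p0 Y) := by positivity
  have hδlam8 : δ * lam ≤ 1 / 8 := by 
    have q1 : δ * lam * 8 ≤ δ * lam * lam :=
      mul_le_mul_of_nonneg_left hlam8 (mul_nonneg hδ0.le hlam0.le)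
    have q2 : δ * lam * lam = 1 := by rw [mul_assoc, ← sq]; exact hδlam
    linarith
  have hδV : δ * V ≤ 1 / 4 := by linarith [mul_le_mul_of_nonneg_left hVlam hδ0.le]
  have hcV : |c * V| ≤ 1 / 4 := by
    rw [abs_mul, abs_of_nonneg hV0]; exact hδV
  have hcV1 := (abs_le.mp hcV).1
  have hcV2 := (abs_le.mp hcV).2
  have hδ64 : δ ≤ 1 / 64 := by linarith [mul_le_mul_of_nonneg_left hlam8 hδ0.le]
  have hB0 : 0 ≤ 1 + 2 * c * V + c ^ 2 * WW (Pst p0 Y) := by linarith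
  have hB2 : 1 + 2 * c * V + c ^ 2 * WW (Pst p0 Y) ≤ 2 := by linarith
  rw [abs_of_nonneg hB0] at h4
  -- the `KL` form
  have hLL : LL (Pst p0 Y) ≤ Y + 2 := LL_le_of_subset hY0 fun p hp => ⟨Pst_prime p hp, (Pst_le p hp).2⟩
  have hLL0 := LL_nonneg' (Pst p0 Y)
  have hLx : LL (Pst p0 Y) ≤ x / 4 := by linarith
  have hK := KL_form_le (I := Pst p0 Y) Pst_prime c
  rw [hVV] at hK
  have hK2 : |BK KL (1 + c • PP (Pst p0 Y)) (1 + c • PP (Pst p0 Y))| ≤ δ * x := by
    refine hK.trans ?_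
    rw [hc2]
    calc 2 * |c| * LL (Pst p0 Y) + 2 * δ ^ 2 * LL (Pst p0 Y) * V
        = 2 * δ * LL (Pst p0 Y) * (1 + δ * V) := by rw [← hδ]; ring
      _ ≤ 2 * δ * (x / 4) * (1 + 1 / 4) := by gcongr
      _ = 5 / 8 * (δ * x) := by ring
      _ ≤ δ * x := by
          have : 0 < δ * x := mul_pos hδ0 (by linarith)
          linarith
  -- the error terms
  have hn : nrm (1 + c • PP (Pst p0 Y)) ≤ 2 * Real.exp Y := by
    have h5 := nrm_one_add_le (Pst p0 Y) (c := c) (by rw [← hδ]; exact hδ1)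
    have h6 := card_Pst_le p0 Y
    linarith
  have hn0 := nrm_nonneg (1 + c • PP (Pst p0 Y))
  have hE : (nrm (1 + c • PP (Pst p0 Y)) * Real.exp Y) ^ 2 / T ^ (1 / 16 : ℝ) ≤ 4 := by
    rw [div_le_iff₀ (by positivity)]
    calc (nrm (1 + c • PP (Pst p0 Y)) * Real.exp Y) ^ 2 ≤ (2 * Real.exp Y * Real.exp Y) ^ 2 := by gcongr
      _ = 4 * Real.exp (4 * Y) := by
          have : Real.exp (4 * Y) = (Real.exp Y * Real.exp Y) ^ 2 := by
            rw [← Real.exp_add, ← Real.exp_nat_mul]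
            congr 1
            push_cast
            ring
          rw [this]
          ring
      _ ≤ 4 * T ^ (1 / 16 : ℝ) := by
          rw [Real.rpow_def_of_pos hT, ← hx]
          apply mul_le_mul_of_nonneg_left _ (by norm_num)
          apply Real.exp_le_exp.mpr
          linarith
  have hP : 0 < lam ^ (2 * N) := by positivity
  have hP2 : C0 * lam ^ (2 * N) ≤ δ * x / 2 := by
    have e : lam ^ (2 * N + 2) = lam ^ (2 * N) * lam ^ 2 := by rw [pow_add]
    rw [e] at h2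
    have h5 : δ * (2 * C0 * (lam ^ (2 * N) * lam ^ 2)) ≤ δ * x := by gcongr
    have h6 : δ * (2 * C0 * (lam ^ (2 * N) * lam ^ 2)) = 2 * (C0 * lam ^ (2 * N)) * (δ * lam ^ 2) := by
      ring
    rw [h6, hδlam] at h5
    linarith
  have hE1 : C0 * lam ^ (2 * N) * (1 + 2 * c * V + c ^ 2 * WW (Pst p0 Y)) ≤ δ * x := by
    calc C0 * lam ^ (2 * N) * (1 + 2 * c * V + c ^ 2 * WW (Pst p0 Y))
        ≤ (δ * x / 2) * 2 := by gcongr
      _ = δ * x := by ring
  have hE2 : C0 * lam ^ (2 * N) * (nrm (1 + c • PP (Pst p0 Y)) * Real.exp Y) ^ 2 / T ^ (1 / 16 : ℝ)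
      ≤ 2 * (δ * x) := by
    rw [mul_div_assoc]
    calc C0 * lam ^ (2 * N) * ((nrm (1 + c • PP (Pst p0 Y)) * Real.exp Y) ^ 2 / T ^ (1 / 16 : ℝ))
        ≤ (δ * x / 2) * 4 := by gcongr
      _ = _ := by ring
  have hsec2 : C1 * lam ≤ δ * x := by
    have h5 : δ * (C1 * lam ^ 3) ≤ δ * x := by gcongr
    have h6 : δ * (C1 * lam ^ 3) = C1 * lam * (δ * lam ^ 2) := by ring
    rw [h6, hδlam, mul_one] at h5
    exact h5
  rw [← hx] at h4
  have hx0 : 0 < x := by linarith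
  have hδx : 0 < δ * x := by positivity
  have h7 : (1 + δ) * (x * (1 + 2 * c * V + c ^ 2 * WW (Pst p0 Y))
      + |BK KL (1 + c • PP (Pst p0 Y)) (1 + c • PP (Pst p0 Y))|)
      ≤ x + 2 * c * V * x + 10 * (δ * x) := by
    have h8 : x * (c ^ 2 * WW (Pst p0 Y)) ≤ x * (6 * δ) := by gcongr
    have h9 : δ * x * (1 + 2 * c * V + c ^ 2 * WW (Pst p0 Y)) ≤ δ * x * 2 := by gcongr
    have h10 : (1 + δ) * |BK KL (1 + c • PP (Pst p0 Y)) (1 + c • PP (Pst p0 Y))|
        ≤ (1 + 1) * (δ * x) := by gcongr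
    linarith
  have h11 : (∫ t in (0 : ℝ)..T, ‖riemannZeta (1 / 2 + I * t) * ev t (1 + c • PP (Pst p0 Y))‖ ^ 2)
      ≤ T * (x + 2 * c * V * x + 13 * (δ * x)) := by
    refine h4.trans (mul_le_mul_of_nonneg_left ?_ hT.le)
    linarith
  have h12 : T * (x - δ * x) ≤ ∫ t in (0 : ℝ)..T, ‖riemannZeta (1 / 2 + I * t)‖ ^ 2 := by
    refine le_trans (mul_le_mul_of_nonneg_left ?_ hT.le) hsec
    linarith
  refine key.trans ?_
  have h13 : T * (x + 2 * c * V * x + 13 * (δ * x)) - T * (x - δ * x)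
      = T * (2 * c * V * x + 14 * (δ * x)) := by ring
  have h14 : T * (2 * c * V * x + 14 * (δ * x)) ≤ T * (2 * c * V * x + 20 * δ * x) := by
    apply mul_le_mul_of_nonneg_left _ hT.le
    linarith
  linarith

/-- the first order main term -/
theorem prime_main_of {C0 : ℝ} {N : ℕ} (hC0 : 1 ≤ C0) (hts : TsmRate C0 N)
    {C1 T1 : ℝ}
    (hsec : ∀ T : ℝ, T1 ≤ T → T * (Real.log T - C1 * Real.log (Real.log T))
      ≤ ∫ t in (0 : ℝ)..T, ‖riemannZeta (1 / 2 + I * t)‖ ^ 2)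
    {A : ℝ} (hA : 200 ≤ A) {p0 : ℕ} (hp0 : 1 ≤ p0) : ∃ C T0 : ℝ, 0 ≤ C ∧ 16 ≤ T0 ∧
    ∀ T : ℝ, T0 ≤ T →
    |(∫ t in (0 : ℝ)..T, ‖riemannZeta (1 / 2 + I * t)‖ ^ 2
        * XX p0 (Real.log T / A) (J1 (Real.log T / A)) 0 t)
      - T * Real.log T * Real.log (Real.log T)| ≤ C * (T * Real.log T) := by
  obtain ⟨x1, hx1, hx1'⟩ := log_pow_le (2 * C0) (2 * N + 2)
  obtain ⟨x2, hx2, hx2'⟩ := log_pow_le C1 3
  obtain ⟨x3, hx3, hx3'⟩ := log_pow_le (2 * C0) (2 * N)
  have hA1 : 1 ≤ A := by linarith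
  have hlA : 0 ≤ Real.log A := Real.log_nonneg hA1
  have hlp : 0 ≤ Real.log p0 := Real.log_natCast_nonneg p0
  set x0 := max (max (max x1 x2) (max x3 A)) (Real.exp 8) with hx0def
  set Cv := Real.log A + 2 + Real.log p0 + 15 / 4 with hCv
  have hCv0 : 0 ≤ Cv := by positivity
  refine ⟨10 + Cv, max (max T1 16) (Real.exp x0), by positivity,
    (le_max_right _ _).trans (le_max_left _ _), fun T hT => ?_⟩
  have hT1 : T1 ≤ T := ((le_max_left _ _).trans (le_max_left _ _)).trans hT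
  have hT16 : 16 ≤ T := ((le_max_right _ _).trans (le_max_left _ _)).trans hT
  have hTe : Real.exp x0 ≤ T := (le_max_right _ _).trans hT
  have hTpos : 0 < T := by linarith
  set x := Real.log T with hx
  set lam := Real.log x with hlam
  have hx0x : x0 ≤ x := by rw [hx, Real.le_log_iff_exp_le hTpos]; exact hTe
  have hxx1 : x1 ≤ x := by
    refine le_trans ?_ hx0x
    exact ((le_max_left _ _).trans (le_max_left _ _)).trans (le_max_left _ _)
  have hxx2 : x2 ≤ x := by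
    refine le_trans ?_ hx0x
    exact ((le_max_right _ _).trans (le_max_left _ _)).trans (le_max_left _ _)
  have hxx3 : x3 ≤ x := by
    refine le_trans ?_ hx0x
    exact ((le_max_left _ _).trans (le_max_right _ _)).trans (le_max_left _ _)
  have hxA : A ≤ x := by
    refine le_trans ?_ hx0x
    exact ((le_max_right _ _).trans (le_max_right _ _)).trans (le_max_left _ _)
  have hxe : Real.exp 8 ≤ x := (le_max_right _ _).trans hx0x
  have hxpos : 0 < x := (Real.exp_pos 8).trans_le hxe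
  have hlam8 : 8 ≤ lam := by rw [hlam, Real.le_log_iff_exp_le hxpos]; exact hxe
  set V := VS p0 (x / A) with hV
  have hA0 : 0 < A := by linarith
  have hY1 : 1 ≤ x / A := by rw [le_div_iff₀ hA0]; linarith
  have hlogY : Real.log (x / A) = lam - Real.log A := Real.log_div hxpos.ne' hA0.ne'
  have hVu : V ≤ lam - Real.log A + 15 / 4 := by
    have := VS_le hY1 p0
    rw [hlogY] at this
    exact this
  have hVl : lam - Real.log A - 2 - Real.log p0 ≤ V := by
    have := VS_ge hY1 hp0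
    rw [hlogY] at this
    exact this
  have hV2 : V ≤ 2 * lam := by linarith
  have hVabs : |V - lam| ≤ Cv := by
    rw [abs_le, hCv]
    constructor <;> linarith
  have hlam2 : (0 : ℝ) < lam ^ 2 := by positivity
  have hc1 : |1 / lam ^ 2| = 1 / lam ^ 2 := abs_of_pos (by positivity)
  have hc2 : |(-(1 / lam ^ 2))| = 1 / lam ^ 2 := by rw [abs_neg, hc1]
  have e1 : C0 * lam ^ (2 * N) ≤ T := by
    have h3 := hx3' x hxx3
    rw [← hlam] at h3
    have h4 : x ≤ T := by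
      have := Real.log_le_sub_one_of_pos hTpos
      linarith
    have h5 : 0 ≤ C0 * lam ^ (2 * N) := by positivity
    linarith
  have e2 := hx1' x hxx1
  have e3 := hx2' x hxx2
  rw [← hlam] at e2 e3
  have hs := hsec T hT1
  rw [← hx, ← hlam] at hs
  have u1 := one_side (c := 1 / lam ^ 2) hA (p0 := p0) hC0 hts hx hlam hV hTpos hxA hlam8 hV2 hc1 e1 e2 e3 hs
  have u2 := one_side (c := -(1 / lam ^ 2)) hA (p0 := p0) hC0 hts hx hlam hV hTpos hxA hlam8 hV2 hc2 e1 e2 e3 hs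
  rw [hc1] at u1
  rw [hc2] at u2
  simp only [XX_eq (by linarith : 0 < x / A) p0]
  set R := ∫ t in (0 : ℝ)..T, ‖riemannZeta (1 / 2 + I * t)‖ ^ 2 * (ev t (PP (Pst p0 (x / A)))).re with hR
  have v1 : R ≤ T * (V * x + 10 * x) := by
    have h5 : lam ^ 2 * (2 * (1 / lam ^ 2) * R)
        ≤ lam ^ 2 * (T * (2 * (1 / lam ^ 2) * V * x + 20 * (1 / lam ^ 2) * x)) := by gcongr
    have h6 : lam ^ 2 * (2 * (1 / lam ^ 2) * R) = 2 * R := by field_simp
    have h7 : lam ^ 2 * (T * (2 * (1 / lam ^ 2) * V * x + 20 * (1 / lam ^ 2) * x))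
        = 2 * (T * (V * x + 10 * x)) := by
      field_simp
      ring
    rw [h6, h7] at h5
    linarith
  have v2 : T * (V * x - 10 * x) ≤ R := by
    have h5 : lam ^ 2 * (2 * (-(1 / lam ^ 2)) * R)
        ≤ lam ^ 2 * (T * (2 * (-(1 / lam ^ 2)) * V * x + 20 * (1 / lam ^ 2) * x)) := by gcongr
    have h6 : lam ^ 2 * (2 * (-(1 / lam ^ 2)) * R) = -(2 * R) := by field_simp
    have h7 : lam ^ 2 * (T * (2 * (-(1 / lam ^ 2)) * V * x + 20 * (1 / lam ^ 2) * x))
        = -(2 * (T * (V * x - 10 * x))) := by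
      field_simp
      ring
    rw [h6, h7] at h5
    linarith
  have hTx : 0 < T * x := by positivity
  have w1 : R - T * x * V ≤ 10 * (T * x) := by linarith
  have w2 : -(10 * (T * x)) ≤ R - T * x * V := by linarith
  have w3 : |T * x * V - T * x * lam| ≤ Cv * (T * x) := by
    rw [← mul_sub, abs_mul, abs_of_pos hTx, mul_comm]
    gcongr
  have w4 : |R - T * x * V| ≤ 10 * (T * x) := abs_le.mpr ⟨w2, w1⟩
  calc |R - T * x * lam| = |(R - T * x * V) + (T * x * V - T * x * lam)| := by ring_nf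
    _ ≤ |R - T * x * V| + |T * x * V - T * x * lam| := abs_add_le _ _
    _ ≤ 10 * (T * x) + Cv * (T * x) := by linarith
    _ = (10 + Cv) * (T * x) := by ring

end Pool.Agent.Lib.MP_f9aece_nt_rt
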