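import Mathlib
import Pool.Agent.Lib.MP_f9aece_nt.Assemble

/-!
Lower bound for the second moment of zeta with a rate.
-/

set_option autoImplicit false

namespace Pool.Agent.Lib.MP_f9aece_nt_rt

open Filter Topology Set Complex MeasureTheory
open Pool.Agent.Lib.MP_f9aece_nt

private lemma BK_K2_one' : BK K2 (1 : DP) 1 = 1 := by
  have h : (1 : DP) = MonoidAlgebra.single 1 1 := MonoidAlgebra.one_def
  rw [h, BK, pair_single, pair_single]
  simp [K2]

lemma mom_zero_eq {β T : ℝ} (hT : 0 < T) :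
    mom β 0 T = (∫ t in (0 : ℝ)..T, ‖riemannZeta (1 / 2 + I * t)‖ ^ β) / T := by
  have h2 := intervalIntegral.integral_comp_mul_add (a := 0) (b := 1)
    (fun t : ℝ => ‖riemannZeta (1 / 2 + I * t)‖ ^ β) hT.ne' 0
  simp only [mul_zero, add_zero, mul_one, smul_eq_mul] at h2
  unfold mom
  rw [div_eq_inv_mul (∫ t in (0 : ℝ)..T, ‖riemannZeta (1 / 2 + I * t)‖ ^ β) T, ← h2]
  refine intervalIntegral.integral_congr fun u _ => ?_
  congr 3
  push_cast
  ring

/-- The lower bound for the second moment, all parameters explicit. -/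
theorem second_finite {T d η : ℝ} (r : ℕ) (hd0 : 0 < d) (hd1 : d ≤ 1 / 64) (hη0 : 0 < η)
    (hη1 : η ≤ 1 / 10) (hrd : 40 ≤ r * d) (e0 : 1 ≤ T) (e2 : 2 ≤ T ^ d)
    (e3 : T * (1 - η) ≤ T - r * T ^ (1 - d) - T ^ (7 / 8 : ℝ))
    (e4 : (4 : ℝ) ^ r ≤ T ^ (20 : ℝ)) (e5 : 1 * T ^ (-(15 : ℝ)) ≤ η)
    (e6 : 30 * T ^ (-(1 / 8) : ℝ) ≤ η) :
    (T * (1 - η)) * ((1 - 3 * d) * Real.log T) * (1 - 7 * η)
      ≤ ∫ t in (0 : ℝ)..T, ‖riemannZeta (1 / 2 + I * t)‖ ^ 2 := by
  have hT0 : 0 < T := by linarith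
  have hLt : 0 ≤ Real.log T := Real.log_nonneg e0
  set h := T ^ (1 - d) with hh
  have hh0 : 0 < h := by positivity
  set a' := T ^ (7 / 8 : ℝ) with ha'
  set b' := T - r * h with hb'
  have hW : b' - a' = T - r * T ^ (1 - d) - T ^ (7 / 8 : ℝ) := by
    rw [hb', ha', hh]
  have hWT : T * (1 - η) ≤ b' - a' := by rw [hW]; exact e3
  have hW0 : 0 < b' - a' := lt_of_lt_of_le (mul_pos hT0 (by linarith)) hWT
  set ν := nu a' b' h r with hν
  have hνfin : IsFiniteMeasure ν := nu_finite a' b' hh0 r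
  have hνW : ν.real univ = b' - a' := nu_real_univ hh0 (by linarith) r
  set X := ⌊T ^ (1 - 2 * d)⌋₊ with hX
  set N := ⌊T ^ (3 / 2 : ℝ)⌋₊ with hN
  have hXone : 1 ≤ T ^ (1 - 2 * d) := Real.one_le_rpow e0 (by linarith)
  have hX1 : 1 ≤ X := Nat.one_le_iff_ne_zero.mpr (Nat.floor_pos.mpr hXone).ne'
  have hXhi : (X : ℝ) ≤ T ^ (1 - 2 * d) := Nat.floor_le (by positivity)
  have hXN : X ≤ N := Nat.floor_le_floor (Real.rpow_le_rpow_of_exponent_le e0 (by linarith))
  set q := (4 * T ^ (-d)) ^ r with hq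
  have hq0 : 0 ≤ q := by positivity
  have hq20 : q ≤ T ^ (-(20 : ℝ)) := by
    have e1 : q ≤ (4 : ℝ) ^ r * T ^ (-(40 : ℝ)) := by
      rw [hq, mul_pow]
      gcongr
      rw [← Real.rpow_natCast, ← Real.rpow_mul hT0.le]
      exact Real.rpow_le_rpow_of_exponent_le e0 (by linarith only [hrd])
    calc q ≤ (4 : ℝ) ^ r * T ^ (-(40 : ℝ)) := e1
      _ ≤ T ^ (20 : ℝ) * T ^ (-(40 : ℝ)) := by gcongr
      _ = T ^ (-(20 : ℝ)) := by rw [← Real.rpow_add hT0]; norm_num
  have hρ : ∀ a b : ℕ, 1 ≤ a → 1 ≤ b → b ≤ X → a ≠ b →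
      ‖charFun ν (Real.log b - Real.log a)‖ ≤ (b' - a') * q := by
    intro a b ha1 hb1 hb hab
    have hb0 : (0 : ℝ) < b := by exact_mod_cast hb1
    have hbX : (b : ℝ) ≤ T ^ (1 - 2 * d) := le_trans (by exact_mod_cast hb) hXhi
    have hξ := abs_log_sub_ge ha1 hb1 hab
    have hξ0 : Real.log b - Real.log a ≠ 0 := by
      intro e
      rw [e, abs_zero] at hξ
      have : 0 < 1 / (2 * (b : ℝ)) := by positivity
      linarith
    refine (charFun_nu_norm hh0 (by linarith) hξ0 r).trans ?_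
    have hξpos : 0 < |Real.log b - Real.log a| := abs_pos.mpr hξ0
    rw [hq]
    gcongr
    rw [div_le_iff₀ (by positivity)]
    have e1 : T ^ (-d) * h = T ^ (1 - 2 * d) := by
      rw [hh, ← Real.rpow_add hT0]; congr 1; ring
    calc (2 : ℝ) = 4 * b * (1 / (2 * b)) := by field_simp; norm_num
      _ ≤ 4 * T ^ (1 - 2 * d) * |Real.log b - Real.log a| := by gcongr
      _ = 4 * T ^ (-d) * (h * |Real.log b - Real.log a|) := by rw [← e1]; ring
  have hevZ : evh (ZP N) ≤ T ^ (3 / 2 : ℝ) := by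
    have e1 : evh (ZP N) ≤ N := by
      rw [ZP, map_sum]
      calc ∑ n ∈ Finset.Icc 1 N, evh (MonoidAlgebra.single n 1)
          ≤ ∑ n ∈ Finset.Icc 1 N, (1 : ℝ) := by
            refine Finset.sum_le_sum fun n hn => ?_
            rw [Finset.mem_Icc] at hn
            rw [evh_apply, pair_single, one_mul]
            exact Real.rpow_le_one_of_one_le_of_nonpos (by exact_mod_cast hn.1) (by norm_num)
        _ = N := by simp
    exact e1.trans (Nat.floor_le (by positivity))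
  have hevZ0 : 0 ≤ evh (ZP N) := by
    rw [evh_apply]
    exact pair_nonneg (cone_ZP N) fun a _ => by positivity
  have hζ : ∀ᵐ t : ℝ ∂ν, ‖riemannZeta (1 / 2 + I * t) - ev t (ZP N)‖ ≤ 30 * T ^ (-(1 / 8) : ℝ) := by
    filter_upwards [nu_ae (a := a') (b := b') hh0 r] with t ht
    refine zeta_approx_T e0 ?_ ?_
    · exact ht.1
    · have := ht.2
      rw [hb'] at this
      linarith
  have hh1 : (b' - a') * q * evh (ZP N * 1) ^ 2 ≤ η * (b' - a') := by
    rw [mul_one]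
    have e1 : evh (ZP N) ^ 2 ≤ T ^ (3 : ℝ) := by
      calc evh (ZP N) ^ 2 ≤ (T ^ (3 / 2 : ℝ)) ^ 2 := by gcongr
        _ = T ^ (3 : ℝ) := by
            rw [← Real.rpow_natCast, ← Real.rpow_mul hT0.le]; norm_num
    have e2 : q * evh (ZP N) ^ 2 ≤ η := by
      calc q * evh (ZP N) ^ 2
          ≤ T ^ (-(20 : ℝ)) * T ^ (3 : ℝ) := by gcongr
        _ = T ^ (-(20 : ℝ) + 3) := by
            rw [← Real.rpow_add hT0]
        _ ≤ 1 * T ^ (-(15 : ℝ)) := by
            rw [one_mul]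
            exact Real.rpow_le_rpow_of_exponent_le e0 (by norm_num)
        _ ≤ η := e5
    calc (b' - a') * q * evh (ZP N) ^ 2
        = (b' - a') * (q * evh (ZP N) ^ 2) := by ring
      _ ≤ (b' - a') * η := by gcongr
      _ = _ := by ring
  have hlow := lower_abstract (ν := ν) (ρ := (b' - a') * q) (ε := η) (A := 1) (z := 1) hρ
    (by positivity) hX1 hXN (Cone.one (by simp)) coeff_one_one.ge hζ (by positivity) hη0.le hη1
    (by rw [hνW]; exact hh1) (by rw [map_one, mul_one]; exact e6)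
  have hG := G_ge (N := N) (X := X) (z := 1) hX1 hXN (A := 1) (Cone.one (by simp))
  rw [BK_K2_one', mul_one, Nat.cast_one, one_pow, div_one] at hG
  rw [hνW] at hlow
  have hlog : (1 - 3 * d) * Real.log T ≤ Real.log X := by
    have e1 : T ^ (1 - 3 * d) ≤ (X : ℝ) := by
      have e8 : T ^ (1 - 2 * d) / 2 ≤ X := floor_half hXone
      calc T ^ (1 - 3 * d) = T ^ (1 - 2 * d) * T ^ (-d) := by
            rw [← Real.rpow_add hT0]; congr 1; ring
        _ ≤ T ^ (1 - 2 * d) * (1 / 2) := by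
            have : T ^ (-d) ≤ 1 / 2 := by
              rw [Real.rpow_neg hT0.le, one_div]
              exact inv_anti₀ (by norm_num) e2
            gcongr
        _ ≤ X := by linarith
    calc (1 - 3 * d) * Real.log T = Real.log (T ^ (1 - 3 * d)) := by
          rw [Real.log_rpow hT0]
      _ ≤ _ := Real.log_le_log (by positivity) e1
  have hint := mom_ge (β := 2) (x := 0) (T := T) (by norm_num) hT0 (ν := ν) (nu_le hh0 r)
    (nu_ae hh0 r) (by positivity)
    (by rw [hb', hh]; linarith)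
  rw [mom_zero_eq hT0, div_le_div_iff_of_pos_right hT0] at hint
  have e7 : ∀ t : ℝ, ‖riemannZeta (1 / 2 + I * t) * ev t (1 : DP)‖ ^ 2
      = ‖riemannZeta (1 / 2 + I * t)‖ ^ (2 : ℝ) := by
    intro t
    rw [map_one, mul_one, Real.rpow_two]
  simp_rw [e7] at hlow
  have h7 : 0 ≤ 1 - 7 * η := by linarith
  have h3d : 0 ≤ 1 - 3 * d := by linarith
  have hfin : (∫ t in (0 : ℝ)..T, ‖riemannZeta (1 / 2 + I * t)‖ ^ (2 : ℝ))
      = ∫ t in (0 : ℝ)..T, ‖riemannZeta (1 / 2 + I * t)‖ ^ 2 :=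
    intervalIntegral.integral_congr fun t _ => by simp only [Real.rpow_two]
  rw [← hfin]
  refine le_trans ?_ hint
  refine le_trans ?_ hlow
  have := hlog.trans hG
  gcongr

/-- the numerical conditions for the choice `d = 8 log L / L`, `η = 1 / L`, `L = log T` -/
private lemma second_cond {T L lam : ℝ} (hT : 0 < T) (hL : Real.log T = L) (hlam : Real.log L = lam)
    (h1 : 1 ≤ lam) (h2 : 1000 ≤ L) (h3 : 512 * lam ≤ L) :
    T * (L - 32 * lam) ≤ ∫ t in (0 : ℝ)..T, ‖riemannZeta (1 / 2 + I * t)‖ ^ 2 := by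
  have hL0 : 0 < L := by linarith
  have hlam0 : 0 < lam := by linarith
  have hTe : T = Real.exp L := by rw [← hL, Real.exp_log hT]
  have hLe : L = Real.exp lam := by rw [← hlam, Real.exp_log hL0]
  have hpow : ∀ y : ℝ, T ^ y = Real.exp (L * y) := by
    intro y
    rw [Real.rpow_def_of_pos hT, hL]
  have hT1 : 1 ≤ T := by
    rw [hTe]; exact Real.one_le_exp hL0.le
  have hinv : 1 / L = Real.exp (-lam) := by rw [Real.exp_neg, ← hLe, one_div]
  obtain ⟨d, hd⟩ : ∃ d : ℝ, d = 8 * lam / L := ⟨_, rfl⟩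
  have hLd : L * d = 8 * lam := by rw [hd]; field_simp
  have hd0 : 0 < d := by rw [hd]; positivity
  have hd1 : d ≤ 1 / 64 := by
    rw [hd, div_le_div_iff₀ hL0 (by norm_num)]; linarith
  have hη0 : 0 < 1 / L := by positivity
  have hη1 : 1 / L ≤ 1 / 1000 := one_div_le_one_div_of_le (by norm_num) h2
  obtain ⟨r, hr⟩ : ∃ r : ℕ, r = ⌈40 / d⌉₊ := ⟨_, rfl⟩
  have hrd : 40 ≤ r * d := by
    have := Nat.le_ceil (40 / d)
    rw [← hr] at this
    rwa [div_le_iff₀ hd0] at this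
  have hr6 : (r : ℝ) ≤ 6 * L := by
    have h4 := (Nat.ceil_lt_add_one (a := 40 / d) (by positivity)).le
    rw [← hr] at h4
    have h5 : 40 / d ≤ 5 * L := by
      rw [div_le_iff₀ hd0]
      have : 5 * L * d = 5 * (L * d) := by ring
      rw [this, hLd]; linarith
    linarith
  have hr0 : (0 : ℝ) ≤ r := Nat.cast_nonneg r
  have hexp4 : (30 : ℝ) ≤ Real.exp 4 := by
    have h5 := Real.add_one_le_exp (1 : ℝ)
    have h6 : (2.7 : ℝ) ≤ Real.exp 1 := by
      have := Real.exp_one_gt_d9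
      linarith
    have h7 : Real.exp 4 = Real.exp 1 ^ 4 := by rw [← Real.exp_nat_mul]; norm_num
    rw [h7]
    calc (30 : ℝ) ≤ 2.7 ^ 4 := by norm_num
      _ ≤ Real.exp 1 ^ 4 := by gcongr
  have e6 : 30 * T ^ (-(1 / 8) : ℝ) ≤ 1 / L := by
    rw [hpow, hinv]
    calc 30 * Real.exp (L * (-(1 / 8))) ≤ Real.exp 4 * Real.exp (L * (-(1 / 8))) := by gcongr
      _ = Real.exp (4 + L * (-(1 / 8))) := by rw [Real.exp_add]
      _ ≤ Real.exp (-lam) := Real.exp_le_exp.mpr (by linarith)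
  have e5 : 1 * T ^ (-(15 : ℝ)) ≤ 1 / L := by
    rw [hpow, hinv, one_mul]
    exact Real.exp_le_exp.mpr (by linarith)
  have e4 : (4 : ℝ) ^ r ≤ T ^ (20 : ℝ) := by
    rw [hpow]
    have h5 : (4 : ℝ) ≤ Real.exp 2 := by
      have h6 : (2.7 : ℝ) ≤ Real.exp 1 := by
        have := Real.exp_one_gt_d9
        linarith
      have h7 : Real.exp 2 = Real.exp 1 ^ 2 := by rw [← Real.exp_nat_mul]; norm_num
      rw [h7]
      calc (4 : ℝ) ≤ 2.7 ^ 2 := by norm_num
        _ ≤ Real.exp 1 ^ 2 := by gcongr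
    calc (4 : ℝ) ^ r ≤ Real.exp 2 ^ r := by gcongr
      _ = Real.exp (r * 2) := by rw [← Real.exp_nat_mul]
      _ ≤ Real.exp (L * 20) := Real.exp_le_exp.mpr (by linarith)
  have hTd : T ^ d = L ^ 8 := by
    rw [hpow, hLd, hLe, ← Real.exp_nat_mul]
    congr 1
  have e2 : 2 ≤ T ^ d := by
    rw [hTd]
    calc (2 : ℝ) ≤ 1000 ^ 8 := by norm_num
      _ ≤ L ^ 8 := by gcongr
  have e3 : T * (1 - 1 / L) ≤ T - r * T ^ (1 - d) - T ^ (7 / 8 : ℝ) := by
    have g1 : T ^ (1 - d) = T * (1 / L ^ 8) := by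
      rw [Real.rpow_sub hT, Real.rpow_one, hTd]; ring
    have g2 : T ^ (7 / 8 : ℝ) = T * T ^ (-(1 / 8) : ℝ) := by
      nth_rw 2 [← Real.rpow_one T]
      rw [← Real.rpow_add hT]; norm_num
    have g3 : T ^ (-(1 / 8) : ℝ) ≤ 1 / L / 30 := by
      rw [le_div_iff₀ (by norm_num)]; linarith
    have g4 : r * (1 / L ^ 8) ≤ 1 / L / 30 := by
      have h5 : r * (1 / L ^ 8) ≤ 6 * L * (1 / L ^ 8) := by gcongr
      refine h5.trans ?_
      have h6 : 6 * L * (1 / L ^ 8) = 6 / L ^ 6 * (1 / L) := by field_simp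
      have h8 : (180 : ℝ) ≤ L ^ 6 := by
        calc (180 : ℝ) ≤ 1000 ^ 6 := by norm_num
          _ ≤ L ^ 6 := by gcongr
      have h7 : 6 / L ^ 6 ≤ 1 / 30 := by
        rw [div_le_div_iff₀ (by positivity) (by norm_num)]
        linarith
      rw [h6]
      calc 6 / L ^ 6 * (1 / L) ≤ 1 / 30 * (1 / L) := by gcongr
        _ = 1 / L / 30 := by ring
    rw [g1, g2]
    have g5 : T * (r * (1 / L ^ 8)) ≤ T * (1 / L / 30) := by gcongr
    have g6 : T * T ^ (-(1 / 8) : ℝ) ≤ T * (1 / L / 30) := by gcongr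
    have g7 : 0 ≤ T * (1 / L) := by positivity
    have g8 : r * (T * (1 / L ^ 8)) = T * (r * (1 / L ^ 8)) := by ring
    rw [g8]
    linarith
  have hmain := second_finite r hd0 hd1 hη0 (by linarith) hrd hT1 e2 e3 e4 e5 e6
  refine le_trans ?_ hmain
  rw [hL]
  have k1 : 1 - 8 * (1 / L) ≤ (1 - 1 / L) * (1 - 7 * (1 / L)) := by
    have : 0 ≤ (1 / L) ^ 2 := by positivity
    linarith only [this]
  have k2 : 1 - 3 * d - 8 * (1 / L) ≤ (1 - 3 * d) * (1 - 8 * (1 / L)) := by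
    have : 0 ≤ d * (1 / L) := by positivity
    linarith only [this]
  have k3 : 0 ≤ 1 - 3 * d := by linarith
  have k4 : L - 32 * lam ≤ L * (1 - 3 * d - 8 * (1 / L)) := by
    have : L * (1 - 3 * d - 8 * (1 / L)) = L - 3 * (L * d) - 8 := by field_simp
    rw [this, hLd]
    linarith
  calc T * (L - 32 * lam) ≤ T * (L * (1 - 3 * d - 8 * (1 / L))) := by gcongr
    _ ≤ T * (L * ((1 - 3 * d) * (1 - 8 * (1 / L)))) := by gcongr
    _ ≤ T * (L * ((1 - 3 * d) * ((1 - 1 / L) * (1 - 7 * (1 / L))))) := by gcongr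
    _ = T * (1 - 1 / L) * ((1 - 3 * d) * L) * (1 - 7 * (1 / L)) := by ring

/-- lower bound for the second moment, with a rate -/
theorem second_lower : ∃ C T0 : ℝ, 0 ≤ C ∧ 16 ≤ T0 ∧ ∀ T : ℝ, T0 ≤ T →
    T * (Real.log T - C * Real.log (Real.log T))
      ≤ ∫ t in (0 : ℝ)..T, ‖riemannZeta (1 / 2 + I * t)‖ ^ 2 := by
  have h1 : ∀ᶠ L : ℝ in atTop, 512 * Real.log L ≤ L := by
    have h := (Real.isLittleO_log_id_atTop).bound (c := 1 / 512) (by norm_num)
    filter_upwards [h, eventually_ge_atTop 1] with L hL hL1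
    have h3 : 0 ≤ Real.log L := Real.log_nonneg hL1
    rw [Real.norm_of_nonneg h3, id, Real.norm_of_nonneg (by linarith : (0 : ℝ) ≤ L)] at hL
    linarith
  have h2 : ∀ᶠ L : ℝ in atTop, 1 ≤ Real.log L := Real.tendsto_log_atTop.eventually_ge_atTop 1
  have h3 : ∀ᶠ T : ℝ in atTop, T * (Real.log T - 32 * Real.log (Real.log T))
      ≤ ∫ t in (0 : ℝ)..T, ‖riemannZeta (1 / 2 + I * t)‖ ^ 2 := by
    filter_upwards [Real.tendsto_log_atTop.eventually h1, Real.tendsto_log_atTop.eventually h2,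
      Real.tendsto_log_atTop.eventually (eventually_ge_atTop 1000), eventually_gt_atTop 0]
      with T a1 a2 a3 a4
    exact second_cond a4 rfl rfl a2 a3 a1
  obtain ⟨T0, hT0⟩ := eventually_atTop.1 h3
  exact ⟨32, max 16 T0, by norm_num, le_max_left _ _,
    fun T hT => hT0 T ((le_max_right _ _).trans hT)⟩

end Pool.Agent.Lib.MP_f9aece_nt_rt
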