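import Mathlib
import Pool.Agent.Lib.MP_f9aece_nt_h97.Total

/-!
R1 of the rate project: `Ker.total` with an explicit constant.  `Ker.B0`, `Ker.B2` are chosen
constants in `MP_f9aece_nt_h97`; here they are replaced by arbitrary bounds of the transform.
-/

set_option autoImplicit false

namespace Pool.Agent.Lib.MP_f9aece_nt_rt

open MeasureTheory Set Filter Topology Complex
open Pool.Agent.Lib.MP_f9aece_nt (DP pair BK K2 K2_nonneg K2_eq_inv_lcm)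
open Pool.Agent.Lib.MP_f9aece_nt_h97

/-- explicit sup bounds of the transform of a kernel -/
structure Bd (K : Ker) (B0 B2 : ℝ) : Prop where
  p0 : 0 < B0
  p2 : 0 < B2
  h0 : ∀ w, |K.G w| ≤ B0
  h2 : ∀ w, 0 < w → |K.G w| ≤ B2 / w ^ 2

/-- the constant of `Ker.total`, with explicit sup bounds `B0`, `B2` of the transform -/
noncomputable def CT (K : Ker) (B0 B2 : ℝ) : ℝ :=
  2 * (2 * K.m2 * |γE| + 2 * |K.c2| + K.m2) + 2 * (4 * K.m2 + K.m2 * |γE| + 2 * |K.c2|)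
    + 64 * (B0 ^ 2 + 2 * B0 * K.B1) + 16 * K.I1 + 8 * K.I2 + 22 * B2 ^ 2 + 6 * K.m2 + 13 * K.ml ^ 2

/-- constant in the oscillatory bound -/
noncomputable def CKx (K : Ker) (B0 : ℝ) : ℝ := B0 ^ 2 + 2 * B0 * K.B1

section

variable {K : Ker} {B0 B2 : ℝ}

lemma Bd.le2 (hBd : Bd K B0 B2) {w : ℝ} (hw : 0 < w) : |K.G w| ≤ B2 / w ^ 2 := hBd.h2 w hw

lemma Bd.CK_nonneg (hBd : Bd K B0 B2) : 0 ≤ CKx K B0 := by
  have := hBd.p0
  have := K.B1_nonneg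
  unfold CKx
  positivity

theorem Bd.osc (hBd : Bd K B0 B2) {c c' : ℝ} (hc : 0 < c) (hc' : 0 < c') {ω : ℝ} (hω : ω ≠ 0) (a : ℝ) :
    |∫ X in Ioi a, Real.cos (ω * X) * (K.G (c * X) * K.G (c' * X))| ≤ CKx K B0 / |ω| := by
  have hω0 : 0 < |ω| := abs_pos.mpr hω
  have hB0 := hBd.p0
  set A : ℝ → ℝ := fun X => K.G (c * X) * K.G (c' * X) with hA
  set A' : ℝ → ℝ := fun X => c * K.G' (c * X) * K.G (c' * X) + K.G (c * X) * (c' * K.G' (c' * X))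
    with hA'
  have hd : ∀ X, HasDerivAt A (A' X) X := by
    intro X
    have d1 : HasDerivAt (fun X => K.G (c * X)) (K.G' (c * X) * c) X := by
      have := (K.G_hasDerivAt (c * X)).comp X ((hasDerivAt_id X).const_mul c)
      rw [mul_one] at this
      exact this
    have d2 : HasDerivAt (fun X => K.G (c' * X)) (K.G' (c' * X) * c') X := by
      have := (K.G_hasDerivAt (c' * X)).comp X ((hasDerivAt_id X).const_mul c')
      rw [mul_one] at this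
      exact this
    refine (d1.mul d2).congr_deriv ?_
    rw [hA']
    simp only
    ring
  have hAi : Integrable A := K.int_prod hc
  have hA'bound : ∀ X, ‖A' X‖ ≤ B0 * (c * |K.G' (c * X)| + c' * |K.G' (c' * X)|) := by
    intro X
    rw [Real.norm_eq_abs, hA']
    simp only
    refine (abs_add_le _ _).trans ?_
    rw [abs_mul, abs_mul, abs_mul, abs_mul, abs_of_pos hc, abs_of_pos hc']
    have h1 := hBd.h0 (c' * X)
    have h2 := hBd.h0 (c * X)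
    calc c * |K.G' (c * X)| * |K.G (c' * X)| + |K.G (c * X)| * (c' * |K.G' (c' * X)|)
        ≤ c * |K.G' (c * X)| * B0 + B0 * (c' * |K.G' (c' * X)|) := by gcongr
      _ = _ := by ring
  obtain ⟨g1, g2⟩ := K.int_abs_G'_comp hc a
  obtain ⟨g3, g4⟩ := K.int_abs_G'_comp hc' a
  have hbi : Integrable (fun X => B0 * (c * |K.G' (c * X)| + c' * |K.G' (c' * X)|)) :=
    (g1.add g3).const_mul _
  have hA'c : Continuous A' := by
    have := K.G_cont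
    have := K.G'_cont
    rw [hA']
    fun_prop
  have hA'i : Integrable A' := Integrable.mono' hbi hA'c.aestronglyMeasurable
    (Eventually.of_forall hA'bound)
  -- primitive
  set F : ℝ → ℝ := fun X => Real.sin (ω * X) / ω * A X with hF
  have hFd : ∀ X ∈ Ici a, HasDerivAt F (Real.cos (ω * X) * A X + Real.sin (ω * X) / ω * A' X) X := by
    intro X _
    have d1 : HasDerivAt (fun X => Real.sin (ω * X) / ω) (Real.cos (ω * X)) X := by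
      have := ((Real.hasDerivAt_sin (ω * X)).comp X ((hasDerivAt_id X).const_mul ω)).div_const ω
      refine this.congr_deriv ?_
      simp only [mul_one]
      field_simp
    exact d1.mul (hd X)
  have i1 : Integrable (fun X => Real.cos (ω * X) * A X) := K.int_cos_prod hc ω
  have i2 : Integrable (fun X => Real.sin (ω * X) / ω * A' X) := by
    refine hA'i.bdd_mul (c := 1 / |ω|) ?_ (Eventually.of_forall fun X => ?_)
    · exact (by fun_prop : Continuous fun X : ℝ => Real.sin (ω * X) / ω).aestronglyMeasurable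
    · rw [Real.norm_eq_abs, abs_div]
      gcongr
      exact Real.abs_sin_le_one _
  have hAlim : Tendsto A atTop (𝓝 0) := by
    have h1 : Tendsto (fun X : ℝ => B0 * (B2 / (c * X) ^ 2)) atTop (𝓝 (B0 * 0)) := by
      refine Tendsto.const_mul _ (Tendsto.div_atTop tendsto_const_nhds ?_)
      exact (tendsto_pow_atTop (by norm_num)).comp (tendsto_id.const_mul_atTop hc)
    rw [mul_zero] at h1
    refine squeeze_zero_norm' ?_ h1
    filter_upwards [eventually_gt_atTop 0] with X hX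
    rw [hA]
    simp only
    rw [norm_mul, Real.norm_eq_abs, Real.norm_eq_abs, mul_comm]
    gcongr
    · exact hBd.h0 _
    · exact hBd.le2 (by positivity)
  have hFlim : Tendsto F atTop (𝓝 0) := by
    have h1 : Tendsto (fun X : ℝ => 1 / |ω| * ‖A X‖) atTop (𝓝 (1 / |ω| * 0)) :=
      Tendsto.const_mul _ (by simpa using hAlim.norm)
    rw [mul_zero] at h1
    refine squeeze_zero_norm (fun X => ?_) h1
    rw [hF]
    simp only
    rw [norm_mul, Real.norm_eq_abs, abs_div]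
    gcongr
    exact Real.abs_sin_le_one _
  have key := integral_Ioi_of_hasDerivAt_of_tendsto' hFd (i1.add i2).integrableOn hFlim
  have key2 : ∫ X in Ioi a, (Real.cos (ω * X) * A X + Real.sin (ω * X) / ω * A' X)
      = (∫ X in Ioi a, Real.cos (ω * X) * A X) + ∫ X in Ioi a, Real.sin (ω * X) / ω * A' X :=
    integral_add i1.integrableOn i2.integrableOn
  rw [key2, zero_sub] at key
  have b1 : |F a| ≤ B0 ^ 2 / |ω| := by
    rw [hF, hA]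
    simp only
    rw [abs_mul, abs_div, abs_mul]
    have h1 := hBd.h0 (c * a)
    have h2 := hBd.h0 (c' * a)
    calc |Real.sin (ω * a)| / |ω| * (|K.G (c * a)| * |K.G (c' * a)|)
        ≤ 1 / |ω| * (B0 * B0) := by
          gcongr
          exact Real.abs_sin_le_one _
      _ = _ := by ring
  have b2 : |∫ X in Ioi a, Real.sin (ω * X) / ω * A' X| ≤ 2 * B0 * K.B1 / |ω| := by
    have hb3 : Integrable (fun X => 1 / |ω| * (B0 * (c * |K.G' (c * X)| + c' * |K.G' (c' * X)|))) :=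
      hbi.const_mul _
    have h1 := norm_integral_le_of_norm_le (μ := volume.restrict (Ioi a)) hb3.integrableOn
      (f := fun X => Real.sin (ω * X) / ω * A' X) (Eventually.of_forall fun X => ?_)
    · rw [Real.norm_eq_abs] at h1
      refine h1.trans ?_
      rw [integral_const_mul, integral_const_mul, integral_add g1.integrableOn g3.integrableOn]
      calc 1 / |ω| * (B0 * ((∫ X in Ioi a, c * |K.G' (c * X)|) + ∫ X in Ioi a, c' * |K.G' (c' * X)|))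
          ≤ 1 / |ω| * (B0 * (K.B1 + K.B1)) := by gcongr
        _ = _ := by ring
    · rw [norm_mul, Real.norm_eq_abs, abs_div]
      gcongr
      · exact Real.abs_sin_le_one _
      · exact hA'bound X
  have e : ∫ X in Ioi a, Real.cos (ω * X) * A X
      = -F a - ∫ X in Ioi a, Real.sin (ω * X) / ω * A' X := by linarith
  rw [e]
  calc |-F a - ∫ X in Ioi a, Real.sin (ω * X) / ω * A' X|
      ≤ |F a| + |∫ X in Ioi a, Real.sin (ω * X) / ω * A' X| := by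
        refine (abs_sub _ _).trans ?_
        rw [abs_neg]
    _ ≤ B0 ^ 2 / |ω| + 2 * B0 * K.B1 / |ω| := by gcongr
    _ = CKx K B0 / |ω| := by rw [CKx]; ring

/-- product of two cosines against the kernel -/
lemma Bd.cos_cos (hBd : Bd K B0 B2) {c c' : ℝ} (hc : 0 < c) (hc' : 0 < c') {α β : ℝ} (hsum : α + β ≠ 0) (a : ℝ) :
    |(∫ X in Ioi a, (Real.cos (α * X) * K.G (c * X)) * (Real.cos (β * X) * K.G (c' * X)))
      - (if α = β then 1 / 2 * ∫ X in Ioi a, K.G (c * X) * K.G (c' * X) else 0)|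
      ≤ CKx K B0 / 2 * (1 / |α + β| + if α = β then 0 else 1 / |α - β|) := by
  have hCK := hBd.CK_nonneg
  have e1 : ∀ X : ℝ, (Real.cos (α * X) * K.G (c * X)) * (Real.cos (β * X) * K.G (c' * X))
      = 1 / 2 * (Real.cos ((α + β) * X) * (K.G (c * X) * K.G (c' * X)))
        + 1 / 2 * (Real.cos ((α - β) * X) * (K.G (c * X) * K.G (c' * X))) := by
    intro X
    have h1 : Real.cos ((α + β) * X) = Real.cos (α * X) * Real.cos (β * X)
        - Real.sin (α * X) * Real.sin (β * X) := by rw [add_mul, Real.cos_add]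
    have h2 : Real.cos ((α - β) * X) = Real.cos (α * X) * Real.cos (β * X)
        + Real.sin (α * X) * Real.sin (β * X) := by rw [sub_mul, Real.cos_sub]
    rw [h1, h2]
    ring
  simp_rw [e1]
  have j1 := (K.int_cos_prod hc (c' := c') (α + β)).const_mul (1 / 2)
  have j2 := (K.int_cos_prod hc (c' := c') (α - β)).const_mul (1 / 2)
  rw [integral_add j1.integrableOn j2.integrableOn, integral_const_mul, integral_const_mul]
  have o1 := hBd.osc hc hc' hsum a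
  by_cases h : α = β
  · rw [if_pos h, if_pos h]
    have e2 : ∀ X : ℝ, Real.cos ((α - β) * X) * (K.G (c * X) * K.G (c' * X))
        = K.G (c * X) * K.G (c' * X) := by
      intro X
      rw [h, sub_self, zero_mul, Real.cos_zero, one_mul]
    simp_rw [e2]
    rw [add_sub_cancel_right, abs_mul, abs_of_pos (by norm_num : (0 : ℝ) < 1 / 2), add_zero]
    calc 1 / 2 * |∫ X in Ioi a, Real.cos ((α + β) * X) * (K.G (c * X) * K.G (c' * X))|
        ≤ 1 / 2 * (CKx K B0 / |α + β|) := by gcongr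
      _ = _ := by ring
  · rw [if_neg h, if_neg h, sub_zero]
    have o2 := hBd.osc hc hc' (sub_ne_zero.mpr h) a
    calc |1 / 2 * (∫ X in Ioi a, Real.cos ((α + β) * X) * (K.G (c * X) * K.G (c' * X)))
          + 1 / 2 * ∫ X in Ioi a, Real.cos ((α - β) * X) * (K.G (c * X) * K.G (c' * X))|
        ≤ 1 / 2 * |∫ X in Ioi a, Real.cos ((α + β) * X) * (K.G (c * X) * K.G (c' * X))|
          + 1 / 2 * |∫ X in Ioi a, Real.cos ((α - β) * X) * (K.G (c * X) * K.G (c' * X))| := by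
          refine (abs_add_le _ _).trans ?_
          rw [abs_mul, abs_mul, abs_of_pos (by norm_num : (0 : ℝ) < 1 / 2)]
      _ ≤ 1 / 2 * (CKx K B0 / |α + β|) + 1 / 2 * (CKx K B0 / |α - β|) := by gcongr
      _ = _ := by ring

lemma summable_shift_sq (M : ℕ) : Summable (fun n : ℕ => 1 / ((n + M : ℕ) : ℝ) ^ 2) := by
  have h : Summable (fun n : ℕ => 1 / ((n : ℕ) : ℝ) ^ 2) :=
    Real.summable_one_div_nat_pow.mpr (by norm_num)
  exact (summable_nat_add_iff (f := fun n : ℕ => 1 / ((n : ℕ) : ℝ) ^ 2) M).mpr h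

lemma Bd.dual_tail (hBd : Bd K B0 B2) {c : ℝ} (hc : 0 < c) (x : ℝ) {M : ℕ} (hM : 1 ≤ M) :
    |K.dual c x - ∑ m ∈ Finset.range M,
      Real.cos (2 * Real.pi * ((m + 1 : ℕ) : ℝ) * x) * K.G (((m + 1 : ℕ) : ℝ) * c)|
      ≤ 2 * B2 / (c ^ 2 * M) := by
  have hB2 := hBd.p2
  have hs := K.summable_dual hc x
  have h1 := hs.sum_add_tsum_nat_add M
  unfold Ker.dual
  rw [← h1, add_sub_cancel_left]
  have hM0 : (0 : ℝ) < M := by exact_mod_cast hM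
  have hsum : Summable (fun n : ℕ => 1 / ((n + M : ℕ) : ℝ) ^ 2) := summable_shift_sq M
  have h2 : ∀ n : ℕ, ‖Real.cos (2 * Real.pi * ((n + M + 1 : ℕ) : ℝ) * x) * K.G (((n + M + 1 : ℕ) : ℝ) * c)‖
      ≤ B2 / c ^ 2 * (1 / ((n + M : ℕ) : ℝ) ^ 2) := by
    intro n
    rw [norm_mul, Real.norm_eq_abs, Real.norm_eq_abs]
    have h3 := hBd.le2 (w := ((n + M + 1 : ℕ) : ℝ) * c) (by positivity)
    have h4 : B2 / (((n + M + 1 : ℕ) : ℝ) * c) ^ 2 ≤ B2 / c ^ 2 * (1 / ((n + M : ℕ) : ℝ) ^ 2) := by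
      rw [mul_one_div, div_div, mul_pow, mul_comm (c ^ 2)]
      have h5 : (0 : ℝ) < ((n + M : ℕ) : ℝ) := by
        exact_mod_cast (by omega : 0 < n + M)
      have h6 : ((n + M : ℕ) : ℝ) ≤ ((n + M + 1 : ℕ) : ℝ) := by
        exact_mod_cast (by omega : n + M ≤ n + M + 1)
      gcongr
    calc |Real.cos (2 * Real.pi * ((n + M + 1 : ℕ) : ℝ) * x)| * |K.G (((n + M + 1 : ℕ) : ℝ) * c)|
        ≤ 1 * (B2 / (((n + M + 1 : ℕ) : ℝ) * c) ^ 2) := by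
          gcongr
          exact Real.abs_cos_le_one _
      _ ≤ _ := by rw [one_mul]; exact h4
  have h7 := tsum_of_norm_bounded (hsum.mul_left (B2 / c ^ 2)).hasSum h2
  rw [Real.norm_eq_abs] at h7
  refine h7.trans ?_
  rw [tsum_mul_left]
  have h8 := Pool.Agent.Lib.MP_f9aece_nt.tail_sum_sq M hM
  calc B2 / c ^ 2 * ∑' n : ℕ, 1 / ((n + M : ℕ) : ℝ) ^ 2 ≤ B2 / c ^ 2 * (2 / M) := by gcongr
    _ = _ := by field_simp

lemma Bd.PP_sub_PX (hBd : Bd K B0 B2) {T : ℝ} (hT : 0 < T) {D : DP} (hD : ∀ n, D.coeff n ≠ 0 → 1 ≤ n) {Ξ : ℕ}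
    (hΞ : 1 ≤ Ξ) {X : ℝ} (hX : 0 < X) :
    |K.PP T D X - K.PX T D Ξ X| ≤ 2 * B2 * T ^ 2 * nrm D / (Ξ * X ^ 2) := by
  have hΞ0 : (0 : ℝ) < Ξ := by exact_mod_cast hΞ
  unfold Ker.PP Ker.PX
  rw [Finset.sum_sigma, ← Finset.sum_sub_distrib]
  refine (Finset.abs_sum_le_sum_abs _ _).trans ?_
  have hterm : ∀ h ∈ D.coeff.support, |D.coeff h / h * K.dual (X / (h * T)) (X / h)
      - ∑ m ∈ Finset.range (Ξ * h), D.coeff h / h * K.tm T h m X|
      ≤ |D.coeff h| * (2 * B2 * T ^ 2 / (Ξ * X ^ 2)) := by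
    intro h hh
    have h1 : 1 ≤ h := hD h (Finsupp.mem_support_iff.mp hh)
    have h0 : (0 : ℝ) < h := by exact_mod_cast h1
    have hc : 0 < X / (h * T) := by positivity
    have h2 := hBd.dual_tail hc (X / h) (M := Ξ * h) (Nat.mul_pos hΞ h1)
    have e1 : ∀ m, K.tm T h m X
        = Real.cos (2 * Real.pi * ((m + 1 : ℕ) : ℝ) * (X / h)) * K.G (((m + 1 : ℕ) : ℝ) * (X / (h * T))) := by
      intro m
      unfold Ker.tm
      congr 2
      · ring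
      · field_simp
    simp_rw [e1]
    rw [← Finset.mul_sum, ← mul_sub, abs_mul, abs_div, abs_of_pos h0]
    calc |D.coeff h| / h * _ ≤ |D.coeff h| / h * (2 * B2 / ((X / (h * T)) ^ 2 * ((Ξ * h : ℕ) : ℝ))) := by
          gcongr
      _ = |D.coeff h| * (2 * B2 * T ^ 2 / (Ξ * X ^ 2)) := by
          push_cast
          field_simp
  refine (Finset.sum_le_sum hterm).trans (le_of_eq ?_)
  rw [← Finset.sum_mul, nrm]
  ring

/-- the quadratic mean of the truncated dual sum, off-diagonal terms estimated -/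
lemma Bd.PX_sq (hBd : Bd K B0 B2) {T : ℝ} (hT : 0 < T) {D : DP} {H : ℝ} (hD : ∀ n, D.coeff n ≠ 0 → 1 ≤ n ∧ (n : ℝ) ≤ H)
    (Ξ : ℕ) (a : ℝ) :
    IntegrableOn (fun X => K.PX T D Ξ X ^ 2) (Ioi a) ∧
    |(∫ X in Ioi a, K.PX T D Ξ X ^ 2) - ∑ h ∈ D.coeff.support, ∑ k ∈ D.coeff.support,
      D.coeff h / h * (D.coeff k / k) * ∑ p ∈ Finset.range (Ξ * h) ×ˢ Finset.range (Ξ * k),
      (if (p.1 + 1) * k = (p.2 + 1) * h then
        1 / 2 * ∫ X in Ioi a, K.G (((p.1 + 1 : ℕ) : ℝ) / h / T * X) ^ 2 else 0)|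
      ≤ CKx K B0 * (Ξ * H * nrm D) ^ 2 := by
  classical
  have hCK := hBd.CK_nonneg
  set I := D.coeff.support.sigma (fun h => Finset.range (Ξ * h)) with hI
  have hI1 : ∀ i ∈ I, 1 ≤ i.1 ∧ (i.1 : ℝ) ≤ H ∧ i.2 < Ξ * i.1 := by
    intro i hi
    rw [hI, Finset.mem_sigma, Finset.mem_range] at hi
    have := hD i.1 (Finsupp.mem_support_iff.mp hi.1)
    exact ⟨this.1, this.2, hi.2⟩
  have hsq : ∀ X, K.PX T D Ξ X ^ 2 = ∑ i ∈ I, ∑ j ∈ I, (D.coeff i.1 / i.1 * (D.coeff j.1 / j.1))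
      * (K.tm T i.1 i.2 X * K.tm T j.1 j.2 X) := by
    intro X
    rw [sq, Ker.PX, Finset.sum_mul_sum]
    exact Finset.sum_congr rfl fun i _ => Finset.sum_congr rfl fun j _ => by ring
  have hint : ∀ i ∈ I, ∀ j ∈ I, IntegrableOn (fun X => (D.coeff i.1 / i.1 * (D.coeff j.1 / j.1))
      * (K.tm T i.1 i.2 X * K.tm T j.1 j.2 X)) (Ioi a) := fun i hi j _ =>
    ((K.tm_int hT (hI1 i hi).1).const_mul _).integrableOn
  have hintS : IntegrableOn (fun X => K.PX T D Ξ X ^ 2) (Ioi a) := by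
    simp_rw [hsq]
    exact integrable_finsetSum _ fun i hi => integrable_finsetSum _ fun j hj => hint i hi j hj
  refine ⟨hintS, ?_⟩
  have e1 : ∫ X in Ioi a, K.PX T D Ξ X ^ 2 = ∑ i ∈ I, ∑ j ∈ I,
      (D.coeff i.1 / i.1 * (D.coeff j.1 / j.1)) * ∫ X in Ioi a, K.tm T i.1 i.2 X * K.tm T j.1 j.2 X := by
    simp_rw [hsq]
    rw [integral_finsetSum _ fun i hi => integrable_finsetSum _ fun j hj => hint i hi j hj]
    refine Finset.sum_congr rfl fun i hi => ?_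
    rw [integral_finsetSum _ fun j hj => hint i hi j hj]
    exact Finset.sum_congr rfl fun j _ => integral_const_mul _ _
  have e2 : ∑ h ∈ D.coeff.support, ∑ k ∈ D.coeff.support,
      D.coeff h / h * (D.coeff k / k) * ∑ p ∈ Finset.range (Ξ * h) ×ˢ Finset.range (Ξ * k),
      (if (p.1 + 1) * k = (p.2 + 1) * h then
        1 / 2 * ∫ X in Ioi a, K.G (((p.1 + 1 : ℕ) : ℝ) / h / T * X) ^ 2 else 0)
      = ∑ i ∈ I, ∑ j ∈ I, (D.coeff i.1 / i.1 * (D.coeff j.1 / j.1)) *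
        (if (i.2 + 1) * j.1 = (j.2 + 1) * i.1 then
          1 / 2 * ∫ X in Ioi a, K.G (((i.2 + 1 : ℕ) : ℝ) / i.1 / T * X) ^ 2 else 0) := by
    rw [hI, Finset.sum_sigma]
    refine Finset.sum_congr rfl fun h _ => ?_
    simp_rw [Finset.sum_sigma]
    rw [Finset.sum_comm]
    refine Finset.sum_congr rfl fun k _ => ?_
    rw [Finset.mul_sum, Finset.sum_product]
  rw [e1, e2, ← Finset.sum_sub_distrib]
  simp_rw [← Finset.sum_sub_distrib, ← mul_sub]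
  have hterm : ∀ i ∈ I, ∀ j ∈ I, |(D.coeff i.1 / i.1 * (D.coeff j.1 / j.1)) *
      ((∫ X in Ioi a, K.tm T i.1 i.2 X * K.tm T j.1 j.2 X)
        - (if (i.2 + 1) * j.1 = (j.2 + 1) * i.1 then
          1 / 2 * ∫ X in Ioi a, K.G (((i.2 + 1 : ℕ) : ℝ) / i.1 / T * X) ^ 2 else 0))|
      ≤ CKx K B0 * (|D.coeff i.1| * |D.coeff j.1|) := by
    intro i hi j hj
    obtain ⟨hi1, hi2, hi3⟩ := hI1 i hi
    obtain ⟨hj1, hj2, hj3⟩ := hI1 j hj
    have hi0 : (0 : ℝ) < i.1 := by exact_mod_cast hi1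
    have hj0 : (0 : ℝ) < j.1 := by exact_mod_cast hj1
    set α : ℝ := 2 * Real.pi * (((i.2 + 1 : ℕ) : ℝ) / i.1) with hα
    set β : ℝ := 2 * Real.pi * (((j.2 + 1 : ℕ) : ℝ) / j.1) with hβ
    have hc : 0 < ((i.2 + 1 : ℕ) : ℝ) / i.1 / T := by positivity
    have hc' : 0 < ((j.2 + 1 : ℕ) : ℝ) / j.1 / T := by positivity
    have hα0 : 0 < α := by positivity
    have hβ0 : 0 < β := by positivity
    have hpi : 1 ≤ 2 * Real.pi := by linarith [Real.pi_gt_three]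
    have hαβ : α = β ↔ (i.2 + 1) * j.1 = (j.2 + 1) * i.1 := by
      rw [hα, hβ]
      constructor
      · intro h
        have h2 := mul_left_cancel₀ (by positivity : (2 * Real.pi) ≠ 0) h
        rw [div_eq_div_iff hi0.ne' hj0.ne'] at h2
        exact_mod_cast h2
      · intro h
        congr 1
        rw [div_eq_div_iff hi0.ne' hj0.ne']
        exact_mod_cast h
    have hcc := hBd.cos_cos hc hc' (α := α) (β := β) (by positivity) a
    have hI2 : (if α = β then 1 / 2 * ∫ X in Ioi a, K.G (((i.2 + 1 : ℕ) : ℝ) / i.1 / T * X)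
        * K.G (((j.2 + 1 : ℕ) : ℝ) / j.1 / T * X) else 0)
        = (if (i.2 + 1) * j.1 = (j.2 + 1) * i.1 then
          1 / 2 * ∫ X in Ioi a, K.G (((i.2 + 1 : ℕ) : ℝ) / i.1 / T * X) ^ 2 else 0) := by
      by_cases h : α = β
      · rw [if_pos h, if_pos (hαβ.mp h)]
        have h2 : ((i.2 + 1 : ℕ) : ℝ) / i.1 = ((j.2 + 1 : ℕ) : ℝ) / j.1 :=
          mul_left_cancel₀ (by positivity : (2 * Real.pi) ≠ 0) h
        rw [← h2]
        simp_rw [sq]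
      · rw [if_neg h, if_neg fun h' => h (hαβ.mpr h')]
    rw [hI2] at hcc
    have hb1 : 1 / |α + β| ≤ i.1 * j.1 := by
      rw [abs_of_pos (by positivity), div_le_iff₀ (by positivity)]
      have h2 : 1 / (i.1 : ℝ) ≤ α := by
        rw [hα, ← mul_div_assoc]
        apply div_le_div_of_nonneg_right _ hi0.le
        have : (1 : ℝ) ≤ ((i.2 + 1 : ℕ) : ℝ) := by exact_mod_cast Nat.succ_le_succ (Nat.zero_le i.2)
        exact one_le_mul_of_one_le_of_one_le hpi this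
      have h3 : (1 : ℝ) ≤ j.1 := by exact_mod_cast hj1
      have h4 : 1 ≤ (i.1 : ℝ) * α := by
        rw [div_le_iff₀ hi0] at h2
        linarith
      calc (1 : ℝ) ≤ ((i.1 : ℝ) * α) * j.1 := one_le_mul_of_one_le_of_one_le h4 h3
        _ ≤ ((i.1 : ℝ) * α) * j.1 + (i.1 : ℝ) * j.1 * β :=
            le_add_of_nonneg_right (mul_pos (mul_pos hi0 hj0) hβ0).le
        _ = _ := by ring
    have hb2 : (if α = β then 0 else 1 / |α - β|) ≤ (i.1 : ℝ) * j.1 := by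
      by_cases h : α = β
      · rw [if_pos h]; positivity
      · rw [if_neg h]
        have hpos : 0 < |α - β| := abs_pos.mpr (sub_ne_zero.mpr h)
        rw [div_le_iff₀ hpos]
        have h2 : ¬ (i.2 + 1) * j.1 = (j.2 + 1) * i.1 := fun h' => h (hαβ.mpr h')
        have h3 : α - β = 2 * Real.pi * ((((i.2 + 1) * j.1 : ℕ) : ℝ) - (((j.2 + 1) * i.1 : ℕ) : ℝ))
            / (i.1 * j.1) := by
          rw [hα, hβ]
          push_cast
          field_simp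
        have h4 : (1 : ℝ) ≤ |(((i.2 + 1) * j.1 : ℕ) : ℝ) - (((j.2 + 1) * i.1 : ℕ) : ℝ)| := by
          have : (1 : ℤ) ≤ |(((i.2 + 1) * j.1 : ℕ) : ℤ) - (((j.2 + 1) * i.1 : ℕ) : ℤ)| :=
            Int.one_le_abs (sub_ne_zero.mpr (by exact_mod_cast h2))
          exact_mod_cast this
        rw [h3, abs_div, abs_mul, abs_of_pos (by positivity : (0 : ℝ) < 2 * Real.pi),
          abs_of_pos (by positivity : (0 : ℝ) < i.1 * j.1)]
        rw [mul_div_cancel₀ _ (by positivity : (i.1 : ℝ) * j.1 ≠ 0)]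
        exact one_le_mul_of_one_le_of_one_le hpi h4
    have hb3 : CKx K B0 / 2 * (1 / |α + β| + if α = β then 0 else 1 / |α - β|) ≤ CKx K B0 * (i.1 * j.1) := by
      calc CKx K B0 / 2 * (1 / |α + β| + if α = β then 0 else 1 / |α - β|)
          ≤ CKx K B0 / 2 * (i.1 * j.1 + i.1 * j.1) := by gcongr
        _ = _ := by ring
    rw [abs_mul, abs_mul, abs_div, abs_div, abs_of_pos hi0, abs_of_pos hj0]
    have hcc' := hcc.trans hb3
    calc |D.coeff i.1| / i.1 * (|D.coeff j.1| / j.1) * _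
        ≤ |D.coeff i.1| / i.1 * (|D.coeff j.1| / j.1) * (CKx K B0 * (i.1 * j.1)) := by
          refine mul_le_mul_of_nonneg_left ?_ (by positivity)
          exact hcc'
      _ = _ := by field_simp
  refine (Finset.abs_sum_le_sum_abs _ _).trans ((Finset.sum_le_sum fun i hi =>
    (Finset.abs_sum_le_sum_abs _ _).trans (Finset.sum_le_sum fun j hj => hterm i hi j hj)).trans ?_)
  have e3 : ∑ i ∈ I, ∑ j ∈ I, CKx K B0 * (|D.coeff i.1| * |D.coeff j.1|)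
      = CKx K B0 * (∑ i ∈ I, |D.coeff i.1|) ^ 2 := by
    rw [sq, Finset.sum_mul_sum, Finset.mul_sum]
    exact Finset.sum_congr rfl fun i _ => by rw [Finset.mul_sum]
  rw [e3]
  have e4 : ∑ i ∈ I, |D.coeff i.1| ≤ Ξ * H * nrm D := by
    rw [hI, Finset.sum_sigma]
    calc ∑ h ∈ D.coeff.support, ∑ _m ∈ Finset.range (Ξ * h), |D.coeff h|
        = ∑ h ∈ D.coeff.support, (Ξ * h : ℝ) * |D.coeff h| := by
          refine Finset.sum_congr rfl fun h _ => ?_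
          rw [Finset.sum_const, Finset.card_range, nsmul_eq_mul]
          push_cast
          ring
      _ ≤ ∑ h ∈ D.coeff.support, (Ξ * H) * |D.coeff h| := by
          refine Finset.sum_le_sum fun h hh => ?_
          have := (hD h (Finsupp.mem_support_iff.mp hh)).2
          gcongr
      _ = _ := by rw [← Finset.mul_sum, nrm]
  have e5 : 0 ≤ ∑ i ∈ I, |D.coeff i.1| := Finset.sum_nonneg fun _ _ => abs_nonneg _
  gcongr

/-- first error of the dual part -/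
noncomputable def Ed1 (K : Ker) (B0 : ℝ) (T x0 H : ℝ) (Ξ : ℕ) (D : DP) : ℝ :=
  4 / T ^ 2 * (CKx K B0 * (Ξ * H * nrm D) ^ 2)
    + 2 / T * (nrm D ^ 2 * (2 * (1 / (T * x0)) ^ (1 / 2 : ℝ) * K.I1 + T * x0 / Ξ * K.I2))

/-- second error of the dual part -/
noncomputable def Ed2 (B2 : ℝ) (T x0 : ℝ) (Ξ : ℕ) (D : DP) : ℝ :=
  16 / 3 * B2 ^ 2 * T ^ 2 * x0 ^ 3 * nrm D ^ 2 / Ξ ^ 2

theorem Bd.dual_bound (hBd : Bd K B0 B2) {T : ℝ} (hT : 2 * K.L ≤ T) {D : DP} {H : ℝ}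
    (hD : ∀ n, D.coeff n ≠ 0 → 1 ≤ n ∧ (n : ℝ) ≤ H) {x0 : ℝ} (hx0 : 0 < x0) {Ξ : ℕ} (hΞ : 1 ≤ Ξ)
    {δ : ℝ} (hδ : 0 < δ) :
    ∫ x in Ioo 0 x0, QQ (K.phi T) D x ^ 2
      ≤ (1 + δ) * (K.Md T x0 D + Ed1 K B0 T x0 H Ξ D) + (1 + 1 / δ) * Ed2 B2 T x0 Ξ D := by
  have hL := K.hL
  have hT0 : 0 < T := by linarith
  have hD1 : ∀ n, D.coeff n ≠ 0 → 1 ≤ n := fun n hn => (hD n hn).1
  have hΞ0 : (0 : ℝ) < Ξ := by exact_mod_cast hΞ
  have hB2 := hBd.p2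
  have ha : 0 < x0⁻¹ := by positivity
  rw [Ker.integral_inv_sq _ hx0]
  obtain ⟨i1, s1⟩ := hBd.PX_sq hT0 hD Ξ x0⁻¹
  have s2 := K.diag_eval hT0 ha hD1 hΞ
  set A := ∫ X in Ioi x0⁻¹, K.PX T D Ξ X ^ 2 with hA
  -- bound for A
  have hA1 : 4 / T ^ 2 * A ≤ K.Md T x0 D + Ed1 K B0 T x0 H Ξ D := by
    have h1 := le_of_abs_le s1
    have h2 := le_of_abs_le s2
    have e1 : T / x0⁻¹ = T * x0 := by rw [div_inv_eq_mul]
    have e2 : x0⁻¹ / T = 1 / (T * x0) := by field_simp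
    have e3 : T / (Ξ * x0⁻¹) = T * x0 / Ξ := by field_simp
    rw [e1, e2, e3] at h2
    have h3 : A ≤ T / 2 * (K.m2 / 2 * ((Real.log (T * x0) + γE) * BK K2 D D + BK Kg D D)
        + K.c2 * BK K2 D D)
        + T / 2 * (nrm D ^ 2 * (2 * (1 / (T * x0)) ^ (1 / 2 : ℝ) * K.I1 + T * x0 / Ξ * K.I2))
        + CKx K B0 * (Ξ * H * nrm D) ^ 2 := by linarith
    have h4 : 4 / T ^ 2 * A ≤ 4 / T ^ 2 * (T / 2 * (K.m2 / 2 * ((Real.log (T * x0) + γE) * BK K2 D D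
        + BK Kg D D) + K.c2 * BK K2 D D)
        + T / 2 * (nrm D ^ 2 * (2 * (1 / (T * x0)) ^ (1 / 2 : ℝ) * K.I1 + T * x0 / Ξ * K.I2))
        + CKx K B0 * (Ξ * H * nrm D) ^ 2) := by gcongr
    refine h4.trans (le_of_eq ?_)
    unfold Ker.Md Ed1
    field_simp
    ring
  -- pointwise bound
  set R : ℝ := 2 * B2 * T ^ 2 * nrm D / Ξ with hR
  have hpt : ∀ X ∈ Ioi x0⁻¹, X ^ (-2 : ℝ) * QQ (K.phi T) D X⁻¹ ^ 2
      ≤ (1 + δ) * (4 / T ^ 2 * K.PX T D Ξ X ^ 2)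
        + (1 + 1 / δ) * (4 / T ^ 2 * (R ^ 2 * X ^ (-4 : ℝ))) := by
    intro X hX
    have hX0 : (0 : ℝ) < X := lt_trans ha hX
    rw [K.QQ_dual hT hD1 hX0]
    have e1 : X ^ (-2 : ℝ) = 1 / X ^ 2 := by
      rw [Real.rpow_neg hX0.le, one_div]; norm_num
    have e2 : X ^ (-4 : ℝ) = 1 / X ^ 4 := by
      rw [Real.rpow_neg hX0.le, one_div]
      congr 1
      have : (4 : ℝ) = ((4 : ℕ) : ℝ) := by norm_num
      rw [this, Real.rpow_natCast]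
    rw [e1, e2]
    have h1 := hBd.PP_sub_PX hT0 hD1 hΞ hX0
    set r := K.PP T D X - K.PX T D Ξ X with hr
    have h2 : K.PP T D X = K.PX T D Ξ X + r := by rw [hr]; ring
    have h3 : r ^ 2 ≤ R ^ 2 * (1 / X ^ 4) := by
      have h4 : |r| ≤ R * (1 / X ^ 2) := by
        refine h1.trans (le_of_eq ?_)
        rw [hR]
        field_simp
      calc r ^ 2 = |r| ^ 2 := (sq_abs r).symm
        _ ≤ (R * (1 / X ^ 2)) ^ 2 := by gcongr
        _ = _ := by ring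
    have h5 : K.PP T D X ^ 2 ≤ (1 + δ) * K.PX T D Ξ X ^ 2 + (1 + 1 / δ) * r ^ 2 := by
      rw [h2]
      have h6 : 0 ≤ (δ * K.PX T D Ξ X - r) ^ 2 / δ := by positivity
      have h7 : (δ * K.PX T D Ξ X - r) ^ 2 / δ
          = δ * K.PX T D Ξ X ^ 2 - 2 * (K.PX T D Ξ X * r) + 1 / δ * r ^ 2 := by
        field_simp
        ring
      rw [h7] at h6
      have h8 : (K.PX T D Ξ X + r) ^ 2 = K.PX T D Ξ X ^ 2 + 2 * (K.PX T D Ξ X * r) + r ^ 2 := by ring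
      rw [h8, add_mul, add_mul, one_mul, one_mul]
      linarith only [h6]
    have e3 : 1 / X ^ 2 * (2 * X / T * K.PP T D X) ^ 2 = 4 / T ^ 2 * K.PP T D X ^ 2 := by
      field_simp
      ring
    rw [e3]
    calc 4 / T ^ 2 * K.PP T D X ^ 2
        ≤ 4 / T ^ 2 * ((1 + δ) * K.PX T D Ξ X ^ 2 + (1 + 1 / δ) * (R ^ 2 * (1 / X ^ 4))) := by
          gcongr
          refine h5.trans ?_
          gcongr
      _ = _ := by ring
  have i2 : IntegrableOn (fun X : ℝ => X ^ (-4 : ℝ)) (Ioi x0⁻¹) :=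
    integrableOn_Ioi_rpow_of_lt (by norm_num) ha
  have c4 : ∫ X in Ioi x0⁻¹, X ^ (-4 : ℝ) = x0 ^ 3 / 3 := by
    rw [integral_Ioi_rpow_of_lt (by norm_num) ha]
    have e1 : (x0⁻¹) ^ ((-4 : ℝ) + 1) = x0 ^ 3 := by
      rw [Real.inv_rpow hx0.le, ← Real.rpow_neg hx0.le]
      have : -((-4 : ℝ) + 1) = ((3 : ℕ) : ℝ) := by norm_num
      rw [this, Real.rpow_natCast]
    rw [e1]
    norm_num
  have j1 : Integrable (fun X => (1 + δ) * (4 / T ^ 2 * K.PX T D Ξ X ^ 2)) (volume.restrict (Ioi x0⁻¹)) :=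
    (Integrable.const_mul i1 _).const_mul _
  have j2 : Integrable (fun X : ℝ => (1 + 1 / δ) * (4 / T ^ 2 * (R ^ 2 * X ^ (-4 : ℝ))))
      (volume.restrict (Ioi x0⁻¹)) := (((Integrable.const_mul i2 _).const_mul _).const_mul _)
  have j12 : Integrable (fun X : ℝ => (1 + δ) * (4 / T ^ 2 * K.PX T D Ξ X ^ 2)
        + (1 + 1 / δ) * (4 / T ^ 2 * (R ^ 2 * X ^ (-4 : ℝ)))) (volume.restrict (Ioi x0⁻¹)) := j1.add j2
  have hf0 : 0 ≤ᵐ[volume.restrict (Ioi x0⁻¹)]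
      fun X : ℝ => X ^ (-2 : ℝ) * QQ (K.phi T) D X⁻¹ ^ 2 := by
    filter_upwards [ae_restrict_mem measurableSet_Ioi] with X hX
    exact mul_nonneg (Real.rpow_nonneg (lt_trans ha hX).le _) (sq_nonneg _)
  have hfg : (fun X : ℝ => X ^ (-2 : ℝ) * QQ (K.phi T) D X⁻¹ ^ 2)
      ≤ᵐ[volume.restrict (Ioi x0⁻¹)] fun X : ℝ => (1 + δ) * (4 / T ^ 2 * K.PX T D Ξ X ^ 2)
        + (1 + 1 / δ) * (4 / T ^ 2 * (R ^ 2 * X ^ (-4 : ℝ))) := by
    filter_upwards [ae_restrict_mem measurableSet_Ioi] with X hX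
    exact hpt X hX
  refine (integral_mono_of_nonneg hf0 j12 hfg).trans ?_
  rw [integral_add j1 j2, integral_const_mul, integral_const_mul, integral_const_mul,
    integral_const_mul, integral_const_mul, c4]
  have e4 : 4 / T ^ 2 * (R ^ 2 * (x0 ^ 3 / 3)) = Ed2 B2 T x0 Ξ D := by
    unfold Ed2
    rw [hR]
    field_simp
    try ring
  rw [e4]
  exact add_le_add (mul_le_mul_of_nonneg_left hA1 (add_pos one_pos hδ).le) le_rfl

section pieces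

lemma te_Md {m2 γ c2 τ N S Sg l : ℝ} (hm2 : 0 ≤ m2) (hτ : 1 ≤ τ) (hl0 : 0 ≤ l) (hl1 : l ≤ τ)
    (hSN : |S| ≤ N ^ 2) (hSgN : |Sg| ≤ N ^ 2) :
    |m2 * ((2 * l + γ) * S + Sg) + 2 * c2 * S| ≤ (4 * m2 + m2 * |γ| + 2 * |c2|) * τ * N ^ 2 := by
  have hN2 : 0 ≤ N ^ 2 := sq_nonneg N
  have t1 : |(2 * l + γ) * S| ≤ (2 * τ + |γ|) * N ^ 2 := by
    rw [abs_mul]
    have : |2 * l + γ| ≤ 2 * τ + |γ| := by
      refine (abs_add_le _ _).trans ?_
      rw [abs_of_nonneg (mul_nonneg two_pos.le hl0)]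
      linarith only [hl1]
    exact mul_le_mul this hSN (abs_nonneg _) ((abs_nonneg _).trans this)
  have t2 : |2 * c2 * S| ≤ 2 * |c2| * N ^ 2 := by
    rw [abs_mul, abs_mul, abs_two]
    exact mul_le_mul_of_nonneg_left hSN (mul_nonneg two_pos.le (abs_nonneg _))
  calc |m2 * ((2 * l + γ) * S + Sg) + 2 * c2 * S|
      ≤ m2 * ((2 * τ + |γ|) * N ^ 2 + N ^ 2) + 2 * |c2| * N ^ 2 := by
        refine (abs_add_le _ _).trans (add_le_add ?_ t2)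
        rw [abs_mul, abs_of_nonneg hm2]
        exact mul_le_mul_of_nonneg_left ((abs_add_le _ _).trans (add_le_add t1 hSgN)) hm2
    _ ≤ (4 * m2 + m2 * |γ| + 2 * |c2|) * τ * N ^ 2 := by
        have g1 : |γ| ≤ |γ| * τ := le_mul_of_one_le_right (abs_nonneg _) hτ
        have g2 : |c2| ≤ |c2| * τ := le_mul_of_one_le_right (abs_nonneg _) hτ
        have g3 : m2 * ((2 * τ + |γ|) + 1) ≤ m2 * ((2 * τ + |γ| * τ) + 2 * τ) :=
          mul_le_mul_of_nonneg_left (by linarith only [g1, hτ]) hm2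
        have g4 : m2 * ((2 * τ + |γ|) + 1) + 2 * |c2|
            ≤ m2 * ((2 * τ + |γ| * τ) + 2 * τ) + 2 * (|c2| * τ) := by linarith only [g3, g2]
        calc m2 * ((2 * τ + |γ|) * N ^ 2 + N ^ 2) + 2 * |c2| * N ^ 2
            = (m2 * ((2 * τ + |γ|) + 1) + 2 * |c2|) * N ^ 2 := by ring
          _ ≤ (m2 * ((2 * τ + |γ| * τ) + 2 * τ) + 2 * (|c2| * τ)) * N ^ 2 :=
              mul_le_mul_of_nonneg_right g4 hN2
          _ = _ := by ring

lemma te_dMd {c τ N H M : ℝ} (hc : 0 ≤ c) (hτ0 : 0 < τ) (hNH : N ^ 2 ≤ (N * H) ^ 2)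
    (hM : |M| ≤ 1 / τ ^ 16 * (c * τ * N ^ 2)) :
    (τ ^ 2)⁻¹ * M ≤ c * (N * H) ^ 2 / τ ^ 17 := by
  have h0 : 0 ≤ (τ ^ 2)⁻¹ := (inv_pos.mpr (pow_pos hτ0 2)).le
  calc (τ ^ 2)⁻¹ * M ≤ (τ ^ 2)⁻¹ * (1 / τ ^ 16 * (c * τ * N ^ 2)) :=
        mul_le_mul_of_nonneg_left ((le_abs_self _).trans hM) h0
    _ = c * N ^ 2 / τ ^ 17 := by field_simp
    _ ≤ _ := div_le_div_of_nonneg_right (mul_le_mul_of_nonneg_left hNH hc) (pow_pos hτ0 17).le

lemma te_E1 {CK I1 I2 N H τ Ξ : ℝ} (hCK : 0 ≤ CK) (hI1 : 0 ≤ I1) (hI2 : 0 ≤ I2) (hτ : 1 ≤ τ)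
    (hN : 0 ≤ N) (hH : 1 ≤ H) (hΞ0 : 0 < Ξ) (hΞ2 : τ ^ 6 ≤ Ξ) (hΞ3 : Ξ ≤ 2 * τ ^ 6) :
    4 / (τ ^ 16) ^ 2 * (CK * (Ξ * H * N) ^ 2)
      + 2 / τ ^ 16 * (N ^ 2 * (2 * (1 / τ) * I1 + τ ^ 2 / Ξ * I2))
      ≤ (16 * CK + 4 * I1 + 2 * I2) * (N * H) ^ 2 / τ ^ 17 := by
  have hτ0 : 0 < τ := lt_of_lt_of_le one_pos hτ
  have hH0 : 0 ≤ H := zero_le_one.trans hH
  have hNH0 : 0 ≤ N * H := mul_nonneg hN hH0
  have hNH : N ^ 2 ≤ (N * H) ^ 2 := pow_le_pow_left₀ hN (le_mul_of_one_le_right hN hH) 2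
  have a1 : 4 / (τ ^ 16) ^ 2 * (CK * (Ξ * H * N) ^ 2) ≤ 16 * CK * (N * H) ^ 2 / τ ^ 17 := by
    have b1 : Ξ * H * N ≤ 2 * τ ^ 6 * (N * H) := by
      calc Ξ * H * N = Ξ * (N * H) := by ring
        _ ≤ _ := mul_le_mul_of_nonneg_right hΞ3 hNH0
    have b2 : 0 ≤ Ξ * H * N := mul_nonneg (mul_nonneg hΞ0.le hH0) hN
    calc 4 / (τ ^ 16) ^ 2 * (CK * (Ξ * H * N) ^ 2)
        ≤ 4 / (τ ^ 16) ^ 2 * (CK * (2 * τ ^ 6 * (N * H)) ^ 2) :=
          mul_le_mul_of_nonneg_left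
            (mul_le_mul_of_nonneg_left (pow_le_pow_left₀ b2 b1 2) hCK) (by positivity)
      _ = 16 * CK * (N * H) ^ 2 / τ ^ 20 := by
          field_simp; ring
      _ ≤ _ := div_le_div_of_nonneg_left (by positivity) (pow_pos hτ0 17)
            (pow_le_pow_right₀ hτ (by norm_num))
  have a2 : 2 / τ ^ 16 * (N ^ 2 * (2 * (1 / τ) * I1 + τ ^ 2 / Ξ * I2))
      ≤ (4 * I1 + 2 * I2) * (N * H) ^ 2 / τ ^ 17 := by
    have b1 : τ ^ 2 / Ξ ≤ 1 / τ := by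
      rw [div_le_div_iff₀ hΞ0 hτ0]
      calc τ ^ 2 * τ = τ ^ 3 := by ring
        _ ≤ τ ^ 6 := pow_le_pow_right₀ hτ (by norm_num)
        _ ≤ 1 * Ξ := by rw [one_mul]; exact hΞ2
    calc 2 / τ ^ 16 * (N ^ 2 * (2 * (1 / τ) * I1 + τ ^ 2 / Ξ * I2))
        ≤ 2 / τ ^ 16 * (N ^ 2 * (2 * (1 / τ) * I1 + 1 / τ * I2)) :=
          mul_le_mul_of_nonneg_left (mul_le_mul_of_nonneg_left
            (add_le_add le_rfl (mul_le_mul_of_nonneg_right b1 hI2)) (sq_nonneg N))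
            (by positivity)
      _ = (4 * I1 + 2 * I2) * N ^ 2 / τ ^ 17 := by
          field_simp; ring
      _ ≤ _ := div_le_div_of_nonneg_right (mul_le_mul_of_nonneg_left hNH (by positivity))
            (pow_pos hτ0 17).le
  calc _ ≤ 16 * CK * (N * H) ^ 2 / τ ^ 17 + (4 * I1 + 2 * I2) * (N * H) ^ 2 / τ ^ 17 :=
        add_le_add a1 a2
    _ = _ := by ring

lemma te_E2 {B2 N H τ Ξ : ℝ} (hτ : 1 ≤ τ) (hNH : N ^ 2 ≤ (N * H) ^ 2) (hΞ2 : τ ^ 6 ≤ Ξ) :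
    (1 + 1 / (τ ^ 2)⁻¹) * (16 / 3 * B2 ^ 2 * (τ ^ 16) ^ 2 * ((τ ^ 14)⁻¹) ^ 3 * N ^ 2 / Ξ ^ 2)
      ≤ 22 * B2 ^ 2 * (N * H) ^ 2 / τ ^ 17 := by
  have hτ0 : 0 < τ := lt_of_lt_of_le one_pos hτ
  have b1 : 1 + 1 / (τ ^ 2)⁻¹ ≤ 2 * τ ^ 2 := by
    rw [one_div, inv_inv]
    have : (1 : ℝ) ≤ τ ^ 2 := one_le_pow₀ hτ
    linarith only [this]
  have b2 : 16 / 3 * B2 ^ 2 * (τ ^ 16) ^ 2 * ((τ ^ 14)⁻¹) ^ 3 * N ^ 2 / Ξ ^ 2
      ≤ 16 / 3 * B2 ^ 2 * (τ ^ 16) ^ 2 * ((τ ^ 14)⁻¹) ^ 3 * N ^ 2 / (τ ^ 6) ^ 2 :=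
    div_le_div_of_nonneg_left (by positivity) (by positivity)
      (pow_le_pow_left₀ (pow_pos hτ0 6).le hΞ2 2)
  have b3 : 0 ≤ 16 / 3 * B2 ^ 2 * (τ ^ 16) ^ 2 * ((τ ^ 14)⁻¹) ^ 3 * N ^ 2 / Ξ ^ 2 := by positivity
  calc (1 + 1 / (τ ^ 2)⁻¹) * (16 / 3 * B2 ^ 2 * (τ ^ 16) ^ 2 * ((τ ^ 14)⁻¹) ^ 3 * N ^ 2 / Ξ ^ 2)
      ≤ 2 * τ ^ 2 * (16 / 3 * B2 ^ 2 * (τ ^ 16) ^ 2 * ((τ ^ 14)⁻¹) ^ 3 * N ^ 2 / (τ ^ 6) ^ 2) :=
        mul_le_mul b1 b2 b3 (by positivity)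
    _ = 32 / 3 * B2 ^ 2 * N ^ 2 / τ ^ 20 := by
        field_simp; ring
    _ ≤ 22 * B2 ^ 2 * (N * H) ^ 2 / τ ^ 17 := by
        have hb : 0 ≤ B2 ^ 2 := sq_nonneg B2
        have h3 : 32 / 3 * B2 ^ 2 * N ^ 2 ≤ 22 * B2 ^ 2 * (N * H) ^ 2 :=
          mul_le_mul (by linarith only [hb]) hNH (sq_nonneg N) (by positivity)
        exact div_le_div₀ (by positivity) h3 (pow_pos hτ0 17)
          (pow_le_pow_right₀ hτ (by norm_num))

lemma te_De {m2 ml N H τ : ℝ} (hm2 : 0 ≤ m2) (hτ : 1 ≤ τ) (hNH : N ^ 2 ≤ (N * H) ^ 2) :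
    N ^ 2 * (6 * (m2 / τ ^ 16) * (1 / τ ^ 7) + 13 * (ml / τ ^ 16) ^ 2 / (τ ^ 14)⁻¹)
      ≤ (6 * m2 + 13 * ml ^ 2) * (N * H) ^ 2 / τ ^ 17 := by
  have hτ0 : 0 < τ := lt_of_lt_of_le one_pos hτ
  have h0 : 0 ≤ (N * H) ^ 2 := sq_nonneg _
  calc N ^ 2 * (6 * (m2 / τ ^ 16) * (1 / τ ^ 7) + 13 * (ml / τ ^ 16) ^ 2 / (τ ^ 14)⁻¹)
      = 6 * m2 * N ^ 2 / τ ^ 23 + 13 * ml ^ 2 * N ^ 2 / τ ^ 18 := by
        field_simp
    _ ≤ 6 * m2 * (N * H) ^ 2 / τ ^ 17 + 13 * ml ^ 2 * (N * H) ^ 2 / τ ^ 17 :=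
        add_le_add
          (div_le_div₀ (by positivity) (mul_le_mul_of_nonneg_left hNH (by positivity))
            (pow_pos hτ0 17) (pow_le_pow_right₀ hτ (by norm_num)))
          (div_le_div₀ (by positivity) (mul_le_mul_of_nonneg_left hNH (by positivity))
            (pow_pos hτ0 17) (pow_le_pow_right₀ hτ (by norm_num)))
    _ = _ := by ring

lemma te_main {T m2 γ c2 S Sl Sg l L : ℝ} (hT0 : 0 < T) (hm2 : 0 ≤ m2) (hL : |L| ≤ m2 / T) :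
    1 / T * (m2 * ((2 * l + γ) * S + Sg) + 2 * c2 * S)
      + (m2 / T * ((14 * l + γ) * S - Sl) + L * S)
      ≤ 1 / T * (m2 * (16 * l * S - (Sl - Sg)) + (2 * m2 * |γ| + 2 * |c2| + m2) * |S|) := by
  have t1 : L * S ≤ m2 / T * |S| := by
    calc L * S ≤ |L * S| := le_abs_self _
      _ = |L| * |S| := abs_mul _ _
      _ ≤ _ := mul_le_mul_of_nonneg_right hL (abs_nonneg _)
  have t2 : γ * S ≤ |γ| * |S| := by
    rw [← abs_mul]; exact le_abs_self _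
  have t3 : c2 * S ≤ |c2| * |S| := by
    rw [← abs_mul]; exact le_abs_self _
  have e1 : 1 / T * (m2 * ((2 * l + γ) * S + Sg) + 2 * c2 * S)
      + (m2 / T * ((14 * l + γ) * S - Sl) + L * S)
      = 1 / T * (m2 * (16 * l * S - (Sl - Sg)) + 2 * m2 * (γ * S) + 2 * (c2 * S)) + L * S := by
    field_simp
    ring
  have e2 : 1 / T * (m2 * (16 * l * S - (Sl - Sg)) + (2 * m2 * |γ| + 2 * |c2| + m2) * |S|)
      = 1 / T * (m2 * (16 * l * S - (Sl - Sg)) + 2 * m2 * (|γ| * |S|)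
        + 2 * (|c2| * |S|)) + m2 / T * |S| := by
    field_simp
    ring
  rw [e1, e2]
  refine add_le_add (mul_le_mul_of_nonneg_left (add_le_add (add_le_add le_rfl
    (mul_le_mul_of_nonneg_left t2 (mul_nonneg two_pos.le hm2)))
    (mul_le_mul_of_nonneg_left t3 two_pos.le)) (one_div_pos.mpr hT0).le) t1

lemma te_fin {IU ID Md E1 E2' Mt m2 ml γ c2 CK I1 I2 B2 Z Y De δ C T S : ℝ}
    (hm2 : 0 ≤ m2) (hCK : 0 ≤ CK) (hI1 : 0 ≤ I1) (hI2 : 0 ≤ I2) (hZ : 0 ≤ Z)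
    (hSa : 0 ≤ 1 / T * |S|) (hδ1 : δ ≤ 1) (hE10 : 0 ≤ E1)
    (hC : C = 2 * (2 * m2 * |γ| + 2 * |c2| + m2) + 2 * (4 * m2 + m2 * |γ| + 2 * |c2|)
      + 32 * CK + 16 * I1 + 8 * I2 + 22 * B2 ^ 2 + 6 * m2 + 13 * ml ^ 2 + 2 * (CK * 16))
    (sU : IU ≤ (1 + δ) * (Md + E1) + E2')
    (hD2 : ID - Mt ≤ De)
    (hmain : Md + Mt ≤ Y + (2 * m2 * |γ| + 2 * |c2| + m2) * (1 / T * |S|))
    (hδMd : δ * Md ≤ (4 * m2 + m2 * |γ| + 2 * |c2|) * Z)
    (hE1 : E1 ≤ (16 * CK + 4 * I1 + 2 * I2) * Z)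
    (hE2 : E2' ≤ 22 * B2 ^ 2 * Z)
    (hDe : De ≤ (6 * m2 + 13 * ml ^ 2) * Z) :
    IU + ID ≤ Y + C * (1 / T * |S|) + C * Z := by
  have hgam : 0 ≤ |γ| := abs_nonneg _
  have hc2a : 0 ≤ |c2| := abs_nonneg _
  have hmg : 0 ≤ m2 * |γ| := mul_nonneg hm2 hgam
  have hb2 := sq_nonneg B2
  have hl2 := sq_nonneg ml
  have c1 : (2 * m2 * |γ| + 2 * |c2| + m2) * (1 / T * |S|) ≤ C * (1 / T * |S|) := by
    refine mul_le_mul_of_nonneg_right ?_ hSa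
    rw [hC]
    linarith only [hm2, hCK, hI1, hI2, hc2a, hmg, hb2, hl2]
  have c2' : ((4 * m2 + m2 * |γ| + 2 * |c2|) + 2 * (16 * CK + 4 * I1 + 2 * I2)
      + 22 * B2 ^ 2 + (6 * m2 + 13 * ml ^ 2)) * Z ≤ C * Z := by
    refine mul_le_mul_of_nonneg_right ?_ hZ
    rw [hC]
    linarith only [hm2, hCK, hI1, hI2, hc2a, hmg, hb2, hl2]
  have h2 : (1 + δ) * E1 ≤ 2 * E1 := mul_le_mul_of_nonneg_right (by linarith only [hδ1]) hE10
  have h3 : (1 + δ) * (Md + E1) = Md + δ * Md + (1 + δ) * E1 := by ring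
  rw [h3] at sU
  linarith only [sU, hD2, hmain, hδMd, hE1, hE2, hDe, c1, c2', h2]

end pieces

set_option maxHeartbeats 4000000 in
/-- `Ker.total` with an explicit constant -/
theorem total_explicit (K : Ker) {B0 B2 : ℝ} (hB0 : 0 < B0) (hB2 : 0 < B2)
    (h0 : ∀ w, |K.G w| ≤ B0) (h2 : ∀ w, 0 < w → |K.G w| ≤ B2 / w ^ 2) :
    ∀ τ : ℝ, 1 ≤ τ → 2 * K.L < τ ^ 2 → ∀ (D : DP) (H : ℝ), 1 ≤ H →
    (∀ n, D.coeff n ≠ 0 → 1 ≤ n ∧ (n : ℝ) ≤ H) →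
    ∫ x in Ioi (0 : ℝ), QQ (K.phi (τ ^ 16)) D x ^ 2
      ≤ 1 / τ ^ 16 * (K.m2 * (Real.log (τ ^ 16) * BK K2 D D - BK KL D D)
          + CT K B0 B2 * |BK K2 D D|) + CT K B0 B2 * (nrm D * H) ^ 2 / τ ^ 17 := by
  have hBd : Bd K B0 B2 := ⟨hB0, hB2, h0, h2⟩
  clear h0 h2
  have hm2 := K.m2_nonneg
  have hCK := hBd.CK_nonneg
  have hI1 := K.I1_nonneg
  have hI2 := K.I2_nonneg
  have hml := K.ml_nonneg
  have hL := K.hL
  have hCT : CT K B0 B2 = 2 * (2 * K.m2 * |γE| + 2 * |K.c2| + K.m2)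
    + 2 * (4 * K.m2 + K.m2 * |γE| + 2 * |K.c2|)
    + 32 * CKx K B0 + 16 * K.I1 + 8 * K.I2 + 22 * B2 ^ 2 + 6 * K.m2 + 13 * K.ml ^ 2
    + 2 * ((CKx K B0) * 16) := by
    unfold CT CKx
    ring
  rw [hCT]
  set C := 2 * (2 * K.m2 * |γE| + 2 * |K.c2| + K.m2) + 2 * (4 * K.m2 + K.m2 * |γE| + 2 * |K.c2|)
    + 32 * CKx K B0 + 16 * K.I1 + 8 * K.I2 + 22 * B2 ^ 2 + 6 * K.m2 + 13 * K.ml ^ 2
    + 2 * ((CKx K B0) * 16) with hC
  intro τ hτ hLτ D H hH hD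
  have hτ0 : 0 < τ := by linarith
  have hD1 : ∀ n, D.coeff n ≠ 0 → 1 ≤ n := fun n hn => (hD n hn).1
  set T := τ ^ 16 with hTdef
  have hT0 : 0 < T := by positivity
  have hT : 2 * K.L ≤ T := by
    have : τ ^ 2 ≤ τ ^ 16 := pow_le_pow_right₀ hτ (by norm_num)
    rw [hTdef]; linarith
  set x0 : ℝ := (τ ^ 14)⁻¹ with hx0def
  have hx0 : 0 < x0 := by positivity
  have hx01 : x0 ≤ 1 := inv_le_one_of_one_le₀ (one_le_pow₀ hτ)
  have hε : ∀ y, K.phi T y ≠ 0 → |y - 1| ≤ K.L / T := fun y hy => K.phi_supp hT0 hy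
  have hεx : 2 * (K.L / T) < x0 := by
    rw [hx0def, hTdef, ← mul_div_assoc, div_lt_iff₀ (by positivity)]
    have : (τ ^ 14)⁻¹ * τ ^ 16 = τ ^ 2 := by field_simp
    rw [this]; exact hLτ
  -- cutoff
  obtain ⟨Ξ, hΞ1, hΞ2, hΞ3⟩ : ∃ Ξ : ℕ, 1 ≤ Ξ ∧ τ ^ 6 ≤ Ξ ∧ (Ξ : ℝ) ≤ 2 * τ ^ 6 := by
    have h1 : (1 : ℝ) ≤ τ ^ 6 := one_le_pow₀ hτ
    refine ⟨⌈τ ^ 6⌉₊, Nat.one_le_ceil_iff.mpr (by positivity), Nat.le_ceil _, ?_⟩
    have := (Nat.ceil_lt_add_one (a := τ ^ 6) (by positivity)).le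
    linarith
  have hΞ0 : (0 : ℝ) < Ξ := by exact_mod_cast hΞ1
  set δ : ℝ := (τ ^ 2)⁻¹ with hδdef
  have hδ : 0 < δ := by positivity
  have hδ1 : δ ≤ 1 := inv_le_one_of_one_le₀ (one_le_pow₀ hτ)
  have hB := K.phi_bmp hT
  obtain ⟨iD, sD⟩ := hB.direct hε hD1 hx0 hx01 hεx
  have sU := hBd.dual_bound hT hD hx0 hΞ1 hδ
  have hQ2 := K.QQ_int2 hT hD1
  have hsplit : ∫ x in Ioi (0 : ℝ), QQ (K.phi T) D x ^ 2
      = (∫ x in Ioo 0 x0, QQ (K.phi T) D x ^ 2) + ∫ x in Ioi x0, QQ (K.phi T) D x ^ 2 := by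
    rw [← integral_Ioc_eq_integral_Ioo, ← Ioc_union_Ioi_eq_Ioi hx0.le,
      setIntegral_union (by
        rw [Set.disjoint_left]
        intro x h1 h2
        exact absurd h1.2 (not_le.mpr h2)) measurableSet_Ioi
        (hQ2.mono_set Ioc_subset_Ioi_self) (hQ2.mono_set (Ioi_subset_Ioi hx0.le))]
  rw [hsplit]
  set S := BK K2 D D with hS
  set Sl := BK Kl D D with hSl
  set Sg := BK Kg D D with hSg
  set N := nrm D with hN
  have hN0 : 0 ≤ N := nrm_nonneg D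
  have hSN : |S| ≤ N ^ 2 := by
    have := abs_BK_le (K := K2) (B := 1) (fun a b ha hb => K2_le_one ha hb) hD1
    rw [mul_one] at this
    exact this
  have hSgN : |Sg| ≤ N ^ 2 := by
    have := abs_BK_le (K := Kg) (B := 1) (fun a b ha hb => Kg_le_one ha hb) hD1
    rw [mul_one] at this
    exact this
  have hphi2 : ∫ y, K.phi T y ^ 2 = K.m2 / T := by
    rw [K.integral_phi_sq hT0, inv_mul_eq_div]
  have hphil : ∫ y, |K.phi T y| = K.ml / T := by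
    rw [K.integral_abs_phi hT0, inv_mul_eq_div]
  have hlm : |lm (K.phi T)| ≤ K.m2 / T := by
    have := hB.abs_lm_le
    rwa [hphi2, mul_one] at this
  rw [hphi2, hphil] at sD
  have hlogx : Real.log (1 / x0) = 14 * Real.log τ := by
    rw [hx0def, one_div, inv_inv, Real.log_pow]
    norm_num
  have hTx : T * x0 = τ ^ 2 := by
    rw [hTdef, hx0def]; field_simp
  have hlogTx : Real.log (T * x0) = 2 * Real.log τ := by
    rw [hTx, Real.log_pow]; norm_num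
  have hlogT : Real.log T = 16 * Real.log τ := by
    rw [hTdef, Real.log_pow]; norm_num
  have hlt0 : 0 ≤ Real.log τ := Real.log_nonneg hτ
  have hlt1 : Real.log τ ≤ τ := by
    have := Real.log_le_sub_one_of_pos hτ0
    linarith
  -- powers
  have hx0h : x0 ^ (1 / 2 : ℝ) = 1 / τ ^ 7 := by
    have : x0 = (1 / τ ^ 7) ^ 2 := by rw [hx0def]; field_simp
    rw [this, ← Real.rpow_natCast, ← Real.rpow_mul (one_div_pos.mpr (pow_pos hτ0 7)).le]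
    norm_num
  have hTxh : (1 / (T * x0)) ^ (1 / 2 : ℝ) = 1 / τ := by
    have : 1 / (T * x0) = (1 / τ) ^ 2 := by rw [hTx, one_div_pow]
    rw [this, ← Real.rpow_natCast, ← Real.rpow_mul (one_div_pos.mpr hτ0).le]
    norm_num
  rw [hlogx, hx0h] at sD
  have hD2 := le_of_abs_le sD
  -- dual main
  have hMd : K.Md T x0 D = 1 / T * (K.m2 * ((2 * Real.log τ + γE) * S + Sg) + 2 * K.c2 * S) := by
    unfold Ker.Md; rw [hlogTx]
  have hMdabs : |K.Md T x0 D| ≤ 1 / T * ((4 * K.m2 + K.m2 * |γE| + 2 * |K.c2|) * τ * N ^ 2) := by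
    rw [hMd, abs_mul, abs_of_pos (one_div_pos.mpr hT0)]
    exact mul_le_mul_of_nonneg_left (te_Md hm2 hτ hlt0 hlt1 hSN hSgN) (one_div_pos.mpr hT0).le
  have hNH : N ^ 2 ≤ (N * H) ^ 2 := pow_le_pow_left₀ hN0 (le_mul_of_one_le_right hN0 hH) 2
  have hcf : 0 ≤ 4 * K.m2 + K.m2 * |γE| + 2 * |K.c2| :=
    add_nonneg (add_nonneg (mul_nonneg four_pos.le hm2) (mul_nonneg hm2 (abs_nonneg _)))
      (mul_nonneg two_pos.le (abs_nonneg _))
  have hδMd := te_dMd (H := H) hcf hτ0 hNH hMdabs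
  have hE1 : Ed1 K B0 T x0 H Ξ D ≤ (16 * CKx K B0 + 4 * K.I1 + 2 * K.I2) * (N * H) ^ 2 / τ ^ 17 := by
    unfold Ed1
    rw [hTxh, hTx, ← hN]
    exact te_E1 hCK hI1 hI2 hτ hN0 hH hΞ0 hΞ2 hΞ3
  have hE10 : 0 ≤ Ed1 K B0 T x0 H Ξ D := by
    unfold Ed1
    have hH0 : 0 ≤ H := zero_le_one.trans hH
    clear_value T x0 N
    clear hE1 hδMd hMdabs hMd hD2 sD sU hQ2 hB iD hsplit hphi2 hphil hlm hSN hSgN hcf hC
    positivity
  have hE2 : (1 + 1 / δ) * Ed2 B2 T x0 Ξ D ≤ 22 * B2 ^ 2 * (N * H) ^ 2 / τ ^ 17 := by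
    unfold Ed2
    rw [← hN]
    exact te_E2 hτ hNH hΞ2
  have hDe : N ^ 2 * (6 * (K.m2 / T) * (1 / τ ^ 7) + 13 * (K.ml / T) ^ 2 / x0)
      ≤ (6 * K.m2 + 13 * K.ml ^ 2) * (N * H) ^ 2 / τ ^ 17 := te_De hm2 hτ hNH
  -- main terms
  have hKL : BK KL D D = Sl - Sg := BK_KL D
  rw [hKL]
  have hmain : K.Md T x0 D + (K.m2 / T * ((14 * Real.log τ + γE) * S - Sl) + lm (K.phi T) * S)
      ≤ 1 / T * (K.m2 * (Real.log T * S - (Sl - Sg)) + (2 * K.m2 * |γE| + 2 * |K.c2| + K.m2) * |S|) := by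
    rw [hMd, hlogT]
    exact te_main hT0 hm2 hlm
  have hZ : 0 ≤ (N * H) ^ 2 / τ ^ 17 := div_nonneg (sq_nonneg _) (pow_pos hτ0 17).le
  have hSabs : 0 ≤ 1 / T * |S| := mul_nonneg (one_div_pos.mpr hT0).le (abs_nonneg _)
  have f1 : ∀ c : ℝ, c * (N * H) ^ 2 / τ ^ 17 = c * ((N * H) ^ 2 / τ ^ 17) :=
    fun c => mul_div_assoc _ _ _
  have e9 : 1 / T * (K.m2 * (Real.log T * S - (Sl - Sg)) + C * |S|)
      = 1 / T * (K.m2 * (Real.log T * S - (Sl - Sg))) + C * (1 / T * |S|) := by ring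
  have e10 : 1 / T * (K.m2 * (Real.log T * S - (Sl - Sg)) + (2 * K.m2 * |γE| + 2 * |K.c2| + K.m2) * |S|)
      = 1 / T * (K.m2 * (Real.log T * S - (Sl - Sg)))
        + (2 * K.m2 * |γE| + 2 * |K.c2| + K.m2) * (1 / T * |S|) := by ring
  rw [e9, f1]
  rw [e10] at hmain
  rw [f1] at hDe hE2 hE1 hδMd
  exact te_fin hm2 hCK hI1 hI2 hZ hSabs hδ1 hE10 hC sU hD2 hmain hδMd hE1 hE2 hDe


end

end Pool.Agent.Lib.MP_f9aece_nt_rt
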