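import Mathlib
import Pool.Agent.Lib.MP_f9aece_nt_h97.Osc
import Pool.Agent.Lib.MP_f9aece_nt_h97.KernChoice

/-!
A family of kernels with explicit constants: the Fourier transform is the convolution of the
indicator function of an interval with a fixed rapidly decreasing function.
-/

set_option autoImplicit false

namespace Pool.Agent.Lib.MP_f9aece_nt_rt

open MeasureTheory Set Filter Topology Complex FourierTransform
open scoped ENNReal ContDiff SchwartzMap
open Pool.Agent.Lib.MP_f9aece_nt_h97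

/-- the basic cut-off -/
noncomputable def chi0 : ContDiffBump (0 : ℝ) := ⟨1, 2, one_pos, one_lt_two⟩

lemma chi0_supp {v : ℝ} (hv : chi0 v ≠ 0) : |v| ≤ 2 := by
  have h1 : v ∈ Function.support chi0 := hv
  rw [chi0.support_eq, Metric.mem_ball, dist_zero_right, Real.norm_eq_abs] at h1
  exact h1.le

/-- the basic kernel -/
noncomputable def K0 : Ker where
  g := chi0
  smooth := chi0.contDiff
  L := 2
  hL := one_le_two
  supp := fun _ hv => chi0_supp hv
  even := fun v => chi0.neg v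

/-- the transform of the indicator function of an interval -/
noncomputable def DR (r v : ℝ) : ℝ := ∫ u in (-r)..r, Real.cos (2 * Real.pi * v * u)

lemma DR_even (r v : ℝ) : DR r (-v) = DR r v := by
  unfold DR
  refine intervalIntegral.integral_congr fun u _ => ?_
  rw [← Real.cos_neg]
  congr 1
  ring

lemma abs_DR_le {r : ℝ} (hr : 0 ≤ r) (v : ℝ) : |DR r v| ≤ 2 * r := by
  unfold DR
  have := intervalIntegral.norm_integral_le_of_norm_le_const (a := -r) (b := r) (C := 1)
    (f := fun u => Real.cos (2 * Real.pi * v * u)) fun u _ => by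
      rw [Real.norm_eq_abs]; exact Real.abs_cos_le_one _
  rw [Real.norm_eq_abs] at this
  refine this.trans (le_of_eq ?_)
  rw [sub_neg_eq_add, abs_of_nonneg (by linarith)]
  ring

/-- the indicator function -/
noncomputable def ind (r : ℝ) : ℝ → ℂ := (Ioc (-r) r).indicator fun _ => (1 : ℂ)

lemma DR_eq {r : ℝ} (hr : 0 ≤ r) : DR r = fun v => (𝓕 (ind r) v).re := by
  funext v
  rw [Real.fourier_real_eq_integral_exp_smul]
  have e1 : (fun u : ℝ => cexp (↑(-2 * Real.pi * u * v) * I) • ind r u)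
      = (Ioc (-r) r).indicator fun u : ℝ => cexp (↑(-2 * Real.pi * u * v) * I) := by
    funext u
    unfold ind
    by_cases hu : u ∈ Ioc (-r) r
    · rw [indicator_of_mem hu, indicator_of_mem hu, smul_eq_mul, mul_one]
    · rw [indicator_of_notMem hu, indicator_of_notMem hu, smul_zero]
  rw [e1, integral_indicator measurableSet_Ioc]
  have hi : IntegrableOn (fun u : ℝ => cexp (↑(-2 * Real.pi * u * v) * I)) (Ioc (-r) r) := by
    have hc : Continuous fun u : ℝ => cexp (↑(-2 * Real.pi * u * v) * I) := by fun_prop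
    exact (hc.integrableOn_Icc (a := -r) (b := r)).mono_set Ioc_subset_Icc_self
  have h4 : (∫ u in Ioc (-r) r, cexp (↑(-2 * Real.pi * u * v) * I)).re
      = RCLike.re (∫ u in Ioc (-r) r, cexp (↑(-2 * Real.pi * u * v) * I)) := rfl
  rw [h4, ← integral_re hi]
  unfold DR
  rw [intervalIntegral.integral_of_le (by linarith)]
  refine integral_congr_ae (Eventually.of_forall fun u => ?_)
  simp only [RCLike.re_to_complex, Complex.exp_ofReal_mul_I_re]
  rw [← Real.cos_neg]
  congr 1
  ring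

lemma DR_smooth {r : ℝ} (hr : 0 ≤ r) : ContDiff ℝ ∞ (DR r) := by
  rw [DR_eq hr]
  have h : ContDiff ℝ ((⊤ : ℕ∞) : WithTop ℕ∞) (𝓕 (ind r)) := by
    refine Real.contDiff_fourier fun n _ => ?_
    have e1 : (fun v : ℝ => ‖v‖ ^ n * ‖ind r v‖) = (Ioc (-r) r).indicator fun v => ‖v‖ ^ n := by
      funext u
      unfold ind
      by_cases hu : u ∈ Ioc (-r) r
      · rw [indicator_of_mem hu, indicator_of_mem hu, norm_one, mul_one]
      · rw [indicator_of_notMem hu, indicator_of_notMem hu, norm_zero, mul_zero]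
    rw [e1, integrable_indicator_iff measurableSet_Ioc]
    have hc : Continuous fun v : ℝ => ‖v‖ ^ n := by fun_prop
    exact (hc.integrableOn_Icc (a := -r) (b := r)).mono_set Ioc_subset_Icc_self
  exact Complex.reCLM.contDiff.comp h

lemma DR_continuous {r : ℝ} (hr : 0 ≤ r) : Continuous (DR r) := (DR_smooth hr).continuous

/-- the kernels -/
noncomputable def KR (r R : ℝ) (hr : 0 ≤ r) (hR : 1 ≤ R) : Ker where
  g := fun v => chi0 (v / R) * DR r v
  smooth := (chi0.contDiff.comp (contDiff_id.div_const _)).mul (DR_smooth hr)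
  L := 2 * R
  hL := by linarith
  supp := by
    intro v hv
    have h1 := chi0_supp (left_ne_zero_of_mul hv)
    have hR0 : 0 < R := by linarith
    rw [abs_div, abs_of_pos hR0, div_le_iff₀ hR0] at h1
    exact h1
  even := by
    intro v
    rw [neg_div, chi0.neg, DR_even]

lemma chi0_int : Integrable (fun v : ℝ => chi0 v) := K0.integrable

lemma chi0_scale_int {R : ℝ} (hR : 1 ≤ R) : Integrable (fun v : ℝ => chi0 (v / R)) := by
  have := chi0_int.comp_mul_left' (R := R⁻¹) (by positivity)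
  refine this.congr (Eventually.of_forall fun v => ?_)
  simp only
  rw [div_eq_inv_mul]

/-- the transform of the scaled cut-off -/
lemma scale_G {R : ℝ} (hR : 1 ≤ R) (s : ℝ) :
    ∫ v, chi0 (v / R) * Real.cos (2 * Real.pi * v * s) = R * K0.G (R * s) := by
  have hR0 : 0 < R := by linarith
  rw [K0.G_eq_integral]
  have h := Measure.integral_comp_mul_left
    (fun v => chi0 v * Real.cos (2 * Real.pi * v * (R * s))) R⁻¹
  rw [inv_inv, abs_of_pos hR0, smul_eq_mul] at h
  change _ = R * ∫ v, chi0 v * Real.cos (2 * Real.pi * v * (R * s))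
  rw [← h]
  refine integral_congr_ae (Eventually.of_forall fun v => ?_)
  simp only
  rw [div_eq_inv_mul]
  congr 2
  field_simp

lemma KR_G_cont (K : Ker) (R : ℝ) : Continuous fun s => R * K.G (R * s) :=
  continuous_const.mul (K.G_cont.comp (by fun_prop))

/-- the key formula -/
theorem KR_G {r R : ℝ} (hr : 0 ≤ r) (hR : 1 ≤ R) (w : ℝ) :
    (KR r R hr hR).G w = ∫ y in (R * (w - r))..(R * (w + r)), K0.G y := by
  have hR0 : 0 < R := by linarith
  rw [Ker.G_eq_integral]
  have e1 : ∀ v : ℝ, (KR r R hr hR).g v * Real.cos (2 * Real.pi * v * w)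
      = ∫ u in (-r)..r, chi0 (v / R) * Real.cos (2 * Real.pi * v * u)
        * Real.cos (2 * Real.pi * v * w) := by
    intro v
    change chi0 (v / R) * DR r v * Real.cos (2 * Real.pi * v * w) = _
    unfold DR
    rw [intervalIntegral.integral_mul_const, intervalIntegral.integral_const_mul]
  simp_rw [e1]
  rw [← intervalIntegral_integral_swap]
  swap
  · have hb : Integrable (fun z : ℝ × ℝ => |chi0 (z.2 / R)|)
        ((volume.restrict (uIoc (-r) r)).prod volume) := by
      have : IsFiniteMeasure (volume.restrict (uIoc (-r) r)) :=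
        ⟨by rw [Measure.restrict_apply_univ, uIoc_of_le (by linarith)]; exact measure_Ioc_lt_top⟩
      exact (chi0_scale_int hR).abs.comp_snd _
    refine hb.mono' ?_ (Eventually.of_forall fun z => ?_)
    · refine Continuous.aestronglyMeasurable ?_
      have hc : Continuous fun z : ℝ × ℝ => chi0 (z.2 / R) :=
        chi0.continuous.comp (by fun_prop)
      exact (hc.mul (by fun_prop)).mul (by fun_prop)
    · simp only [Function.uncurry, Real.norm_eq_abs]
      rw [abs_mul, abs_mul, mul_assoc]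
      refine mul_le_of_le_one_right (abs_nonneg _) ?_
      exact mul_le_one₀ (Real.abs_cos_le_one _) (abs_nonneg _) (Real.abs_cos_le_one _)
  have e2 : ∀ u : ℝ, ∫ v, chi0 (v / R) * Real.cos (2 * Real.pi * v * u)
        * Real.cos (2 * Real.pi * v * w)
      = 1 / 2 * (R * K0.G (R * (w + u)) + R * K0.G (R * (w - u))) := by
    intro u
    have hcos : ∀ s : ℝ, Integrable (fun v => chi0 (v / R) * Real.cos (2 * Real.pi * v * s)) := by
      intro s
      refine (chi0_scale_int hR).mul_bdd (c := 1) ?_ (Eventually.of_forall fun v => ?_)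
      · exact (Real.continuous_cos.comp (by fun_prop)).aestronglyMeasurable
      · exact Real.abs_cos_le_one _
    rw [← scale_G hR, ← scale_G hR, ← integral_add (hcos _) (hcos _), ← integral_const_mul]
    refine integral_congr_ae (Eventually.of_forall fun v => ?_)
    simp only
    have h1 : 2 * Real.pi * v * (w + u) = 2 * Real.pi * v * w + 2 * Real.pi * v * u := by ring
    have h2 : 2 * Real.pi * v * (w - u) = 2 * Real.pi * v * w - 2 * Real.pi * v * u := by ring
    rw [h1, h2, Real.cos_add, Real.cos_sub]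
    ring
  simp_rw [e2]
  have hc := KR_G_cont K0 R
  have hc1 : Continuous fun u => R * K0.G (R * (w + u)) :=
    hc.comp (by fun_prop : Continuous fun u : ℝ => w + u)
  have hc2 : Continuous fun u => R * K0.G (R * (w - u)) :=
    hc.comp (by fun_prop : Continuous fun u : ℝ => w - u)
  rw [intervalIntegral.integral_const_mul, intervalIntegral.integral_add
    (hc1.intervalIntegrable _ _) (hc2.intervalIntegrable _ _)]
  have e3 : ∫ u in (-r)..r, R * K0.G (R * (w + u)) = ∫ s in (w - r)..(w + r), R * K0.G (R * s) := by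
    rw [intervalIntegral.integral_comp_add_left (fun s => R * K0.G (R * s)) w, sub_eq_add_neg]
  have e4 : ∫ u in (-r)..r, R * K0.G (R * (w - u)) = ∫ s in (w - r)..(w + r), R * K0.G (R * s) := by
    rw [intervalIntegral.integral_comp_sub_left (fun s => R * K0.G (R * s)) w, sub_neg_eq_add]
  rw [e3, e4, intervalIntegral.integral_const_mul]
  have e5 := intervalIntegral.mul_integral_comp_mul_left (a := w - r) (b := w + r)
    (f := fun y => K0.G y) R
  rw [← e5]
  ring

/-! ### bounds -/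

lemma K0_integral : ∫ y, K0.G y = 1 := by
  have h := K0.integral_G_cos 0
  simp only [mul_zero, Real.cos_zero, mul_one] at h
  rw [h]
  change chi0 0 = 1
  apply ContDiffBump.one_of_mem_closedBall
  rw [Metric.mem_closedBall, dist_self]
  exact chi0.rIn_pos.le

lemma tail_pos {B : ℝ} (hB : ∀ y, |y| ^ 2 * |K0.G y| ≤ B) {a : ℝ} (ha : 0 < a) :
    ∫ y in Ioi a, |K0.G y| ≤ B / a := by
  have e4 : ∫ x in Ioi a, x ^ (-2 : ℝ) = 1 / a := by
    rw [integral_Ioi_rpow_of_lt (by norm_num) ha]
    have : (-2 : ℝ) + 1 = -1 := by norm_num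
    rw [this, Real.rpow_neg_one]
    field_simp
  calc ∫ y in Ioi a, |K0.G y| ≤ ∫ y in Ioi a, B * y ^ (-2 : ℝ) := by
        refine setIntegral_mono_on K0.G_integrable.abs.integrableOn
          ((integrableOn_Ioi_rpow_of_lt (by norm_num) ha).const_mul _) measurableSet_Ioi fun y hy => ?_
        have hy0 : 0 < y := ha.trans hy
        have h := hB y
        rw [abs_of_pos hy0] at h
        have e5 : y ^ (-2 : ℝ) = (y ^ 2)⁻¹ := by
          rw [Real.rpow_neg hy0.le]; norm_num
        rw [e5, ← div_eq_mul_inv, le_div_iff₀ (by positivity), mul_comm]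
        exact h
    _ = B / a := by rw [integral_const_mul, e4]; ring

lemma tail_neg {B : ℝ} (hB : ∀ y, |y| ^ 2 * |K0.G y| ≤ B) {a : ℝ} (ha : 0 < a) :
    ∫ y in Iic (-a), |K0.G y| ≤ B / a := by
  have h := integral_comp_neg_Iic (-a) (fun y => |K0.G y|)
  simp only [K0.G_even, neg_neg] at h
  rw [h]
  exact tail_pos hB ha

section bounds

variable {r R : ℝ} (hr : 0 ≤ r) (hR : 1 ≤ R)

include hr hR in
lemma KR_order (w : ℝ) : R * (w - r) ≤ R * (w + r) := by
  have : 0 ≤ R := by linarith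
  gcongr
  linarith

lemma KR_abs_le (w : ℝ) : |(KR r R hr hR).G w| ≤ ∫ y, |K0.G y| := by
  rw [KR_G hr hR, intervalIntegral.integral_of_le (KR_order hr hR w)]
  refine (abs_integral_le_integral_abs).trans ?_
  exact setIntegral_le_integral K0.G_integrable.abs (Eventually.of_forall fun y => abs_nonneg _)

/-- beyond the interval -/
lemma KR_far {B : ℝ} (hB : ∀ y, |y| ^ 2 * |K0.G y| ≤ B) {w : ℝ} (hw : r < w) :
    |(KR r R hr hR).G w| ≤ B / (R * (w - r)) := by
  have hR0 : 0 < R := by linarith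
  have ha : 0 < R * (w - r) := mul_pos hR0 (by linarith)
  rw [KR_G hr hR, intervalIntegral.integral_of_le (KR_order hr hR w)]
  refine (abs_integral_le_integral_abs).trans (le_trans ?_ (tail_pos hB ha))
  exact setIntegral_mono_set K0.G_integrable.abs.integrableOn
    (Eventually.of_forall fun y => abs_nonneg _) Ioc_subset_Ioi_self.eventuallyLE

/-- quadratic decay -/
lemma KR_decay {B : ℝ} (hB0 : 0 ≤ B) (hB : ∀ y, |y| ^ 2 * |K0.G y| ≤ B) (hr1 : 2 * r ≤ 1) {w : ℝ}
    (hw : 0 < w) : |(KR r R hr hR).G w| ≤ ((∫ y, |K0.G y|) + 8 * B) / w ^ 2 := by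
  have hR0 : 0 < R := by linarith
  have hM : 0 ≤ ∫ y, |K0.G y| := integral_nonneg fun y => abs_nonneg _
  rw [le_div_iff₀ (by positivity)]
  rcases le_total w (2 * r) with h1 | h1
  · have h2 := KR_abs_le hr hR w
    have h3 : w ^ 2 ≤ 1 := pow_le_one₀ hw.le (h1.trans hr1)
    have h4 : |(KR r R hr hR).G w| * w ^ 2 ≤ (∫ y, |K0.G y|) * 1 := by gcongr
    linarith
  · have hwr : w / 2 ≤ w - r := by linarith
    have h2 : |(KR r R hr hR).G w| ≤ B / (R * (w / 2)) ^ 2 * |R * (w + r) - R * (w - r)| := by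
      rw [KR_G hr hR, ← Real.norm_eq_abs (∫ y in _.._, K0.G y)]
      refine intervalIntegral.norm_integral_le_of_norm_le_const fun y hy => ?_
      rw [uIoc_of_le (KR_order hr hR w)] at hy
      have hy1 : R * (w / 2) ≤ y := by
        have : R * (w / 2) ≤ R * (w - r) := by gcongr
        exact this.trans hy.1.le
      have hy2 : 0 < R * (w / 2) := by positivity
      have hy0 : 0 < y := by linarith
      have h := hB y
      rw [abs_of_pos hy0] at h
      rw [Real.norm_eq_abs, le_div_iff₀ (by positivity)]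
      calc |K0.G y| * (R * (w / 2)) ^ 2 ≤ |K0.G y| * y ^ 2 := by gcongr
        _ = y ^ 2 * |K0.G y| := by ring
        _ ≤ B := h
    have h3 : |R * (w + r) - R * (w - r)| = R * (2 * r) := by
      have e0 : R * (w + r) - R * (w - r) = R * (2 * r) := by ring
      rw [e0, abs_of_nonneg (mul_nonneg hR0.le (by linarith))]
    rw [h3] at h2
    have h4 : B / (R * (w / 2)) ^ 2 * (R * (2 * r)) * w ^ 2 = 4 * B * (2 * r) / R := by
      field_simp
      ring
    have h5 : 4 * B * (2 * r) / R ≤ 4 * B := by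
      rw [div_le_iff₀ hR0]
      have : 4 * B * (2 * r) ≤ 4 * B * 1 := by gcongr
      linarith [mul_le_mul_of_nonneg_left hR (by linarith : (0 : ℝ) ≤ 4 * B)]
    calc |(KR r R hr hR).G w| * w ^ 2 ≤ B / (R * (w / 2)) ^ 2 * (R * (2 * r)) * w ^ 2 := by gcongr
      _ ≤ (∫ y, |K0.G y|) + 8 * B := by rw [h4]; linarith

/-- inside the interval -/
lemma KR_near {B : ℝ} (hB : ∀ y, |y| ^ 2 * |K0.G y| ≤ B) {w e : ℝ} (he : 0 < e)
    (hw : |w| ≤ r - e) : |(KR r R hr hR).G w - 1| ≤ 2 * B / (R * e) := by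
  have hR0 : 0 < R := by linarith
  have ha : 0 < R * e := mul_pos hR0 he
  obtain ⟨hw1, hw2⟩ := abs_le.mp hw
  have h1 : R * (w - r) ≤ -(R * e) := by
    linarith [mul_le_mul_of_nonneg_left (show w - r ≤ -e by linarith) hR0.le]
  have h2 : R * e ≤ R * (w + r) := mul_le_mul_of_nonneg_left (by linarith) hR0.le
  have hi := K0.G_integrable
  have e1 : (1 : ℝ) = (∫ y in Iic (R * (w - r)), K0.G y) + ((∫ y in Ioc (R * (w - r)) (R * (w + r)),
      K0.G y) + ∫ y in Ioi (R * (w + r)), K0.G y) := by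
    rw [← setIntegral_union (Ioc_disjoint_Ioi le_rfl) measurableSet_Ioi hi.integrableOn
      hi.integrableOn, Ioc_union_Ioi_eq_Ioi (KR_order hr hR w),
      ← setIntegral_union (Iic_disjoint_Ioi le_rfl) measurableSet_Ioi hi.integrableOn
      hi.integrableOn, Iic_union_Ioi, setIntegral_univ, K0_integral]
  rw [KR_G hr hR, intervalIntegral.integral_of_le (KR_order hr hR w)]
  have e2 : (∫ y in Ioc (R * (w - r)) (R * (w + r)), K0.G y) - 1
      = -((∫ y in Iic (R * (w - r)), K0.G y) + ∫ y in Ioi (R * (w + r)), K0.G y) := by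
    linarith
  rw [e2, abs_neg]
  have h3 : |∫ y in Iic (R * (w - r)), K0.G y| ≤ B / (R * e) := by
    refine (abs_integral_le_integral_abs).trans (le_trans ?_ (tail_neg hB ha))
    exact setIntegral_mono_set hi.abs.integrableOn
      (Eventually.of_forall fun y => abs_nonneg _) (Iic_subset_Iic.mpr h1).eventuallyLE
  have h4 : |∫ y in Ioi (R * (w + r)), K0.G y| ≤ B / (R * e) := by
    refine (abs_integral_le_integral_abs).trans (le_trans ?_ (tail_pos hB ha))
    exact setIntegral_mono_set hi.abs.integrableOn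
      (Eventually.of_forall fun y => abs_nonneg _) (Ioi_subset_Ioi h2).eventuallyLE
  calc _ ≤ |∫ y in Iic (R * (w - r)), K0.G y| + |∫ y in Ioi (R * (w + r)), K0.G y| := abs_add_le _ _
    _ ≤ B / (R * e) + B / (R * e) := add_le_add h3 h4
    _ = _ := by ring

/-- the derivative -/
lemma KR_G' (w : ℝ) :
    (KR r R hr hR).G' w = R * K0.G (R * (w + r)) - R * K0.G (R * (w - r)) := by
  refine ((KR r R hr hR).G_hasDerivAt w).unique ?_
  have hf : (KR r R hr hR).G = fun w => ∫ y in (R * (w - r))..(R * (w + r)), K0.G y :=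
    funext fun w => KR_G hr hR w
  rw [hf]
  have e1 : (fun w => ∫ y in (R * (w - r))..(R * (w + r)), K0.G y)
      = fun w => (∫ y in (0 : ℝ)..(R * (w + r)), K0.G y) - ∫ y in (0 : ℝ)..(R * (w - r)), K0.G y := by
    funext w
    rw [intervalIntegral.integral_interval_sub_left (K0.G_cont.intervalIntegrable _ _)
      (K0.G_cont.intervalIntegrable _ _)]
  rw [e1]
  have hd : ∀ a : ℝ, HasDerivAt (fun b => ∫ y in (0 : ℝ)..b, K0.G y) (K0.G a) a := fun a =>
    intervalIntegral.integral_hasDerivAt_right (K0.G_cont.intervalIntegrable _ _)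
      (K0.G_cont.stronglyMeasurableAtFilter _ _) K0.G_cont.continuousAt
  have h1 : HasDerivAt (fun w => R * (w + r)) R w := by
    simpa using ((hasDerivAt_id w).add_const r).const_mul R
  have h2 : HasDerivAt (fun w => R * (w - r)) R w := by
    simpa using ((hasDerivAt_id w).sub_const r).const_mul R
  have h3 := (hd (R * (w + r))).comp w h1
  have h4 := (hd (R * (w - r))).comp w h2
  have h5 := h3.sub h4
  refine h5.congr_deriv ?_
  ring

lemma KR_B1 : (KR r R hr hR).B1 ≤ 2 * ∫ y, |K0.G y| := by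
  have hR0 : 0 < R := by linarith
  have hs : ∀ b : ℝ, Integrable (fun w => R * |K0.G (R * (w + b))|)
      ∧ ∫ w, R * |K0.G (R * (w + b))| = ∫ y, |K0.G y| := by
    intro b
    have hi : Integrable (fun w => |K0.G (R * w)|) := K0.G_integrable.abs.comp_mul_left' hR0.ne'
    refine ⟨(hi.comp_add_right b).const_mul R, ?_⟩
    rw [integral_const_mul, integral_add_right_eq_self (fun w => |K0.G (R * w)|) b,
      Measure.integral_comp_mul_left (fun y => |K0.G y|) R, abs_of_pos (inv_pos.mpr hR0),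
      smul_eq_mul]
    field_simp
  unfold Ker.B1
  obtain ⟨i1, j1⟩ := hs r
  obtain ⟨i2, j2⟩ := hs (-r)
  calc ∫ w, |(KR r R hr hR).G' w| ≤ ∫ w, (R * |K0.G (R * (w + r))| + R * |K0.G (R * (w + -r))|) := by
        refine integral_mono (KR r R hr hR).G'_integrable.abs (i1.add i2) fun w => ?_
        simp only
        rw [KR_G']
        refine (abs_sub _ _).trans (le_of_eq ?_)
        rw [abs_mul, abs_mul, abs_of_pos hR0, sub_eq_add_neg]
    _ = 2 * ∫ y, |K0.G y| := by rw [integral_add i1 i2, j1, j2]; ring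

lemma KR_ml : (KR r R hr hR).ml ≤ 8 * R * r := by
  have hR0 : 0 < R := by linarith
  have h1 : (KR r R hr hR).ml ≤ ∫ v, (Icc (-(2 * R)) (2 * R)).indicator (fun _ => 2 * r) v := by
    unfold Ker.ml
    refine integral_mono (KR r R hr hR).integrable.abs ?_ fun v => ?_
    · rw [integrable_indicator_iff measurableSet_Icc]
      exact integrableOn_const (by simp)
    · simp only
      by_cases hv : v ∈ Icc (-(2 * R)) (2 * R)
      · rw [indicator_of_mem hv]
        change |chi0 (v / R) * DR r v| ≤ 2 * r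
        rw [abs_mul, abs_of_nonneg chi0.nonneg]
        exact (mul_le_of_le_one_left (abs_nonneg _) chi0.le_one).trans (abs_DR_le hr v)
      · rw [indicator_of_notMem hv]
        have : (KR r R hr hR).g v = 0 := by
          refine (KR r R hr hR).zero_of ?_
          change 2 * R < |v|
          by_contra hc
          push Not at hc
          exact hv (abs_le.mp hc)
        rw [this, abs_zero]
  refine h1.trans (le_of_eq ?_)
  rw [integral_indicator measurableSet_Icc]
  simp only [integral_const, MeasurableSet.univ, measureReal_restrict_apply, univ_inter,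
    Real.volume_real_Icc, smul_eq_mul]
  rw [max_eq_left (by linarith)]
  ring

lemma KR_int_abs {B : ℝ} (hB0 : 0 ≤ B) (hB : ∀ y, |y| ^ 2 * |K0.G y| ≤ B) (hr1 : 2 * r ≤ 1) :
    ∫ w in Ioi (0 : ℝ), |(KR r R hr hR).G w| ≤ 2 * (∫ y, |K0.G y|) + 8 * B := by
  have hM : 0 ≤ ∫ y, |K0.G y| := integral_nonneg fun y => abs_nonneg _
  have hi : Integrable fun w => |(KR r R hr hR).G w| := (KR r R hr hR).G_integrable.abs
  rw [← Ioc_union_Ioi_eq_Ioi (zero_le_one (α := ℝ)), setIntegral_union (Ioc_disjoint_Ioi le_rfl)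
    measurableSet_Ioi hi.integrableOn hi.integrableOn]
  have h1 : ∫ w in Ioc (0 : ℝ) 1, |(KR r R hr hR).G w| ≤ ∫ w in Ioc (0 : ℝ) 1, ∫ y, |K0.G y| := by
    refine setIntegral_mono_on hi.integrableOn ?_ measurableSet_Ioc fun w _ => KR_abs_le hr hR w
    exact integrableOn_const (by simp)
  have h2 : ∫ w in Ioi (1 : ℝ), |(KR r R hr hR).G w|
      ≤ ∫ w in Ioi (1 : ℝ), ((∫ y, |K0.G y|) + 8 * B) * w ^ (-2 : ℝ) := by
    refine setIntegral_mono_on hi.integrableOn
      ((integrableOn_Ioi_rpow_of_lt (by norm_num) zero_lt_one).const_mul _) measurableSet_Ioi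
      fun w hw => ?_
    have hw0 : (0 : ℝ) < w := lt_trans zero_lt_one hw
    refine (KR_decay hr hR hB0 hB hr1 hw0).trans (le_of_eq ?_)
    have e5 : w ^ (-2 : ℝ) = (w ^ 2)⁻¹ := by
      rw [Real.rpow_neg hw0.le]; norm_num
    rw [e5, div_eq_mul_inv]
  have e4 : ∫ x in Ioi (1 : ℝ), x ^ (-2 : ℝ) = 1 := by
    rw [integral_Ioi_rpow_of_lt (by norm_num) zero_lt_one]
    norm_num
  rw [integral_const_mul, e4] at h2
  simp only [integral_const, MeasurableSet.univ, measureReal_restrict_apply, univ_inter,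
    Real.volume_real_Ioc, smul_eq_mul] at h1
  norm_num at h1
  linarith

lemma KR_m2 {B : ℝ} (hB0 : 0 ≤ B) (hB : ∀ y, |y| ^ 2 * |K0.G y| ≤ B) (hr1 : 2 * r ≤ 1) {e : ℝ}
    (he : 0 < e) (hre : 0 ≤ r - e) :
    (KR r R hr hR).m2 ≤ 2 * ((r - e) * (1 + 2 * B / (R * e)) ^ 2 + 2 * e * (∫ y, |K0.G y|) ^ 2
      + B / (R * e) * (2 * (∫ y, |K0.G y|) + 8 * B)) := by
  have hR0 : 0 < R := by linarith
  have hM : 0 ≤ ∫ y, |K0.G y| := integral_nonneg fun y => abs_nonneg _
  have hi : Integrable fun w => (KR r R hr hR).G w ^ 2 := (KR r R hr hR).G_sq_integrable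
  have h0 := (KR r R hr hR).integral_G_sq_Ioi
  have e1 : Ioi (0 : ℝ) = Ioc 0 (r - e) ∪ (Ioc (r - e) (r + e) ∪ Ioi (r + e)) := by
    rw [Ioc_union_Ioi_eq_Ioi (by linarith), Ioc_union_Ioi_eq_Ioi hre]
  have hd1 : Disjoint (Ioc (r - e) (r + e)) (Ioi (r + e)) := Ioc_disjoint_Ioi le_rfl
  have hd2 : Disjoint (Ioc 0 (r - e)) (Ioc (r - e) (r + e) ∪ Ioi (r + e)) := by
    rw [Ioc_union_Ioi_eq_Ioi (by linarith)]
    exact Ioc_disjoint_Ioi le_rfl
  rw [e1, setIntegral_union hd2 (measurableSet_Ioc.union measurableSet_Ioi) hi.integrableOn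
    hi.integrableOn, setIntegral_union hd1 measurableSet_Ioi hi.integrableOn hi.integrableOn] at h0
  have h1 : ∫ w in Ioc 0 (r - e), (KR r R hr hR).G w ^ 2
      ≤ ∫ w in Ioc 0 (r - e), (1 + 2 * B / (R * e)) ^ 2 := by
    refine setIntegral_mono_on hi.integrableOn (integrableOn_const (by simp)) measurableSet_Ioc
      fun w hw => ?_
    have hw1 : |w| ≤ r - e := by rw [abs_of_pos hw.1]; exact hw.2
    have h2 := KR_near hr hR hB he hw1
    have h3 : |(KR r R hr hR).G w| ≤ 1 + 2 * B / (R * e) := by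
      have h4 := abs_sub_abs_le_abs_sub ((KR r R hr hR).G w) 1
      rw [abs_one] at h4
      linarith
    rw [← sq_abs]
    gcongr
  have h2 : ∫ w in Ioc (r - e) (r + e), (KR r R hr hR).G w ^ 2
      ≤ ∫ w in Ioc (r - e) (r + e), (∫ y, |K0.G y|) ^ 2 := by
    refine setIntegral_mono_on hi.integrableOn (integrableOn_const (by simp)) measurableSet_Ioc
      fun w _ => ?_
    have h3 := KR_abs_le hr hR w
    rw [← sq_abs]
    gcongr
  have h3 : ∫ w in Ioi (r + e), (KR r R hr hR).G w ^ 2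
      ≤ ∫ w in Ioi (r + e), B / (R * e) * |(KR r R hr hR).G w| := by
    refine setIntegral_mono_on hi.integrableOn
      ((KR r R hr hR).G_integrable.abs.const_mul _).integrableOn measurableSet_Ioi fun w hw => ?_
    have hw1 : r + e < w := hw
    have h4 := KR_far hr hR hB (by linarith : r < w)
    have h5 : B / (R * (w - r)) ≤ B / (R * e) := by
      gcongr
      linarith
    rw [← sq_abs, sq]
    gcongr
    exact h4.trans h5
  have h4 : ∫ w in Ioi (r + e), |(KR r R hr hR).G w| ≤ ∫ w in Ioi (0 : ℝ), |(KR r R hr hR).G w| :=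
    setIntegral_mono_set (KR r R hr hR).G_integrable.abs.integrableOn
      (Eventually.of_forall fun y => abs_nonneg _) (Ioi_subset_Ioi (by linarith)).eventuallyLE
  have h5 := KR_int_abs hr hR hB0 hB hr1
  rw [integral_const_mul] at h3
  have h6 : B / (R * e) * ∫ w in Ioi (r + e), |(KR r R hr hR).G w|
      ≤ B / (R * e) * (2 * (∫ y, |K0.G y|) + 8 * B) := by
    gcongr
    exact h4.trans h5
  simp only [integral_const, MeasurableSet.univ, measureReal_restrict_apply, univ_inter,
    Real.volume_real_Ioc, smul_eq_mul] at h1 h2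
  rw [max_eq_left (by linarith)] at h1 h2
  have e2 : r + e - (r - e) = 2 * e := by ring
  rw [e2] at h2
  rw [sub_zero] at h1
  linarith

end bounds

/-- a family of kernels with polynomial constants -/
theorem exists_good_rate : ∃ C0 : ℝ, 1 ≤ C0 ∧ ∃ N : ℕ, ∀ ε : ℝ, 0 < ε → ε ≤ 1 → ∃ K : Ker,
    Real.pi * K.m2 ≤ 1 + ε ∧
    (∀ u : ℝ, |u| ≤ 1 → 1 - ε ≤ ∫ v, K.g v * Real.cos (u * v)) ∧
    K.L ≤ C0 * (1 / ε) ^ N ∧ K.ml ≤ C0 * (1 / ε) ^ N ∧ K.B1 ≤ C0 * (1 / ε) ^ N ∧
    (∀ w, |K.G w| ≤ C0 * (1 / ε) ^ N) ∧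
    (∀ w, 0 < w → |K.G w| ≤ C0 * (1 / ε) ^ N / w ^ 2) := by
  obtain ⟨B, hB0, hB⟩ := K0.G_decay 2
  set M := ∫ y, |K0.G y| with hMdef
  have hM : 0 ≤ M := integral_nonneg fun y => abs_nonneg _
  have hpi3 := Real.pi_gt_three
  have hpi4 := Real.pi_lt_four
  have hpi0 := Real.pi_pos
  set C2 := 4 + 4 * B + 68 * B ^ 2 + 16 * M ^ 2 + 16 * B * M with hC2
  have hC24 : 4 ≤ C2 := by
    have : 0 ≤ 4 * B + 68 * B ^ 2 + 16 * M ^ 2 + 16 * B * M := by positivity
    linarith
  have hC2B : 4 * B ≤ C2 := by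
    have : 0 ≤ 68 * B ^ 2 + 16 * M ^ 2 + 16 * B * M := by positivity
    linarith
  refine ⟨4 * C2 ^ 2 + 2 * M + 8 * B, by linarith [pow_le_pow_left₀ (by norm_num : (0 : ℝ) ≤ 4) hC24 2], 2, fun ε hε hε1 => ?_⟩
  set e := ε / C2 with he
  have hC20 : 0 < C2 := by linarith
  have he0 : 0 < e := by positivity
  have hec : e * C2 = ε := by rw [he]; field_simp
  have he14 : e ≤ 1 / 4 := by
    rw [he, div_le_div_iff₀ hC20 (by norm_num)]
    linarith
  set r := 1 / (2 * Real.pi) + e with hrdef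
  have hr : 0 ≤ r := by positivity
  have hre : r - e = 1 / (2 * Real.pi) := by rw [hrdef]; ring
  have hp1 : 1 / (2 * Real.pi) ≤ 1 / 6 := by
    rw [div_le_div_iff₀ (by positivity) (by norm_num)]
    linarith
  have hr1 : 2 * r ≤ 1 := by rw [hrdef]; linarith
  set R := 1 / e ^ 2 with hRdef
  have hR : 1 ≤ R := by
    rw [hRdef, le_div_iff₀ (by positivity)]
    linarith [pow_le_one₀ he0.le (by linarith : e ≤ 1) (n := 2)]
  have hRe : R * e = 1 / e := by rw [hRdef]; field_simp
  have hR2 : R = C2 ^ 2 * (1 / ε) ^ 2 := by rw [hRdef, he]; field_simp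
  have hq : 1 ≤ (1 / ε) ^ 2 := by
    refine one_le_pow₀ ?_
    rw [le_div_iff₀ hε]
    linarith
  have hMB : M + 8 * B ≤ (4 * C2 ^ 2 + 2 * M + 8 * B) * (1 / ε) ^ 2 := by
    have h0 : 0 ≤ 4 * C2 ^ 2 + 2 * M + 8 * B := by positivity
    have h1 : M + 8 * B ≤ 4 * C2 ^ 2 + 2 * M + 8 * B := by
      have : 0 ≤ 4 * C2 ^ 2 + M := by positivity
      linarith
    exact h1.trans (le_mul_of_one_le_right h0 hq)
  refine ⟨KR r R hr hR, ?_, ?_, ?_, ?_, ?_, ?_, ?_⟩
  · have h1 := KR_m2 hr hR hB0.le hB hr1 he0 (by rw [hre]; positivity)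
    rw [← hMdef, hre, hRe] at h1
    have e1 : 2 * B / (1 / e) = 2 * B * e := by field_simp
    have e2 : B / (1 / e) = B * e := by field_simp
    rw [e1, e2] at h1
    have e3 : Real.pi * (2 * (1 / (2 * Real.pi) * (1 + 2 * B * e) ^ 2 + 2 * e * M ^ 2
        + B * e * (2 * M + 8 * B))) = (1 + 2 * B * e) ^ 2
          + Real.pi * (4 * e * M ^ 2 + 2 * B * e * (2 * M + 8 * B)) := by
      field_simp
      ring
    have h2 : Real.pi * (4 * e * M ^ 2 + 2 * B * e * (2 * M + 8 * B))
        ≤ 4 * (4 * e * M ^ 2 + 2 * B * e * (2 * M + 8 * B)) := by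
      gcongr
    have h3 : (2 * B * e) ^ 2 ≤ 4 * B ^ 2 * e := by
      have : e ^ 2 ≤ e := by
        rw [sq]; linarith [mul_le_mul_of_nonneg_left (by linarith : e ≤ 1) he0.le]
      calc (2 * B * e) ^ 2 = 4 * B ^ 2 * e ^ 2 := by ring
        _ ≤ 4 * B ^ 2 * e := by gcongr
    calc Real.pi * (KR r R hr hR).m2 ≤ Real.pi * (2 * (1 / (2 * Real.pi) * (1 + 2 * B * e) ^ 2
          + 2 * e * M ^ 2 + B * e * (2 * M + 8 * B))) := by gcongr
      _ ≤ (1 + 2 * B * e) ^ 2 + 4 * (4 * e * M ^ 2 + 2 * B * e * (2 * M + 8 * B)) := by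
          rw [e3]; linarith
      _ ≤ 1 + e * (4 + 4 * B + 68 * B ^ 2 + 16 * M ^ 2 + 16 * B * M) := by
          linarith
      _ = 1 + ε := by rw [← hC2, hec]
  · intro u hu
    have h1 : |u / (2 * Real.pi)| ≤ r - e := by
      rw [hre, abs_div, abs_of_pos (by positivity : (0 : ℝ) < 2 * Real.pi)]
      gcongr
    have h2 := KR_near hr hR hB he0 h1
    rw [hRe] at h2
    have e1 : 2 * B / (1 / e) = 2 * B * e := by field_simp
    rw [e1] at h2
    have h3 : 2 * B * e ≤ ε := by
      rw [← hec]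
      linarith [mul_le_mul_of_nonneg_left hC2B he0.le, mul_pos hB0 he0]
    have h4 := (abs_le.mp h2).1
    rw [Ker.G_eq_integral] at h4
    have e2 : ∀ v : ℝ, 2 * Real.pi * v * (u / (2 * Real.pi)) = u * v := fun v => by field_simp
    simp_rw [e2] at h4
    linarith
  · change 2 * R ≤ _
    rw [hR2]
    have : 0 ≤ (2 * M + 8 * B + 2 * C2 ^ 2) * (1 / ε) ^ 2 := by positivity
    linarith
  · refine (KR_ml hr hR).trans ?_
    have h1 : 8 * R * r ≤ 4 * R := by
      linarith [mul_le_mul_of_nonneg_left hr1 (by linarith : (0 : ℝ) ≤ 4 * R)]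
    refine h1.trans ?_
    rw [hR2]
    have : 0 ≤ (2 * M + 8 * B) * (1 / ε) ^ 2 := by positivity
    linarith
  · refine (KR_B1 hr hR).trans ?_
    rw [← hMdef]
    have h0 : 0 ≤ 4 * C2 ^ 2 + 2 * M + 8 * B := by positivity
    have h1 : 2 * M ≤ 4 * C2 ^ 2 + 2 * M + 8 * B := by
      have : 0 ≤ 4 * C2 ^ 2 + 8 * B := by positivity
      linarith
    exact h1.trans (le_mul_of_one_le_right h0 hq)
  · intro w
    refine (KR_abs_le hr hR w).trans ?_
    rw [← hMdef]
    linarith
  · intro w hw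
    refine (KR_decay hr hR hB0.le hB hr1 hw).trans ?_
    rw [← hMdef]
    gcongr

end Pool.Agent.Lib.MP_f9aece_nt_rt
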