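import Mathlib
import Pool.Agent.Lib.MP_f9aece_nt_h97.TSM
import Pool.Agent.Lib.MP_f9aece_nt_rt.Explicit
import Pool.Agent.Lib.MP_f9aece_nt_rt.Kernel

/-!
The twisted second moment of zeta: an upper bound with the sharp leading constant and polynomial
dependence on `ε`.
-/

set_option autoImplicit false

namespace Pool.Agent.Lib.MP_f9aece_nt_rt

open MeasureTheory Set Filter Topology Complex
open Pool.Agent.Lib.MP_f9aece_nt
open Pool.Agent.Lib.MP_f9aece_nt_h97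

/-! ### moments of the transform -/

lemma moment_aux {B : ℝ} (f h : ℝ → ℝ) (hf : IntegrableOn f (Ioi 0))
    (hh : IntegrableOn h (Ioc 0 1)) (h1 : ∀ x ∈ Ioc (0 : ℝ) 1, f x ≤ B ^ 2 * h x)
    (h2 : ∀ x ∈ Ioi (1 : ℝ), f x ≤ B ^ 2 * x ^ (-2 : ℝ)) :
    ∫ x in Ioi (0 : ℝ), f x ≤ B ^ 2 * ((∫ x in Ioc (0 : ℝ) 1, h x) + 1) := by
  have e1 : ∫ x in Ioi (0 : ℝ), f x = (∫ x in Ioc (0 : ℝ) 1, f x) + ∫ x in Ioi (1 : ℝ), f x := by
    rw [← setIntegral_union (Ioc_disjoint_Ioi le_rfl) measurableSet_Ioi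
      (hf.mono_set Ioc_subset_Ioi_self) (hf.mono_set (Ioi_subset_Ioi zero_le_one)),
      Ioc_union_Ioi_eq_Ioi zero_le_one]
  have e2 : ∫ x in Ioc (0 : ℝ) 1, f x ≤ B ^ 2 * ∫ x in Ioc (0 : ℝ) 1, h x := by
    rw [← integral_const_mul]
    exact setIntegral_mono_on (hf.mono_set Ioc_subset_Ioi_self) (hh.const_mul _)
      measurableSet_Ioc h1
  have e3 : ∫ x in Ioi (1 : ℝ), f x ≤ B ^ 2 * 1 := by
    have e4 : ∫ x in Ioi (1 : ℝ), x ^ (-2 : ℝ) = 1 := by
      rw [integral_Ioi_rpow_of_lt (by norm_num) zero_lt_one]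
      norm_num
    have e5 : ∫ x in Ioi (1 : ℝ), f x ≤ ∫ x in Ioi (1 : ℝ), B ^ 2 * x ^ (-2 : ℝ) :=
      setIntegral_mono_on (hf.mono_set (Ioi_subset_Ioi zero_le_one))
        ((integrableOn_Ioi_rpow_of_lt (by norm_num) zero_lt_one).const_mul _) measurableSet_Ioi h2
    rw [integral_const_mul, e4] at e5
    exact e5
  rw [e1]
  linarith

lemma G_sq_le (K : Ker) {B : ℝ} (h0 : ∀ w, |K.G w| ≤ B) (w : ℝ) : K.G w ^ 2 ≤ B ^ 2 := by
  rw [← sq_abs]
  have := h0 w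
  gcongr

lemma G_sq_le' (K : Ker) {B : ℝ} (h2 : ∀ w, 0 < w → |K.G w| ≤ B / w ^ 2) {w : ℝ}
    (hw : 1 < w) : K.G w ^ 2 ≤ B ^ 2 * w ^ (-2 : ℝ) * w⁻¹ * w⁻¹ := by
  have hw0 : 0 < w := by linarith
  rw [← sq_abs]
  calc |K.G w| ^ 2 ≤ (B / w ^ 2) ^ 2 := by
        have := h2 w hw0
        gcongr
    _ = B ^ 2 * w ^ (-2 : ℝ) * w⁻¹ * w⁻¹ := by
        have : w ^ (-2 : ℝ) = (w ^ 2)⁻¹ := by
          rw [Real.rpow_neg hw0.le]
          norm_num
        rw [this]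
        field_simp

/-- moments of the transform from the sup bounds -/
theorem moments_le (K : Ker) {B : ℝ} (hB : 1 ≤ B) (h0 : ∀ w, |K.G w| ≤ B)
    (h2 : ∀ w, 0 < w → |K.G w| ≤ B / w ^ 2) :
    K.I1 ≤ 10 * B ^ 2 ∧ K.I2 ≤ 10 * B ^ 2 ∧ |K.c2| ≤ 40 * B ^ 2 ∧ K.m2 ≤ 10 * B ^ 2 := by
  have hB0 : 0 ≤ B := by linarith
  have hB2 : 0 ≤ B ^ 2 := by positivity
  have hhalf : IntegrableOn (fun x : ℝ => x ^ (-(1 / 2) : ℝ)) (Ioc 0 1) :=
    (intervalIntegrable_iff_integrableOn_Ioc_of_le zero_le_one).mp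
      (intervalIntegral.intervalIntegrable_rpow' (by norm_num))
  have hhalf2 : ∫ x in Ioc (0 : ℝ) 1, x ^ (-(1 / 2) : ℝ) = 2 := by
    rw [← intervalIntegral.integral_of_le zero_le_one, integral_rpow (Or.inl (by norm_num))]
    norm_num
  have hone : IntegrableOn (fun _ : ℝ => (1 : ℝ)) (Ioc 0 1) := by
    simp
  have hone2 : ∫ _x in Ioc (0 : ℝ) 1, (1 : ℝ) = 1 := by
    simp
  have b1 : K.I1 ≤ B ^ 2 * (2 + 1) := by
    have := moment_aux (B := B) (fun u => K.G u ^ 2 * u ^ (-(1 / 2) : ℝ)) _ K.int_I1 hhalf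
      (fun x hx => by
        have hx0 := hx.1
        have := G_sq_le K h0 x
        gcongr)
      (fun x hx => by
        have hx1 : (1 : ℝ) < x := hx
        have hx0 : (0 : ℝ) < x := by linarith
        have g1 := G_sq_le' K h2 hx1
        have g2 : x⁻¹ ≤ 1 := inv_le_one_of_one_le₀ hx1.le
        have g3 : x ^ (-(1 / 2) : ℝ) ≤ 1 :=
          Real.rpow_le_one_of_one_le_of_nonpos hx1.le (by norm_num)
        have g4 : 0 ≤ x ^ (-(1 / 2) : ℝ) := by positivity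
        have g5 : 0 ≤ x ^ (-2 : ℝ) := by positivity
        calc K.G x ^ 2 * x ^ (-(1 / 2) : ℝ) ≤ (B ^ 2 * x ^ (-2 : ℝ) * x⁻¹ * x⁻¹) * 1 := by gcongr
          _ ≤ (B ^ 2 * x ^ (-2 : ℝ) * 1 * 1) * 1 := by gcongr
          _ = _ := by ring)
    rw [hhalf2] at this
    exact this
  have b2 : K.I2 ≤ B ^ 2 * (1 + 1) := by
    have := moment_aux (B := B) (fun u => K.G u ^ 2 * u) _ K.int_I2 hone
      (fun x hx => by
        have hx0 := hx.1
        have hx1 := hx.2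
        have := G_sq_le K h0 x
        gcongr)
      (fun x hx => by
        have hx1 : (1 : ℝ) < x := hx
        have hx0 : (0 : ℝ) < x := by linarith
        have g1 := G_sq_le' K h2 hx1
        have g2 : x⁻¹ ≤ 1 := inv_le_one_of_one_le₀ hx1.le
        have g5 : 0 ≤ x ^ (-2 : ℝ) := by positivity
        calc K.G x ^ 2 * x ≤ (B ^ 2 * x ^ (-2 : ℝ) * x⁻¹ * x⁻¹) * x := by gcongr
          _ = B ^ 2 * x ^ (-2 : ℝ) * x⁻¹ := by field_simp
          _ ≤ B ^ 2 * x ^ (-2 : ℝ) * 1 := by gcongr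
          _ = _ := by ring)
    rw [hone2] at this
    exact this
  have b3 : |K.c2| ≤ 2 * K.I1 + K.I2 := by
    have hb := (K.int_I1.const_mul 2).add K.int_I2
    have e1 : 2 * K.I1 + K.I2 = ∫ x in Ioi (0 : ℝ),
        (2 * (K.G x ^ 2 * x ^ (-(1 / 2) : ℝ)) + K.G x ^ 2 * x) := by
      rw [integral_add (K.int_I1.const_mul 2) K.int_I2, integral_const_mul]
      rfl
    rw [e1]
    unfold Ker.c2
    rw [← Real.norm_eq_abs]
    refine norm_integral_le_of_norm_le hb ?_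
    filter_upwards [ae_restrict_mem measurableSet_Ioi] with x hx
    have hx0 : (0 : ℝ) < x := hx
    rw [Real.norm_eq_abs, abs_mul, abs_of_nonneg (by positivity : (0 : ℝ) ≤ K.G x ^ 2)]
    have h1 : |Real.log x| ≤ 2 * x ^ (-(1 / 2) : ℝ) + x := by
      have h2 := Real.log_le_sub_one_of_pos (x := x ^ (-(1 / 2) : ℝ)) (by positivity)
      rw [Real.log_rpow hx0] at h2
      have h3 := Real.log_le_sub_one_of_pos hx0
      have h4 : 0 ≤ x ^ (-(1 / 2) : ℝ) := by positivity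
      rw [abs_le]
      constructor <;> linarith
    calc K.G x ^ 2 * |Real.log x| ≤ K.G x ^ 2 * (2 * x ^ (-(1 / 2) : ℝ) + x) := by gcongr
      _ = _ := by ring
  have b4 : K.m2 / 2 ≤ B ^ 2 * (1 + 1) := by
    rw [← K.integral_G_sq_Ioi]
    have := moment_aux (B := B) (fun u => K.G u ^ 2) _ K.G_sq_integrable.integrableOn hone
      (fun x hx => by
        have := G_sq_le K h0 x
        linarith)
      (fun x hx => by
        have hx1 : (1 : ℝ) < x := hx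
        have hx0 : (0 : ℝ) < x := by linarith
        have g1 := G_sq_le' K h2 hx1
        have g2 : x⁻¹ ≤ 1 := inv_le_one_of_one_le₀ hx1.le
        have g5 : 0 ≤ x ^ (-2 : ℝ) := by positivity
        calc K.G x ^ 2 ≤ (B ^ 2 * x ^ (-2 : ℝ) * x⁻¹ * x⁻¹) := by gcongr
          _ ≤ B ^ 2 * x ^ (-2 : ℝ) * 1 * 1 := by gcongr
          _ = _ := by ring)
    rw [hone2] at this
    exact this
  refine ⟨by linarith, by linarith, by linarith, by linarith⟩

lemma CT_nonneg (K : Ker) {B0 B2 : ℝ} (hB0 : 0 ≤ B0) : 0 ≤ CT K B0 B2 := by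
  have hm2 := K.m2_nonneg
  have hI1 := K.I1_nonneg
  have hI2 := K.I2_nonneg
  have hB1 := K.B1_nonneg
  unfold CT
  positivity

lemma CT_le (K : Ker) {B : ℝ} (hB : 1 ≤ B) (h0 : ∀ w, |K.G w| ≤ B)
    (h2 : ∀ w, 0 < w → |K.G w| ≤ B / w ^ 2) (hml : K.ml ≤ B) (hB1 : K.B1 ≤ B) :
    CT K B B ≤ (1000 + 100 * |γE|) * B ^ 2 := by
  obtain ⟨a1, a2, a3, a4⟩ := moments_le K hB h0 h2
  have hm2 := K.m2_nonneg
  have hml0 := K.ml_nonneg
  have hB10 := K.B1_nonneg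
  have hg : 0 ≤ |γE| := abs_nonneg _
  have c1 : K.m2 * |γE| ≤ 10 * B ^ 2 * |γE| := by gcongr
  have c2 : B * K.B1 ≤ B * B := by gcongr
  have c3 : K.ml ^ 2 ≤ B ^ 2 := by gcongr
  unfold CT
  nlinarith

/-! ### the twisted second moment -/

/-- the twisted second moment, with explicit conditions -/
theorem tsm_explicit {ε : ℝ} (hε : 0 < ε) (hε1 : ε ≤ 1) (K : Ker)
    (hK1 : Real.pi * K.m2 ≤ 1 + ε / 16)
    (hK2 : ∀ u : ℝ, |u| ≤ 1 → 1 - ε / 16 ≤ ∫ v, K.g v * Real.cos (u * v))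
    {B : ℝ} (hB : 1 ≤ B) (h0 : ∀ w, |K.G w| ≤ B) (h2 : ∀ w, 0 < w → |K.G w| ≤ B / w ^ 2)
    {T : ℝ} (hTa : 4 * K.L ^ 2 + (2 * K.L + 1) ^ 8 ≤ T)
    (hTb : 4 * K.L ^ 2 * K.ml * 16 / ε ≤ T) (D : DP) (H : ℝ) (hH : 1 ≤ H)
    (hD : ∀ n, D.coeff n ≠ 0 → 1 ≤ n ∧ (n : ℝ) ≤ H) :
    ∫ t in (0 : ℝ)..T, ‖riemannZeta (1 / 2 + I * t) * ev t D‖ ^ 2
      ≤ T * ((1 + ε) * (Real.log T * |BK K2 D D| + |BK KL D D|)
        + 2 * Real.pi * CT K B B * |BK K2 D D|
        + 2 * Real.pi * CT K B B * (nrm D * H) ^ 2 / T ^ (1 / 16 : ℝ)) := by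
  have hC2 := total_explicit K (B0 := B) (B2 := B) (by linarith) (by linarith) h0 h2
  have hC : 0 ≤ CT K B B := CT_nonneg K (by linarith)
  set C := CT K B B with hCdef
  have hL := K.hL
  have hml := K.ml_nonneg
  have hm2 := K.m2_nonneg
  have hpi := Real.pi_pos
  have h8 : 0 ≤ (2 * K.L + 1) ^ 8 := by positivity
  have hT4 : 4 * K.L ^ 2 ≤ T := by linarith
  have hT0 : 0 < T := by nlinarith
  have hT1 : 1 ≤ T := by nlinarith
  have hT2 : 2 * K.L ≤ T := by nlinarith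
  have hD1 : ∀ n, D.coeff n ≠ 0 → 1 ≤ n := fun n hn => (hD n hn).1
  set τ := T ^ (1 / 16 : ℝ) with hτ
  have hτ16 : τ ^ 16 = T := by
    rw [hτ, ← Real.rpow_natCast, ← Real.rpow_mul hT0.le]; norm_num
  have hτ1 : 1 ≤ τ := Real.one_le_rpow hT1 (by norm_num)
  have hτ0 : 0 < τ := by linarith
  have hτ2 : 2 * K.L < τ ^ 2 := by
    by_contra hc
    push Not at hc
    have : τ ^ 16 ≤ (2 * K.L) ^ 8 := by
      have : τ ^ 16 = (τ ^ 2) ^ 8 := by ring
      rw [this]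
      gcongr
    rw [hτ16] at this
    have h9 : (2 * K.L) ^ 8 ≤ (2 * K.L + 1) ^ 8 := by gcongr; linarith
    nlinarith
  have h1 := hC2 τ hτ1 hτ2 D H hH hD
  rw [hτ16] at h1
  have h2 := K.weighted hT2 hD1
  set S := BK K2 D D with hS
  set G := BK KL D D with hG
  set δ := ε / 16 with hδ
  have hδ0 : 0 < δ := by positivity
  have hδ1 : δ ≤ 1 / 16 := by rw [hδ]; linarith
  have hlow : ∀ t ∈ Ioc (0 : ℝ) T, (1 - 2 * δ) / T
      ≤ ‖mellin (fun x => (K.phi T x : ℂ)) (1 / 2 + I * t)‖ := by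
    intro t ht
    have := K.mellin_lower hK2 hT4 ht.1.le ht.2
    refine le_trans (div_le_div_of_nonneg_right ?_ hT0.le) this
    have : 4 * K.L ^ 2 * K.ml / T ≤ δ := by
      rw [div_le_iff₀ hT0]
      rw [div_le_iff₀ hε] at hTb
      rw [hδ]; linarith
    linarith
  have h3 : ((1 - 2 * δ) / T) ^ 2 * ∫ t in (0 : ℝ)..T, ‖riemannZeta (1 / 2 + I * t) * ev t D‖ ^ 2
      ≤ ∫ t in (0 : ℝ)..T, ‖riemannZeta (1 / 2 + I * t) * ev t D‖ ^ 2
        * ‖mellin (fun x => (K.phi T x : ℂ)) (1 / 2 + I * t)‖ ^ 2 := by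
    rw [← intervalIntegral.integral_const_mul, intervalIntegral.integral_of_le hT0.le,
      intervalIntegral.integral_of_le hT0.le]
    have hcont : Continuous (fun t : ℝ => ((1 - 2 * δ) / T) ^ 2
        * ‖riemannZeta (1 / 2 + I * t) * ev t D‖ ^ 2) := by
      exact continuous_const.mul ((continuous_zeta.mul (continuous_ev D)).norm.pow 2)
    refine setIntegral_mono_on ?_ (K.weighted_int hT2 hD1) measurableSet_Ioc ?_
    · exact (hcont.integrableOn_Icc (a := 0) (b := T)).mono_set Ioc_subset_Icc_self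
    · intro t ht
      have := hlow t ht
      have h4 : ((1 - 2 * δ) / T) ^ 2 ≤ ‖mellin (fun x => (K.phi T x : ℂ)) (1 / 2 + I * t)‖ ^ 2 := by
        have : 0 ≤ (1 - 2 * δ) / T := by
          apply div_nonneg _ hT0.le
          linarith
        gcongr
      rw [mul_comm]
      gcongr
  set J := ∫ t in (0 : ℝ)..T, ‖riemannZeta (1 / 2 + I * t) * ev t D‖ ^ 2 with hJ
  have h5 : ((1 - 2 * δ) / T) ^ 2 * J ≤ Real.pi * (1 / T * (K.m2 * (Real.log T * S - G) + C * |S|)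
      + C * (nrm D * H) ^ 2 / τ ^ 17) := by
    refine (h3.trans h2).trans ?_
    gcongr
  have hτ17 : τ ^ 17 = T * τ := by rw [← hτ16]; ring
  rw [hτ17] at h5
  have hlogT : 0 ≤ Real.log T := Real.log_nonneg hT1
  have h6 : (1 - 2 * δ) ^ 2 * J ≤ T * ((1 + δ) * (Real.log T * |S| + |G|) + Real.pi * C * |S|
      + Real.pi * C * (nrm D * H) ^ 2 / τ) := by
    have e1 : (1 - 2 * δ) ^ 2 * J = T ^ 2 * (((1 - 2 * δ) / T) ^ 2 * J) := by
      field_simp
    rw [e1]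
    calc T ^ 2 * (((1 - 2 * δ) / T) ^ 2 * J)
        ≤ T ^ 2 * (Real.pi * (1 / T * (K.m2 * (Real.log T * S - G) + C * |S|)
          + C * (nrm D * H) ^ 2 / (T * τ))) := by gcongr
      _ = T * ((Real.pi * K.m2) * (Real.log T * S - G) + Real.pi * C * |S|
          + Real.pi * C * (nrm D * H) ^ 2 / τ) := by
          field_simp
      _ ≤ _ := by
          have a1 : Real.log T * S - G ≤ Real.log T * |S| + |G| := by
            have b1 : Real.log T * S ≤ Real.log T * |S| := by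
              gcongr; exact le_abs_self _
            have b2 := neg_abs_le G
            linarith
          have a2 : (Real.pi * K.m2) * (Real.log T * S - G)
              ≤ (1 + δ) * (Real.log T * |S| + |G|) := by
            calc (Real.pi * K.m2) * (Real.log T * S - G)
                ≤ (Real.pi * K.m2) * (Real.log T * |S| + |G|) := by gcongr
              _ ≤ _ := by gcongr
          gcongr
  -- divide by the factor
  have hJ0 : 0 ≤ J := intervalIntegral.integral_nonneg hT0.le fun t _ => by positivity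
  set A := Real.log T * |S| + |G| with hA
  have hA0 : 0 ≤ A := by positivity
  set B' := Real.pi * C * |S| with hB'
  have hB0 : 0 ≤ B' := by positivity
  set E := Real.pi * C * (nrm D * H) ^ 2 / τ with hE
  have hE0 : 0 ≤ E := by positivity
  have h7 : (1 - 2 * δ) ^ 2 * J ≤ (1 + δ) * (T * A) + T * (B' + E) := by
    refine h6.trans (le_of_eq ?_)
    ring
  have h8 := final_aux hδ0.le hδ1 (by positivity : 0 ≤ T * A) (by positivity : 0 ≤ T * (B' + E)) hJ0 h7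
  refine h8.trans (le_of_eq ?_)
  have e1 : 16 * δ = ε := by rw [hδ]; ring
  rw [e1]
  have e2 : 2 * Real.pi * C * |S| = 2 * B' := by rw [hB']; ring
  have e3 : 2 * Real.pi * C * (nrm D * H) ^ 2 / τ = 2 * E := by rw [hE]; ring
  rw [e2, e3]
  ring

/-- the twisted second moment, with polynomial dependence on `ε` -/
theorem tsm_rate : ∃ C0 : ℝ, 1 ≤ C0 ∧ ∃ N : ℕ, ∀ ε : ℝ, 0 < ε → ε ≤ 1 → ∀ T : ℝ,
    C0 * (1 / ε) ^ N ≤ T → ∀ (D : DP) (H : ℝ), 1 ≤ H →
    (∀ n, D.coeff n ≠ 0 → 1 ≤ n ∧ (n : ℝ) ≤ H) →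
    ∫ t in (0 : ℝ)..T, ‖riemannZeta (1 / 2 + I * t) * ev t D‖ ^ 2
      ≤ T * ((1 + ε) * (Real.log T * |BK K2 D D| + |BK KL D D|)
        + C0 * (1 / ε) ^ N * |BK K2 D D|
        + C0 * (1 / ε) ^ N * (nrm D * H) ^ 2 / T ^ (1 / 16 : ℝ)) := by
  obtain ⟨C1, hC1, N, hK⟩ := exists_good_rate
  set g := |γE| with hg
  have hg0 : 0 ≤ g := abs_nonneg _
  -- `B = C1 * (16 / ε) ^ N`
  set M := (C1 * 16 ^ N) ^ 8 with hM
  have hC16 : 1 ≤ C1 * 16 ^ N := by
    have : (1 : ℝ) ≤ 16 ^ N := one_le_pow₀ (by norm_num)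
    nlinarith
  have hM1 : 1 ≤ M := one_le_pow₀ hC16
  refine ⟨(20000 + 800 * g) * M, by nlinarith, 8 * N + 1, ?_⟩
  intro ε hε hε1 T hT D H hH hD
  obtain ⟨K, k1, k2, k3, k4, k5, k6, k7⟩ := hK (ε / 16) (by positivity) (by linarith)
  set q := 1 / ε with hq
  have hq1 : 1 ≤ q := by rw [hq, le_div_iff₀ hε]; linarith
  have hB' : C1 * (1 / (ε / 16)) ^ N = (C1 * 16 ^ N) * q ^ N := by
    have : 1 / (ε / 16) = 16 * q := by rw [hq]; field_simp
    rw [this, mul_pow]; ring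
  rw [hB'] at k3 k4 k5
  simp only [hB'] at k6 k7
  set B := (C1 * 16 ^ N) * q ^ N with hBdef
  have hqN : 1 ≤ q ^ N := one_le_pow₀ hq1
  have hB1 : 1 ≤ B := by nlinarith
  have hB8 : B ^ 8 * q = M * q ^ (8 * N + 1) := by
    have e1 : q ^ (8 * N + 1) = (q ^ N) ^ 8 * q := by rw [pow_succ, mul_comm 8 N, pow_mul]
    rw [hBdef, mul_pow, hM, e1]
    ring
  have hL := K.hL
  have hml0 := K.ml_nonneg
  have hB28 : B ^ 2 ≤ B ^ 8 := pow_le_pow_right₀ hB1 (by norm_num)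
  have hB38 : B ^ 3 ≤ B ^ 8 := pow_le_pow_right₀ hB1 (by norm_num)
  have hB80 : 0 ≤ B ^ 8 := by positivity
  have hB8q : B ^ 8 ≤ B ^ 8 * q := by nlinarith
  have hT' : (20000 + 800 * g) * (B ^ 8 * q) ≤ T := by
    rw [hB8]
    calc (20000 + 800 * g) * (M * q ^ (8 * N + 1)) = (20000 + 800 * g) * M * q ^ (8 * N + 1) := by
          ring
      _ ≤ T := hT
  have hT'' : 20000 * (B ^ 8 * q) ≤ T := by
    have : 0 ≤ 800 * g * (B ^ 8 * q) := by positivity
    linarith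
  have hTa : 4 * K.L ^ 2 + (2 * K.L + 1) ^ 8 ≤ T := by
    have a1 : K.L ^ 2 ≤ B ^ 2 := by gcongr
    have a2 : (2 * K.L + 1) ^ 8 ≤ (3 * B) ^ 8 := by
      gcongr
      linarith
    have a3 : (3 * B) ^ 8 = 6561 * B ^ 8 := by ring
    rw [a3] at a2
    linarith
  have hTb : 4 * K.L ^ 2 * K.ml * 16 / ε ≤ T := by
    have a1 : K.L ^ 2 * K.ml ≤ B ^ 2 * B := by gcongr
    have a2 : K.L ^ 2 * K.ml ≤ B ^ 8 := by
      have : B ^ 2 * B = B ^ 3 := by ring
      linarith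
    calc 4 * K.L ^ 2 * K.ml * 16 / ε = 64 * (K.L ^ 2 * K.ml * q) := by rw [hq]; ring
      _ ≤ 64 * (B ^ 8 * q) := by gcongr
      _ ≤ T := by
          have : 0 ≤ B ^ 8 * q := by positivity
          linarith
  have key := tsm_explicit hε hε1 K k1 k2 hB1 k6 k7 hTa hTb D H hH hD
  have hCT := CT_le K hB1 k6 k7 k4 k5
  have hCT0 : 0 ≤ CT K B B := CT_nonneg K (by linarith)
  have hT0 : 0 < T := by
    have : 0 < B ^ 8 * q := by positivity
    linarith
  have hCC : 2 * Real.pi * CT K B B ≤ (20000 + 800 * g) * M * q ^ (8 * N + 1) := by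
    have hpi := Real.pi_lt_four
    have hpi0 := Real.pi_pos
    calc 2 * Real.pi * CT K B B ≤ 2 * 4 * ((1000 + 100 * g) * B ^ 2) := by gcongr
      _ ≤ 2 * 4 * ((1000 + 100 * g) * (B ^ 8 * q)) := by
          gcongr
          linarith
      _ = (8000 + 800 * g) * (M * q ^ (8 * N + 1)) := by rw [← hB8]; ring
      _ ≤ (20000 + 800 * g) * (M * q ^ (8 * N + 1)) := by
          gcongr
          norm_num
      _ = _ := by ring
  refine key.trans ?_
  gcongr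

end Pool.Agent.Lib.MP_f9aece_nt_rt
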