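import Mathlib
import Pool.Agent.Lib.MP_f9aece_nt_rt.PrimeMainOf
import Pool.Agent.Lib.MP_f9aece_nt_rt.TsmRate
import Pool.Agent.Lib.MP_f9aece_nt_rt.SecondLower

/-!
The first order main term (R5).  `block_second` is in `PrimeMainOf`.
-/

set_option autoImplicit false

namespace Pool.Agent.Lib.MP_f9aece_nt_rt

open MeasureTheory Set Filter Topology Complex
open Pool.Agent.Lib.MP_f9aece_nt
open Pool.Agent.Lib.MP_f9aece_nt_h97
open Pool.Agent.Lib.MP_f9aece_nt_h22 (VS J1)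

/-- first order main term -/
theorem prime_main {A : ℝ} (hA : 200 ≤ A) {p0 : ℕ} (hp0 : 1 ≤ p0) : ∃ C T0 : ℝ, 0 ≤ C ∧ 16 ≤ T0 ∧
    ∀ T : ℝ, T0 ≤ T →
    |(∫ t in (0 : ℝ)..T, ‖riemannZeta (1 / 2 + I * t)‖ ^ 2
        * XX p0 (Real.log T / A) (J1 (Real.log T / A)) 0 t)
      - T * Real.log T * Real.log (Real.log T)| ≤ C * (T * Real.log T) := by
  obtain ⟨C0, hC0, N, h⟩ := tsm_rate
  obtain ⟨C1, T1, _, _, hs⟩ := second_lower
  exact prime_main_of hC0 h hs hA hp0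

end Pool.Agent.Lib.MP_f9aece_nt_rt
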