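import Mathlib
import Pool.Agent.Lib.MP_f9aece_nt_h24.TestFn
import Pool.Agent.Lib.MP_f9aece_nt_rt.PrimeMain
import Pool.Agent.Lib.MP_f9aece_nt_rt.PrimeMainOf
import Pool.Agent.Lib.MP_f9aece_nt_rt.Levels
import Pool.Agent.Lib.MP_f9aece_nt_rt.Decomp

/-!
Assembly of the levels: the logarithmic moment `∫ |ζ|² log |ζ|` over `[0, T]`.
-/

set_option autoImplicit false

namespace Pool.Agent.Lib.MP_f9aece_nt_rt

open MeasureTheory Set Filter Topology Complex
open Pool.Agent.Lib.MP_f9aece_nt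
open Pool.Agent.Lib.MP_f9aece_nt_h97
open Pool.Agent.Lib.MP_f9aece_nt_h22 (VS J1 J1_le)

lemma cont_z : Continuous fun t : ℝ => ‖riemannZeta (1 / 2 + I * t)‖ := continuous_zeta.norm

lemma cont_f : Continuous fun t : ℝ => ‖riemannZeta (1 / 2 + I * t)‖ ^ 2 := cont_z.pow 2

lemma cont_flog : Continuous fun t : ℝ => ‖riemannZeta (1 / 2 + I * t)‖ ^ 2
    * Real.log ‖riemannZeta (1 / 2 + I * t)‖ := by
  have h : Continuous fun t : ℝ => ‖riemannZeta (1 / 2 + I * t)‖
      * (‖riemannZeta (1 / 2 + I * t)‖ * Real.log ‖riemannZeta (1 / 2 + I * t)‖) :=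
    cont_z.mul (Real.continuous_mul_log.comp cont_z)
  refine h.congr fun t => ?_
  ring

lemma cont_XX (p0 : ℕ) (Y : ℝ) (J l : ℕ) : Continuous (XX p0 Y J l) := by
  unfold XX
  exact continuous_finsetSum _ fun j _ => Complex.continuous_re.comp (continuous_ev _)

/-- crude upper bound for the second moment -/
lemma second_crude : ∃ C T0 : ℝ, 0 ≤ C ∧ 16 ≤ T0 ∧ ∀ T : ℝ, T0 ≤ T →
    ∫ t in Icc 0 T, ‖riemannZeta (1 / 2 + I * t)‖ ^ 2 ≤ C * (T * Real.log T) := by
  obtain ⟨C, T0, hC, hT0, h⟩ := tsm (ε := 1) one_pos le_rfl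
  refine ⟨2 + C + C, max T0 16, by positivity, le_max_right _ _, fun T hT => ?_⟩
  have hTT0 : T0 ≤ T := (le_max_left _ _).trans hT
  have hT16 : 16 ≤ T := (le_max_right _ _).trans hT
  have hTpos : 0 < T := by linarith
  have h1 := h T hTT0 1 1 le_rfl (by
    intro n hn
    rw [MonoidAlgebra.one_def, MonoidAlgebra.coeff_single, Finsupp.single_apply] at hn
    split_ifs at hn with h2
    · rw [← h2]; simp
    · exact absurd rfl hn)
  have hl1 : 1 ≤ Real.log T := by
    rw [Real.le_log_iff_exp_le hTpos]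
    have := Real.exp_one_lt_d9
    linarith
  have e1 : nrm (1 : DP) = 1 := by
    unfold nrm
    rw [MonoidAlgebra.one_def, MonoidAlgebra.coeff_single, Finsupp.support_single _ one_ne_zero]
    simp
  have e2 : BK K2 (1 : DP) 1 = 1 := by
    have h : (1 : DP) = MonoidAlgebra.single 1 1 := MonoidAlgebra.one_def
    rw [h, BK, pair_single, pair_single]
    simp [K2]
  have e3 : BK KL (1 : DP) 1 = 0 := by
    have h : (1 : DP) = MonoidAlgebra.single 1 1 := MonoidAlgebra.one_def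
    rw [h, BK, pair_single, pair_single]
    simp [KL, Kl, Kg]
  rw [e1, e2, e3] at h1
  simp only [map_one, mul_one, abs_one, abs_zero, add_zero, one_pow] at h1
  rw [intervalIntegral.integral_of_le hTpos.le, ← integral_Icc_eq_integral_Ioc] at h1
  refine h1.trans ?_
  have h3 : 1 ≤ T ^ (1 / 16 : ℝ) := Real.one_le_rpow (by linarith) (by norm_num)
  have h4 : C / T ^ (1 / 16 : ℝ) ≤ C := div_le_self hC h3
  have h5 : (1 + 1) * Real.log T + C + C / T ^ (1 / 16 : ℝ) ≤ (2 + C + C) * Real.log T := by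
    nlinarith
  calc T * ((1 + 1) * Real.log T + C + C / T ^ (1 / 16 : ℝ)) ≤ T * ((2 + C + C) * Real.log T) := by
        gcongr
    _ = _ := by ring

/-- Cauchy-Schwarz for a sum of blocks over a measurable set -/
lemma block_cs {T C2 : ℝ} (hC2 : 0 ≤ C2) {Y : ℝ} {p0 : ℕ} (S : Finset ℕ)
    (hb : ∀ j ∈ S, ∫ t in (0 : ℝ)..T, ‖riemannZeta (1 / 2 + I * t) * ev t (PP (sc Y p0 j))‖ ^ 2
      ≤ C2) (hT : 0 ≤ T) {E : Set ℝ} (hE : MeasurableSet E) (hET : E ⊆ Icc 0 T) :
    |∫ t in E, ‖riemannZeta (1 / 2 + I * t)‖ ^ 2 * ∑ j ∈ S, (ev t (PP (sc Y p0 j))).re|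
      ≤ S.card * (Real.sqrt (∫ t in E, ‖riemannZeta (1 / 2 + I * t)‖ ^ 2) * Real.sqrt C2) := by
  have hint : ∀ g : ℝ → ℝ, Continuous g → IntegrableOn g E := fun g hg =>
    (hg.integrableOn_Icc (a := 0) (b := T)).mono_set hET
  have hre : ∀ j : ℕ, Continuous fun t : ℝ => (ev t (PP (sc Y p0 j))).re := fun j =>
    Complex.continuous_re.comp (continuous_ev _)
  have e1 : ∫ t in E, ‖riemannZeta (1 / 2 + I * t)‖ ^ 2 * ∑ j ∈ S, (ev t (PP (sc Y p0 j))).re
      = ∑ j ∈ S, ∫ t in E, ‖riemannZeta (1 / 2 + I * t)‖ ^ 2 * (ev t (PP (sc Y p0 j))).re := by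
    simp_rw [Finset.mul_sum]
    exact integral_finsetSum _ fun j _ => hint _ (cont_f.mul (hre j))
  rw [e1]
  refine (Finset.abs_sum_le_sum_abs _ _).trans ?_
  have h1 : ∀ j ∈ S, |∫ t in E, ‖riemannZeta (1 / 2 + I * t)‖ ^ 2 * (ev t (PP (sc Y p0 j))).re|
      ≤ Real.sqrt (∫ t in E, ‖riemannZeta (1 / 2 + I * t)‖ ^ 2) * Real.sqrt C2 := by
    intro j hj
    have c1 : Continuous fun t : ℝ => ‖riemannZeta (1 / 2 + I * t) * ev t (PP (sc Y p0 j))‖ :=
      (continuous_zeta.mul (continuous_ev _)).norm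
    have h2 := cs_real (S := E) (u := fun t : ℝ => ‖riemannZeta (1 / 2 + I * t)‖)
      (v := fun t : ℝ => ‖riemannZeta (1 / 2 + I * t) * ev t (PP (sc Y p0 j))‖)
      (fun t => norm_nonneg _) (fun t => norm_nonneg _) (hint _ cont_f) (hint _ (c1.pow 2))
    have h3 : ∫ t in E, ‖riemannZeta (1 / 2 + I * t) * ev t (PP (sc Y p0 j))‖ ^ 2 ≤ C2 := by
      refine le_trans ?_ (hb j hj)
      rw [intervalIntegral.integral_of_le hT, ← integral_Icc_eq_integral_Ioc]
      exact setIntegral_mono_set ((c1.pow 2).integrableOn_Icc)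
        (Eventually.of_forall fun t => by positivity) (LE.le.eventuallyLE hET)
    calc |∫ t in E, ‖riemannZeta (1 / 2 + I * t)‖ ^ 2 * (ev t (PP (sc Y p0 j))).re|
        ≤ ∫ t in E, |‖riemannZeta (1 / 2 + I * t)‖ ^ 2 * (ev t (PP (sc Y p0 j))).re| :=
          abs_integral_le_integral_abs
      _ ≤ ∫ t in E, ‖riemannZeta (1 / 2 + I * t)‖
            * ‖riemannZeta (1 / 2 + I * t) * ev t (PP (sc Y p0 j))‖ := by
          refine setIntegral_mono_on ((hint _ (cont_f.mul (hre j))).abs) h2.1 hE fun t _ => ?_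
          rw [abs_mul, norm_mul, abs_of_nonneg (by positivity : 0 ≤ ‖riemannZeta (1 / 2 + I * t)‖ ^ 2)]
          have h4 := Complex.abs_re_le_norm (ev t (PP (sc Y p0 j)))
          calc ‖riemannZeta (1 / 2 + I * t)‖ ^ 2 * |(ev t (PP (sc Y p0 j))).re|
              ≤ ‖riemannZeta (1 / 2 + I * t)‖ ^ 2 * ‖ev t (PP (sc Y p0 j))‖ := by gcongr
            _ = _ := by ring
      _ ≤ _ := h2.2
      _ ≤ _ := by gcongr
  refine (Finset.sum_le_sum h1).trans (le_of_eq ?_)
  rw [Finset.sum_const, nsmul_eq_mul]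

/-- the value of `∑ l r^(l-1)` -/
lemma exists_sum_bound : ∃ S0 : ℝ, 0 ≤ S0 ∧ ∀ L : ℕ,
    ∑ l ∈ Finset.range L, ((l : ℝ) + 1) * Real.sqrt ((1 / 2 : ℝ) ^ l) ≤ S0 := by
  have hr : ‖Real.sqrt (1 / 2)‖ < 1 := by
    rw [Real.norm_eq_abs, abs_of_nonneg (Real.sqrt_nonneg _), Real.sqrt_lt' one_pos]
    norm_num
  have h1 := (summable_pow_mul_geometric_of_norm_lt_one 1 hr).add (summable_geometric_of_norm_lt_one hr)
  have h2 : Summable fun l : ℕ => ((l : ℝ) + 1) * Real.sqrt ((1 / 2 : ℝ) ^ l) := by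
    refine h1.congr fun l => ?_
    rw [Real.sqrt_eq_rpow, Real.sqrt_eq_rpow, ← Real.rpow_natCast, ← Real.rpow_natCast,
      ← Real.rpow_mul (by norm_num), ← Real.rpow_natCast, ← Real.rpow_mul (by norm_num), mul_comm (l : ℝ) (1 / 2)]
    simp
    ring
  refine ⟨∑' l : ℕ, ((l : ℝ) + 1) * Real.sqrt ((1 / 2 : ℝ) ^ l), tsum_nonneg fun l => by positivity,
    fun L => ?_⟩
  exact h2.sum_le_tsum _ fun l _ => by positivity

lemma XX_sub {p0 : ℕ} {Y : ℝ} {J l : ℕ} (hl : l ≤ J) (t : ℝ) :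
    XX p0 Y J l t = XX p0 Y J 0 t - ∑ j ∈ Finset.range l, (ev t (PP (sc Y p0 j))).re := by
  unfold XX
  have h := Finset.sum_Ico_consecutive (fun j => (ev t (PP (sc Y p0 j))).re) (Nat.zero_le l) hl
  rw [Nat.Ico_zero_eq_range] at h
  rw [Nat.Ico_zero_eq_range] at h ⊢
  linarith

/-- replacing the polynomial of the level by the full polynomial -/
lemma cross : ∃ C2 T2 : ℝ, 0 ≤ C2 ∧ 16 ≤ T2 ∧ ∀ (A C : ℝ) (p0 : ℕ), 200 ≤ A → 0 ≤ C →
    ∃ C3 : ℝ, 0 ≤ C3 ∧ ∀ T : ℝ, T2 ≤ T → A ≤ Real.log T → ∀ (L : ℕ) (G : ℕ → Set ℝ), Lev C A p0 T L G →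
    |(∑ l ∈ Finset.range (L + 1), ∫ t in disjointed G l, ‖riemannZeta (1 / 2 + I * t)‖ ^ 2
        * XX p0 (Real.log T / A) (J1 (Real.log T / A)) l t)
      - ∫ t in Icc 0 T, ‖riemannZeta (1 / 2 + I * t)‖ ^ 2
        * XX p0 (Real.log T / A) (J1 (Real.log T / A)) 0 t| ≤ C3 * (T * Real.log T) := by
  obtain ⟨C2, T2, hC2, hT2, hblock⟩ := block_second
  obtain ⟨S0, hS0, hS⟩ := exists_sum_bound
  refine ⟨C2, T2, hC2, hT2, ?_⟩
  intro A C p0 hA hC
  refine ⟨Real.sqrt C * Real.sqrt C2 * S0 + 3 * Real.sqrt C2, by positivity, ?_⟩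
  intro T hT hAT L G hG
  have hT16 : 16 ≤ T := hT2.trans hT
  have hT0 : 0 < T := by linarith
  obtain ⟨x, hx⟩ : ∃ x, x = Real.log T := ⟨_, rfl⟩
  rw [← hx] at hAT ⊢
  have hx1 : 1 ≤ x := by linarith
  have hx0 : 0 < x := by linarith
  obtain ⟨Y, hY⟩ : ∃ Y, Y = x / A := ⟨_, rfl⟩
  have hA0 : 0 < A := by linarith
  have hY1 : 1 ≤ Y := by rw [hY, one_le_div hA0]; exact hAT
  have hYx : 200 * Y ≤ x := by
    rw [hY, mul_div_assoc', div_le_iff₀ hA0]
    nlinarith
  have hYle : Y ≤ x := by linarith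
  obtain ⟨J, hJ⟩ : ∃ J, J = J1 Y := ⟨_, rfl⟩
  have hLJ : L ≤ J := by rw [hJ, hY, hx]; exact hG.LJ
  obtain ⟨W, hW⟩ : ∃ W, W = T * x := ⟨_, rfl⟩
  have hW0 : 0 ≤ W := by rw [hW]; positivity
  rw [← hY, ← hJ, ← hW]
  have hb : ∀ j, ∫ t in (0 : ℝ)..T, ‖riemannZeta (1 / 2 + I * t) * ev t (PP (sc Y p0 j))‖ ^ 2 ≤ C2 * W := by
    intro j
    rw [hW, hx]
    exact hblock T hT Y p0 j hY1 (by rw [← hx]; exact hYx)
  have hintI : ∀ g : ℝ → ℝ, Continuous g → IntegrableOn g (Icc 0 T) := fun g hg =>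
    hg.integrableOn_Icc (a := 0) (b := T)
  have hEs : ∀ l, disjointed G l ⊆ Icc 0 T := fun l => (disjointed_sub G l).trans (hG.sub l)
  have hEm : ∀ l, MeasurableSet (disjointed G l) := disjointed_meas hG.meas
  have hre : ∀ j : ℕ, Continuous fun t : ℝ => (ev t (PP (sc Y p0 j))).re := fun j =>
    Complex.continuous_re.comp (continuous_ev _)
  -- decomposition of the full integral
  have hdec := integral_decomp (hintI _ (cont_f.mul (cont_XX p0 Y J 0))) measurableSet_Icc hG.meas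
    hG.sub L
  simp only [Pi.mul_apply] at hdec
  rw [hdec]
  have e1 : ∀ l ∈ Finset.range (L + 1), ∫ t in disjointed G l, ‖riemannZeta (1 / 2 + I * t)‖ ^ 2
        * XX p0 Y J l t = (∫ t in disjointed G l, ‖riemannZeta (1 / 2 + I * t)‖ ^ 2 * XX p0 Y J 0 t)
        - ∫ t in disjointed G l, ‖riemannZeta (1 / 2 + I * t)‖ ^ 2
          * ∑ j ∈ Finset.range l, (ev t (PP (sc Y p0 j))).re := by
    intro l hl
    rw [Finset.mem_range] at hl
    have j1 : IntegrableOn (fun t : ℝ => ‖riemannZeta (1 / 2 + I * t)‖ ^ 2 * XX p0 Y J 0 t)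
        (disjointed G l) := (hintI _ (cont_f.mul (cont_XX p0 Y J 0))).mono_set (hEs l)
    have j2 : IntegrableOn (fun t : ℝ => ‖riemannZeta (1 / 2 + I * t)‖ ^ 2
        * ∑ j ∈ Finset.range l, (ev t (PP (sc Y p0 j))).re) (disjointed G l) :=
      (hintI _ (cont_f.mul (continuous_finsetSum _ fun j _ => hre j))).mono_set (hEs l)
    rw [← integral_sub j1 j2]
    refine integral_congr_ae (Eventually.of_forall fun t => ?_)
    simp only
    rw [XX_sub (by omega : l ≤ J)]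
    ring
  rw [Finset.sum_congr rfl e1, Finset.sum_sub_distrib]
  obtain ⟨R, hR⟩ : ∃ R, R = ∑ l ∈ Finset.range (L + 1), ∫ t in disjointed G l,
      ‖riemannZeta (1 / 2 + I * t)‖ ^ 2 * ∑ j ∈ Finset.range l, (ev t (PP (sc Y p0 j))).re := ⟨_, rfl⟩
  obtain ⟨B, hB⟩ : ∃ B, B = ∫ t in Bad (Icc 0 T) G L,
      ‖riemannZeta (1 / 2 + I * t)‖ ^ 2 * XX p0 Y J 0 t := ⟨_, rfl⟩
  rw [← hR, ← hB]
  have hRle : |R| ≤ Real.sqrt C * Real.sqrt C2 * S0 * W := by
    rw [hR, Finset.sum_range_succ']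
    have z0 : ∫ t in disjointed G 0, ‖riemannZeta (1 / 2 + I * t)‖ ^ 2
        * ∑ j ∈ Finset.range 0, (ev t (PP (sc Y p0 j))).re = 0 := by simp
    rw [z0, add_zero]
    refine (Finset.abs_sum_le_sum_abs _ _).trans ?_
    have h1 : ∀ l ∈ Finset.range L, |∫ t in disjointed G (l + 1), ‖riemannZeta (1 / 2 + I * t)‖ ^ 2
        * ∑ j ∈ Finset.range (l + 1), (ev t (PP (sc Y p0 j))).re|
        ≤ Real.sqrt C * Real.sqrt C2 * W * (((l : ℝ) + 1) * Real.sqrt ((1 / 2 : ℝ) ^ l)) := by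
      intro l hl
      rw [Finset.mem_range] at hl
      have h2 := block_cs (T := T) (C2 := C2 * W) (by positivity) (Y := Y) (p0 := p0)
        (Finset.range (l + 1)) (fun j _ => hb j) hT0.le (hEm (l + 1)) (hEs (l + 1))
      have h3 : ∫ t in disjointed G (l + 1), ‖riemannZeta (1 / 2 + I * t)‖ ^ 2
          ≤ C * (1 / 2) ^ l * W := by
        rw [hW, hx]
        refine le_trans ?_ (hG.piece l hl)
        exact setIntegral_mono_set ((hintI _ cont_f).mono_set (sdiff_subset.trans (hG.sub _)))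
          (Eventually.of_forall fun t => by positivity)
          (LE.le.eventuallyLE (disjointed_succ_sub G l))
      refine h2.trans ?_
      rw [Finset.card_range]
      have h4 : Real.sqrt (∫ t in disjointed G (l + 1), ‖riemannZeta (1 / 2 + I * t)‖ ^ 2)
          ≤ Real.sqrt C * Real.sqrt ((1 / 2 : ℝ) ^ l) * Real.sqrt W := by
        rw [← Real.sqrt_mul hC, ← Real.sqrt_mul (by positivity)]
        exact Real.sqrt_le_sqrt h3
      calc ((l + 1 : ℕ) : ℝ) * (Real.sqrt (∫ t in disjointed G (l + 1), ‖riemannZeta (1 / 2 + I * t)‖ ^ 2)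
            * Real.sqrt (C2 * W))
          ≤ ((l + 1 : ℕ) : ℝ) * ((Real.sqrt C * Real.sqrt ((1 / 2 : ℝ) ^ l) * Real.sqrt W)
            * (Real.sqrt C2 * Real.sqrt W)) := by
            rw [Real.sqrt_mul hC2]
            gcongr
        _ = Real.sqrt C * Real.sqrt C2 * (Real.sqrt W * Real.sqrt W)
            * (((l : ℝ) + 1) * Real.sqrt ((1 / 2 : ℝ) ^ l)) := by push_cast; ring
        _ = _ := by rw [Real.mul_self_sqrt hW0]
    refine (Finset.sum_le_sum h1).trans ?_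
    rw [← Finset.mul_sum]
    calc Real.sqrt C * Real.sqrt C2 * W * ∑ l ∈ Finset.range L, ((l : ℝ) + 1) * Real.sqrt ((1 / 2 : ℝ) ^ l)
        ≤ Real.sqrt C * Real.sqrt C2 * W * S0 := by
          refine mul_le_mul_of_nonneg_left (hS L) (by positivity)
      _ = _ := by ring
  have hBle : |B| ≤ 3 * Real.sqrt C2 * W := by
    have hBm : MeasurableSet (Bad (Icc 0 T) G L) := bad_meas measurableSet_Icc hG.meas L
    have hBs : Bad (Icc 0 T) G L ⊆ Icc 0 T := sdiff_subset
    have h2 := block_cs (T := T) (C2 := C2 * W) (by positivity) (Y := Y) (p0 := p0)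
        (Finset.Ico 0 J) (fun j _ => hb j) hT0.le hBm hBs
    have h3 : ∫ t in Bad (Icc 0 T) G L, ‖riemannZeta (1 / 2 + I * t)‖ ^ 2 ≤ T := by
      refine le_trans ?_ hG.last
      exact setIntegral_mono_set ((hintI _ cont_f).mono_set sdiff_subset)
          (Eventually.of_forall fun t => by positivity) (LE.le.eventuallyLE (bad_sub L))
    rw [hB]
    refine h2.trans ?_
    rw [Nat.card_Ico, Nat.sub_zero]
    have h4 : (J : ℝ) ≤ Real.log x + 1 := by
      rw [hJ]
      refine (J1_le hY1).trans ?_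
      have := Real.log_le_log (by linarith : 0 < Y) hYle
      linarith
    have h5 : Real.log x ≤ 2 * Real.sqrt x := by
      have := Real.log_le_sub_one_of_pos (x := Real.sqrt x) (by positivity)
      rw [Real.log_sqrt hx0.le] at this
      linarith
    have h6 : 1 ≤ Real.sqrt x := Real.one_le_sqrt.mpr hx1
    have h7 : (J : ℝ) ≤ 3 * Real.sqrt x := by linarith
    have h8 := Real.sqrt_le_sqrt h3
    calc (J : ℝ) * (Real.sqrt (∫ t in Bad (Icc 0 T) G L, ‖riemannZeta (1 / 2 + I * t)‖ ^ 2)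
          * Real.sqrt (C2 * W))
        ≤ (3 * Real.sqrt x) * (Real.sqrt T * (Real.sqrt C2 * (Real.sqrt T * Real.sqrt x))) := by
          have e2 : Real.sqrt (C2 * W) = Real.sqrt C2 * (Real.sqrt T * Real.sqrt x) := by
            rw [Real.sqrt_mul hC2, hW, Real.sqrt_mul hT0.le]
          rw [e2]
          gcongr
      _ = 3 * Real.sqrt C2 * ((Real.sqrt T * Real.sqrt T) * (Real.sqrt x * Real.sqrt x)) := by ring
      _ = _ := by rw [Real.mul_self_sqrt hT0.le, Real.mul_self_sqrt hx0.le, ← hW]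
  have e3 : ∀ a : ℝ, a - R - (a + B) = -R - B := fun a => by ring
  rw [e3]
  calc |(-R) - B| ≤ |(-R)| + |B| := abs_sub _ _
    _ ≤ Real.sqrt C * Real.sqrt C2 * S0 * W + 3 * Real.sqrt C2 * W := by
        rw [abs_neg]
        exact add_le_add hRle hBle
    _ = _ := by ring

/-- geometric sum with linear weights -/
lemma sum_lin (L : ℕ) : ∑ l ∈ Finset.range L, ((l : ℝ) + 2) * (1 / 2 : ℝ) ^ l ≤ 6 := by
  have h : ∀ L : ℕ, ∑ l ∈ Finset.range L, ((l : ℝ) + 2) * (1 / 2 : ℝ) ^ l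
      = 6 - (2 * (L : ℝ) + 6) * (1 / 2 : ℝ) ^ L := by
    intro L
    induction L with
    | zero => simp
    | succ n ih =>
      rw [Finset.sum_range_succ, ih, pow_succ]
      push_cast
      ring
  rw [h]
  have : 0 ≤ (2 * (L : ℝ) + 6) * (1 / 2 : ℝ) ^ L := by positivity
  linarith

theorem main_upper : ∃ C T0 : ℝ, 0 ≤ C ∧ 16 ≤ T0 ∧ ∀ T : ℝ, T0 ≤ T →
    ∫ t in (0 : ℝ)..T, ‖riemannZeta (1 / 2 + I * t)‖ ^ 2 * Real.log ‖riemannZeta (1 / 2 + I * t)‖
      ≤ T * Real.log T * Real.log (Real.log T) + C * (T * Real.log T) := by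
  obtain ⟨A, C, p0, hA, hC, hp0, T1, hlev⟩ := levels
  obtain ⟨C2, T2, hC2, hT2, hcross⟩ := cross
  obtain ⟨C3, hC3, hcross⟩ := hcross A C p0 (by linarith) hC
  obtain ⟨C4, T4, hC4, hT4, hmain⟩ := prime_main (A := A) (by linarith) hp0
  obtain ⟨C5, T5, hC5, hT5, hsec⟩ := second_crude
  refine ⟨C * C5 + 6 * C * C + C3 + C4 + 2, max (max T1 T2) (max (max T4 T5) (Real.exp A)), by positivity,
    hT2.trans ((le_max_right _ _).trans (le_max_left _ _)), fun T hT => ?_⟩
  have hTT1 : T1 ≤ T := ((le_max_left _ _).trans (le_max_left _ _)).trans hT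
  have hTT2 : T2 ≤ T := ((le_max_right _ _).trans (le_max_left _ _)).trans hT
  have hTT4 : T4 ≤ T := (((le_max_left _ _).trans (le_max_left _ _)).trans (le_max_right _ _)).trans hT
  have hTT5 : T5 ≤ T := (((le_max_right _ _).trans (le_max_left _ _)).trans (le_max_right _ _)).trans hT
  have hTA : Real.exp A ≤ T := ((le_max_right _ _).trans (le_max_right _ _)).trans hT
  have hT16 : 16 ≤ T := hT2.trans hTT2
  have hT0 : 0 < T := by linarith
  have hAT : A ≤ Real.log T := by rwa [Real.le_log_iff_exp_le hT0]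
  have hl1 : 1 ≤ Real.log T := by linarith
  obtain ⟨L, G, hG⟩ := hlev T hTT1
  have h1 := hcross T hTT2 hAT L G hG
  have h2 := hmain T hTT4
  have h3 := hsec T hTT5
  rw [intervalIntegral.integral_of_le hT0.le, ← integral_Icc_eq_integral_Ioc] at h2 ⊢
  obtain ⟨W, hW⟩ : ∃ W, W = T * Real.log T := ⟨_, rfl⟩
  have hTW : T ≤ W := by rw [hW]; exact le_mul_of_one_le_right hT0.le hl1
  have hW0 : 0 ≤ W := hT0.le.trans hTW
  rw [← hW] at h1 h2 h3 ⊢
  have hintI : ∀ g : ℝ → ℝ, Continuous g → IntegrableOn g (Icc 0 T) := fun g hg =>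
    hg.integrableOn_Icc (a := 0) (b := T)
  have hEs : ∀ l, disjointed G l ⊆ Icc 0 T := fun l => (disjointed_sub G l).trans (hG.sub l)
  have hEm : ∀ l, MeasurableSet (disjointed G l) := disjointed_meas hG.meas
  have hBm : MeasurableSet (Bad (Icc 0 T) G L) := bad_meas measurableSet_Icc hG.meas L
  have hBs : Bad (Icc 0 T) G L ⊆ Icc 0 T := sdiff_subset
  rw [integral_decomp (hintI _ cont_flog) measurableSet_Icc hG.meas hG.sub L]
  -- the bad set
  have hbad : ∫ t in Bad (Icc 0 T) G L, ‖riemannZeta (1 / 2 + I * t)‖ ^ 2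
      * Real.log ‖riemannZeta (1 / 2 + I * t)‖ ≤ 2 * W := by
    have c52 : Continuous fun t : ℝ => ‖riemannZeta (1 / 2 + I * t)‖ ^ (5 / 2 : ℝ) :=
      cont_z.rpow_const fun _ => Or.inr (by norm_num)
    calc ∫ t in Bad (Icc 0 T) G L, ‖riemannZeta (1 / 2 + I * t)‖ ^ 2
          * Real.log ‖riemannZeta (1 / 2 + I * t)‖
        ≤ ∫ t in Bad (Icc 0 T) G L, 2 * ‖riemannZeta (1 / 2 + I * t)‖ ^ (5 / 2 : ℝ) :=
          setIntegral_mono_on ((hintI _ cont_flog).mono_set hBs)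
            (((hintI _ c52).mono_set hBs).const_mul 2) hBm fun t _ => sq_mul_log_le (norm_nonneg _)
      _ = 2 * ∫ t in Bad (Icc 0 T) G L, ‖riemannZeta (1 / 2 + I * t)‖ ^ (5 / 2 : ℝ) :=
          integral_const_mul _ _
      _ ≤ 2 * ∫ t in Icc 0 T \ G L, ‖riemannZeta (1 / 2 + I * t)‖ ^ (5 / 2 : ℝ) := by
          refine mul_le_mul_of_nonneg_left ?_ (by norm_num)
          exact setIntegral_mono_set ((hintI _ c52).mono_set sdiff_subset)
            (Eventually.of_forall fun t => by positivity) (LE.le.eventuallyLE (bad_sub L))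
      _ ≤ 2 * T := by
          have := hG.last'
          linarith
      _ ≤ 2 * W := by linarith
  -- the levels
  have hlevl : ∀ l ∈ Finset.range (L + 1), ∫ t in disjointed G l, ‖riemannZeta (1 / 2 + I * t)‖ ^ 2
      * Real.log ‖riemannZeta (1 / 2 + I * t)‖
      ≤ C * (l + 1) * (∫ t in disjointed G l, ‖riemannZeta (1 / 2 + I * t)‖ ^ 2)
        + ∫ t in disjointed G l, ‖riemannZeta (1 / 2 + I * t)‖ ^ 2
          * XX p0 (Real.log T / A) (J1 (Real.log T / A)) l t := by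
    intro l hl
    rw [Finset.mem_range] at hl
    have i1 := (hintI _ cont_f).mono_set (hEs l)
    have i2 : IntegrableOn (fun t : ℝ => ‖riemannZeta (1 / 2 + I * t)‖ ^ 2
        * XX p0 (Real.log T / A) (J1 (Real.log T / A)) l t) (disjointed G l) :=
      (hintI _ (cont_f.mul (cont_XX p0 (Real.log T / A) (J1 (Real.log T / A)) l))).mono_set (hEs l)
    rw [← integral_const_mul, ← integral_add (i1.const_mul _) i2]
    refine setIntegral_mono_on ((hintI _ cont_flog).mono_set (hEs l)) ((i1.const_mul _).add i2)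
      (hEm l) fun t ht => ?_
    by_cases h0 : riemannZeta (1 / 2 + I * t) = 0
    · rw [h0]; norm_num
    have h5 := hG.upper l (by omega) t (disjointed_sub G l ht) h0
    have h6 : 0 ≤ ‖riemannZeta (1 / 2 + I * t)‖ ^ 2 := by positivity
    have h7 := mul_le_mul_of_nonneg_left h5 h6
    refine h7.trans (le_of_eq ?_)
    ring
  have hsum := Finset.sum_le_sum hlevl
  rw [Finset.sum_add_distrib] at hsum
  -- the weights
  have hw : ∑ l ∈ Finset.range (L + 1), C * ((l : ℝ) + 1)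
      * (∫ t in disjointed G l, ‖riemannZeta (1 / 2 + I * t)‖ ^ 2) ≤ (C * C5 + 6 * C * C) * W := by
    rw [Finset.sum_range_succ']
    have h5 : ∀ l ∈ Finset.range L, C * (((l + 1 : ℕ) : ℝ) + 1)
        * (∫ t in disjointed G (l + 1), ‖riemannZeta (1 / 2 + I * t)‖ ^ 2)
        ≤ C * C * W * (((l : ℝ) + 2) * (1 / 2 : ℝ) ^ l) := by
      intro l hl
      rw [Finset.mem_range] at hl
      have h6 : ∫ t in disjointed G (l + 1), ‖riemannZeta (1 / 2 + I * t)‖ ^ 2
          ≤ C * (1 / 2) ^ l * W := by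
        rw [hW]
        refine le_trans ?_ (hG.piece l hl)
        exact setIntegral_mono_set ((hintI _ cont_f).mono_set (sdiff_subset.trans (hG.sub _)))
          (Eventually.of_forall fun t => by positivity)
          (LE.le.eventuallyLE (disjointed_succ_sub G l))
      calc C * (((l + 1 : ℕ) : ℝ) + 1) * (∫ t in disjointed G (l + 1), ‖riemannZeta (1 / 2 + I * t)‖ ^ 2)
          ≤ C * (((l + 1 : ℕ) : ℝ) + 1) * (C * (1 / 2) ^ l * W) := by gcongr
        _ = _ := by push_cast; ring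
    have h6 := Finset.sum_le_sum h5
    rw [← Finset.mul_sum] at h6
    have h7 := mul_le_mul_of_nonneg_left (sum_lin L) (by positivity : 0 ≤ C * C * W)
    have h8 : ∫ t in disjointed G 0, ‖riemannZeta (1 / 2 + I * t)‖ ^ 2 ≤ C5 * W := by
      refine le_trans ?_ h3
      exact setIntegral_mono_set (hintI _ cont_f)
          (Eventually.of_forall fun t => by positivity) (LE.le.eventuallyLE (hEs 0))
    have h9 := mul_le_mul_of_nonneg_left h8 hC
    push_cast
    push_cast at h6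
    linarith
  have h10 := (abs_le.mp h1).2
  have h11 := (abs_le.mp h2).2
  linarith

theorem main_lower : ∃ C T0 : ℝ, 0 ≤ C ∧ 16 ≤ T0 ∧ ∀ T : ℝ, T0 ≤ T →
    T * Real.log T * Real.log (Real.log T) - C * (T * Real.log T) ≤
    ∫ t in (0 : ℝ)..T, ‖riemannZeta (1 / 2 + I * t)‖ ^ 2
      * Real.log ‖riemannZeta (1 / 2 + I * t)‖ := by
  obtain ⟨A, C, p0, hA, hC, hp0, T1, hlev⟩ := levels
  obtain ⟨C2, T2, hC2, hT2, hcross⟩ := cross
  obtain ⟨C3, hC3, hcross⟩ := hcross A C p0 (by linarith) hC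
  obtain ⟨C4, T4, hC4, hT4, hmain⟩ := prime_main (A := A) (by linarith) hp0
  refine ⟨C3 + C4 + C + 1, max (max T1 T2) (max T4 (Real.exp A)), by positivity,
    hT2.trans ((le_max_right _ _).trans (le_max_left _ _)), fun T hT => ?_⟩
  have hTT1 : T1 ≤ T := ((le_max_left _ _).trans (le_max_left _ _)).trans hT
  have hTT2 : T2 ≤ T := ((le_max_right _ _).trans (le_max_left _ _)).trans hT
  have hTT4 : T4 ≤ T := ((le_max_left _ _).trans (le_max_right _ _)).trans hT
  have hTA : Real.exp A ≤ T := ((le_max_right _ _).trans (le_max_right _ _)).trans hT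
  have hT16 : 16 ≤ T := hT2.trans hTT2
  have hT0 : 0 < T := by linarith
  have hAT : A ≤ Real.log T := by rwa [Real.le_log_iff_exp_le hT0]
  have hl1 : 1 ≤ Real.log T := by linarith
  obtain ⟨L, G, hG⟩ := hlev T hTT1
  have h1 := hcross T hTT2 hAT L G hG
  have h2 := hmain T hTT4
  rw [intervalIntegral.integral_of_le hT0.le, ← integral_Icc_eq_integral_Ioc] at h2 ⊢
  obtain ⟨W, hW⟩ : ∃ W, W = T * Real.log T := ⟨_, rfl⟩
  have hTW : T ≤ W := by rw [hW]; exact le_mul_of_one_le_right hT0.le hl1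
  have hW0 : 0 ≤ W := hT0.le.trans hTW
  rw [← hW] at h1 h2 ⊢
  have hintI : ∀ g : ℝ → ℝ, Continuous g → IntegrableOn g (Icc 0 T) := fun g hg =>
    hg.integrableOn_Icc (a := 0) (b := T)
  have hEs : ∀ l, disjointed G l ⊆ Icc 0 T := fun l => (disjointed_sub G l).trans (hG.sub l)
  have hEm : ∀ l, MeasurableSet (disjointed G l) := disjointed_meas hG.meas
  have hBm : MeasurableSet (Bad (Icc 0 T) G L) := bad_meas measurableSet_Icc hG.meas L
  have hBs : Bad (Icc 0 T) G L ⊆ Icc 0 T := sdiff_subset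
  rw [integral_decomp (hintI _ cont_flog) measurableSet_Icc hG.meas hG.sub L]
  -- the bad set
  have hbad : -(1 / 2) * W ≤ ∫ t in Bad (Icc 0 T) G L, ‖riemannZeta (1 / 2 + I * t)‖ ^ 2
      * Real.log ‖riemannZeta (1 / 2 + I * t)‖ := by
    have h5 : ∫ _ in Bad (Icc 0 T) G L, (-(1 / 2) : ℝ)
        ≤ ∫ t in Bad (Icc 0 T) G L, ‖riemannZeta (1 / 2 + I * t)‖ ^ 2
          * Real.log ‖riemannZeta (1 / 2 + I * t)‖ :=
      setIntegral_mono_on ((hintI _ continuous_const).mono_set hBs)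
            ((hintI _ cont_flog).mono_set hBs) hBm fun t _ => sq_mul_log_ge (norm_nonneg _)
    refine le_trans ?_ h5
    rw [setIntegral_const, smul_eq_mul]
    have h6 : volume.real (Bad (Icc 0 T) G L) ≤ T := by
      refine (measureReal_mono hBs (by simp)).trans ?_
      rw [Real.volume_real_Icc, sub_zero, max_eq_left hT0.le]
    linarith
  -- the levels
  have hlevl : ∀ l ∈ Finset.range (L + 1), (∫ t in disjointed G l, ‖riemannZeta (1 / 2 + I * t)‖ ^ 2
          * XX p0 (Real.log T / A) (J1 (Real.log T / A)) l t) - C * W / 2 * (1 / 4 : ℝ) ^ l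
      ≤ ∫ t in disjointed G l, ‖riemannZeta (1 / 2 + I * t)‖ ^ 2
      * Real.log ‖riemannZeta (1 / 2 + I * t)‖ := by
    intro l hl
    rw [Finset.mem_range] at hl
    obtain ⟨X, hX⟩ : ∃ X : ℝ → ℝ, X = XX p0 (Real.log T / A) (J1 (Real.log T / A)) l := ⟨_, rfl⟩
    have hXc : Continuous X := by rw [hX]; exact cont_XX _ _ _ _
    have hEc : Continuous fun t => Real.exp (2 * X t) :=
      Real.continuous_exp.comp (continuous_const.mul hXc)
    have i1 : IntegrableOn (fun t : ℝ => ‖riemannZeta (1 / 2 + I * t)‖ ^ 2 * X t)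
        (disjointed G l) := (hintI _ (cont_f.mul hXc)).mono_set (hEs l)
    have i2 := (hintI _ hEc).mono_set (hEs l)
    have i3 := (hintI _ cont_f).mono_set (hEs l)
    have h5 : ∫ t in disjointed G l, Real.exp (2 * X t) ≤ C * (1 / 4) ^ l * W := by
      have h6 := hG.tilt l (by omega)
      rw [← hX, ← hW] at h6
      refine le_trans ?_ h6
      exact setIntegral_mono_set ((hintI _ hEc).mono_set (hG.sub l))
          (Eventually.of_forall fun t => (Real.exp_pos _).le)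
          (LE.le.eventuallyLE (disjointed_sub G l))
    have h7 : ∫ t in disjointed G l, (‖riemannZeta (1 / 2 + I * t)‖ ^ 2 * X t
        - Real.exp (2 * X t) / 2) ≤ ∫ t in disjointed G l, ‖riemannZeta (1 / 2 + I * t)‖ ^ 2
      * Real.log ‖riemannZeta (1 / 2 + I * t)‖ := by
      refine setIntegral_mono_on (i1.sub (i2.div_const 2)) ((hintI _ cont_flog).mono_set (hEs l))
        (hEm l) fun t _ => ?_
      have h8 := gibbs (z := ‖riemannZeta (1 / 2 + I * t)‖) (X := X t) (norm_nonneg _)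
      have h9 : 0 ≤ ‖riemannZeta (1 / 2 + I * t)‖ ^ 2 := by positivity
      linarith
    rw [integral_sub i1 (i2.div_const 2), integral_div] at h7
    rw [← hX]
    linarith
  have hsum := Finset.sum_le_sum hlevl
  rw [Finset.sum_sub_distrib, ← Finset.mul_sum] at hsum
  have hgeo : ∑ l ∈ Finset.range (L + 1), (1 / 4 : ℝ) ^ l ≤ 2 := by
    have h5 : (∑ l ∈ Finset.range (L + 1), (1 / 4 : ℝ) ^ l) * (1 - 1 / 4) ≤ 1 := by
      rw [geom_sum_mul_neg]
      have : 0 ≤ (1 / 4 : ℝ) ^ (L + 1) := by positivity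
      linarith
    linarith
  have h12 := mul_le_mul_of_nonneg_left hgeo (by positivity : 0 ≤ C * W / 2)
  have h10 := (abs_le.mp h1).1
  have h11 := (abs_le.mp h2).1
  linarith

end Pool.Agent.Lib.MP_f9aece_nt_rt
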