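import Mathlib
import Pool.Agent.Lib.MP_f9aece_nt_rt.TsmRate
import Pool.Agent.Lib.MP_f9aece_nt_rt.SecondLower
import Pool.Agent.Lib.MP_f9aece_nt_rt.Assembly

/-!
R8: the second moment and the logarithmic moment over shifted intervals.
-/

set_option autoImplicit false

namespace Pool.Agent.Lib.MP_f9aece_nt_rt

open MeasureTheory Set Filter Topology Complex
open Pool.Agent.Lib.MP_f9aece_nt
open Pool.Agent.Lib.MP_f9aece_nt_h97

/-! ### comparison of intervals -/

lemma shift_bounds {g : ℝ → ℝ} (hg : Continuous g) {a : ℝ} (ha0 : 0 ≤ a) (ha : ∀ t, -a ≤ g t)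
    (x : ℝ) : ∃ K : ℝ, 0 ≤ K ∧ ∀ T : ℝ, 2 * |x| ≤ T →
      (∫ t in (0 : ℝ)..(T - |x|), g t) - K ≤ ∫ t in x..(x + T), g t ∧
      ∫ t in x..(x + T), g t ≤ (∫ t in (0 : ℝ)..(T + |x|), g t) + K := by
  have hx := abs_nonneg x
  have hx1 := le_abs_self x
  have hx2 := neg_abs_le x
  set h : ℝ → ℝ := fun t => g t + a with hh
  have hc : Continuous h := hg.add continuous_const
  have hh0 : ∀ t, 0 ≤ h t := fun t => by
    have := ha t
    simp only [hh]; linarith
  have hI : ∀ u v, IntervalIntegrable h volume u v := fun u v => hc.intervalIntegrable u v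
  have hgI : ∀ u v, IntervalIntegrable g volume u v := fun u v => hg.intervalIntegrable u v
  have hsplit : ∀ u v, ∫ t in u..v, h t = (∫ t in u..v, g t) + a * (v - u) := by
    intro u v
    simp only [hh]
    rw [intervalIntegral.integral_add (hgI u v) intervalIntegrable_const,
      intervalIntegral.integral_const, smul_eq_mul, mul_comm a]
  set K1 := ∫ t in (-|x|)..(0 : ℝ), h t with hK1
  set K2' := ∫ t in (0 : ℝ)..|x|, h t with hK2
  have hK10 : 0 ≤ K1 := intervalIntegral.integral_nonneg (by linarith) fun t _ => hh0 t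
  have hK20 : 0 ≤ K2' := intervalIntegral.integral_nonneg hx fun t _ => hh0 t
  have hax : 0 ≤ a * |x| := by positivity
  refine ⟨K1 + K2' + a * |x|, by positivity, fun T hT => ⟨?_, ?_⟩⟩
  · have h1 : ∫ t in |x|..(T - |x|), h t ≤ ∫ t in x..(x + T), h t :=
      intervalIntegral.integral_mono_interval hx1 (by linarith) (by linarith)
        (Eventually.of_forall hh0) (hI _ _)
    have h2 : (∫ t in (0 : ℝ)..|x|, h t) + ∫ t in |x|..(T - |x|), h t
        = ∫ t in (0 : ℝ)..(T - |x|), h t :=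
      intervalIntegral.integral_add_adjacent_intervals (hI _ _) (hI _ _)
    rw [hsplit x (x + T)] at h1
    rw [hsplit 0 (T - |x|)] at h2
    have h3 : a * (T - |x| - 0) = a * T - a * |x| := by ring
    have h4 : a * (x + T - x) = a * T := by ring
    rw [h3] at h2
    rw [h4] at h1
    linarith
  · have h1 : ∫ t in x..(x + T), h t ≤ ∫ t in (-|x|)..(T + |x|), h t :=
      intervalIntegral.integral_mono_interval hx2 (by linarith) (by linarith)
        (Eventually.of_forall hh0) (hI _ _)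
    have h2 : (∫ t in (-|x|)..(0 : ℝ), h t) + ∫ t in (0 : ℝ)..(T + |x|), h t
        = ∫ t in (-|x|)..(T + |x|), h t :=
      intervalIntegral.integral_add_adjacent_intervals (hI _ _) (hI _ _)
    rw [← h2, hsplit x (x + T), hsplit 0 (T + |x|)] at h1
    have h3 : a * (T + |x| - 0) = a * T + a * |x| := by ring
    have h4 : a * (x + T - x) = a * T := by ring
    rw [h3, h4] at h1
    linarith

lemma log_close {a b m : ℝ} (hm : 0 < m) (ha : m ≤ a) (hb : m ≤ b) :
    |Real.log a - Real.log b| ≤ |a - b| / m := by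
  have key : ∀ a b : ℝ, m ≤ a → m ≤ b → Real.log a - Real.log b ≤ |a - b| / m := by
    intro a b ha hb
    have hb0 : 0 < b := lt_of_lt_of_le hm hb
    have ha0 : 0 < a := lt_of_lt_of_le hm ha
    rw [← Real.log_div ha0.ne' hb0.ne']
    refine (Real.log_le_sub_one_of_pos (by positivity)).trans ?_
    have h1 : a / b - 1 = (a - b) / b := by field_simp
    rw [h1]
    calc (a - b) / b ≤ |a - b| / b := by gcongr; exact le_abs_self _
      _ ≤ |a - b| / m := by gcongr
  rw [abs_le]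
  constructor
  · have := key b a hb ha
    rw [abs_sub_comm b a] at this
    linarith
  · exact key a b ha hb

/-- comparison of the main terms at neighbouring heights -/
lemma close_main {x T T' : ℝ} (hd : |T' - T| ≤ |x|) (h1 : 2 * |x| ≤ T) (hT : 0 < T)
    (hl : 1 ≤ Real.log (Real.log T)) (hL : 2 ≤ Real.log T)
    (hbig : 10 * |x| * Real.log T ^ 2 ≤ T) :
    |T' * Real.log T' - T * Real.log T| ≤ T ∧
    |T' * Real.log T' * Real.log (Real.log T') - T * Real.log T * Real.log (Real.log T)| ≤ T := by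
  obtain ⟨L, hLd⟩ : ∃ L, L = Real.log T := ⟨_, rfl⟩
  obtain ⟨L', hLd'⟩ : ∃ L', L' = Real.log T' := ⟨_, rfl⟩
  rw [← hLd] at hl hL hbig ⊢
  rw [← hLd']
  obtain ⟨l, hld⟩ : ∃ l, l = Real.log L := ⟨_, rfl⟩
  obtain ⟨l', hld'⟩ : ∃ l', l' = Real.log L' := ⟨_, rfl⟩
  rw [← hld] at hl ⊢
  rw [← hld']
  have hx := abs_nonneg x
  have hd' := abs_le.1 hd
  have hT' : T / 2 ≤ T' := by linarith [hd'.1]
  have hLL : |L' - L| ≤ 2 * |x| / T := by
    rw [hLd, hLd']
    refine (log_close (m := T / 2) (by positivity) hT' (by linarith)).trans ?_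
    rw [div_div_eq_mul_div, mul_comm]
    gcongr
  have h2x : 2 * |x| / T ≤ 1 := by rw [div_le_one hT]; exact h1
  have hLL' := abs_le.1 (hLL.trans h2x)
  have hL1 : 1 ≤ L' := by linarith [hLL'.1]
  have hll : |l' - l| ≤ 2 * |x| / T := by
    rw [hld, hld']
    refine (log_close (m := 1) one_pos hL1 (by linarith)).trans ?_
    rw [div_one]
    exact hLL
  have hll' := abs_le.1 (hll.trans h2x)
  have hlL : l ≤ L := by
    rw [hld]
    have := Real.log_le_sub_one_of_pos (show 0 < L by linarith)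
    linarith
  have hl'0 : 0 ≤ l' := by rw [hld']; exact Real.log_nonneg hL1
  have hL2 : L ≤ L ^ 2 := by nlinarith
  have hxL : |x| * L ≤ |x| * L ^ 2 := by gcongr
  have hTd : T * (2 * |x| / T) = 2 * |x| := by field_simp
  have e1 : |T' - T| * L' ≤ |x| * (2 * L) := by
    have : L' ≤ 2 * L := by linarith [hLL'.2]
    gcongr
  have e2 : T * |L' - L| ≤ 2 * |x| := by
    rw [← hTd]; gcongr
  have e3 : T * |l' - l| ≤ 2 * |x| := by
    rw [← hTd]; gcongr
  constructor
  · have h3 : T' * L' - T * L = (T' - T) * L' + T * (L' - L) := by ring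
    rw [h3]
    refine (abs_add_le _ _).trans ?_
    rw [abs_mul, abs_mul, abs_of_pos hT, abs_of_nonneg (by linarith : (0 : ℝ) ≤ L')]
    have h4 : 2 * |x| ≤ |x| * L := by
      have := mul_le_mul_of_nonneg_left hL hx
      linarith
    linarith
  · have h3 : T' * L' * l' - T * L * l = (T' - T) * L' * l' + T * (L' - L) * l'
        + T * (l' - l) * L := by ring
    rw [h3]
    refine (abs_add_three _ _ _).trans ?_
    rw [abs_mul, abs_mul, abs_mul, abs_mul, abs_mul, abs_mul, abs_of_pos hT,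
      abs_of_nonneg (by linarith : (0 : ℝ) ≤ L'), abs_of_nonneg hl'0,
      abs_of_nonneg (by linarith : (0 : ℝ) ≤ L)]
    have h5 : l' ≤ 2 * L := by linarith [hll'.2]
    have h6 : |T' - T| * L' * l' ≤ |x| * (2 * L) * (2 * L) := by gcongr
    have h7 : T * |L' - L| * l' ≤ 2 * |x| * (2 * L) := by gcongr
    have h8 : T * |l' - l| * L ≤ 2 * |x| * L := by gcongr
    have h9 : |x| * (2 * L) * (2 * L) = 4 * (|x| * L ^ 2) := by ring
    linarith

/-- change of variables -/
lemma shift_integral (G : ℂ → ℝ) (x : ℝ) {T : ℝ} (hT : 0 < T) :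
    ∫ u in (0 : ℝ)..1, G (riemannZeta (1 / 2 + I * x + I * u * T))
      = (∫ t in x..(x + T), G (riemannZeta (1 / 2 + I * t))) / T := by
  have h2 := intervalIntegral.integral_comp_mul_add (a := 0) (b := 1)
    (fun t : ℝ => G (riemannZeta (1 / 2 + I * t))) hT.ne' x
  simp only [mul_zero, zero_add, mul_one, smul_eq_mul] at h2
  rw [add_comm T x] at h2
  rw [div_eq_inv_mul (∫ t in x..(x + T), G (riemannZeta (1 / 2 + I * t))) T, ← h2]
  refine intervalIntegral.integral_congr fun u _ => ?_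
  congr 2
  push_cast
  ring

/-- the numerical conditions hold for large heights -/
lemma ev_cond (x : ℝ) : ∀ᶠ T : ℝ in atTop, 2 * |x| ≤ T ∧ 0 < T ∧ 1 ≤ Real.log (Real.log T) ∧
    2 ≤ Real.log T ∧ 10 * |x| * Real.log T ^ 2 ≤ T := by
  have h1 : ∀ᶠ T : ℝ in atTop, 10 * |x| * Real.log T ^ 2 ≤ T := by
    have h := (isLittleO_log_rpow_atTop (r := 1 / 2) (by norm_num)).bound
      (c := 1 / (10 * |x| + 1)) (by positivity)
    filter_upwards [h, eventually_ge_atTop 1] with T hT hT1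
    have hT0 : 0 < T := by linarith
    have h3 : 0 ≤ Real.log T := Real.log_nonneg hT1
    rw [Real.norm_of_nonneg h3, Real.norm_of_nonneg (by positivity)] at hT
    have h4 : Real.log T ^ 2 ≤ (1 / (10 * |x| + 1) * T ^ (1 / 2 : ℝ)) ^ 2 := by gcongr
    have h5 : (1 / (10 * |x| + 1) * T ^ (1 / 2 : ℝ)) ^ 2 = (1 / (10 * |x| + 1)) ^ 2 * T := by
      rw [mul_pow, ← Real.rpow_natCast (T ^ (1 / 2 : ℝ)) 2, ← Real.rpow_mul hT0.le]
      norm_num
    rw [h5] at h4
    have hx := abs_nonneg x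
    have h6 : 10 * |x| * (1 / (10 * |x| + 1)) ^ 2 ≤ 1 := by
      have h7 : 1 / (10 * |x| + 1) ≤ 1 := by
        rw [div_le_one (by positivity)]; linarith
      have h8 : 10 * |x| * (1 / (10 * |x| + 1)) ≤ 1 := by
        rw [mul_one_div, div_le_one (by positivity)]; linarith
      have h9 : 0 ≤ 1 / (10 * |x| + 1) := by positivity
      calc 10 * |x| * (1 / (10 * |x| + 1)) ^ 2
          = 10 * |x| * (1 / (10 * |x| + 1)) * (1 / (10 * |x| + 1)) := by ring
        _ ≤ 1 * 1 := by gcongr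
        _ = 1 := one_mul 1
    calc 10 * |x| * Real.log T ^ 2 ≤ 10 * |x| * ((1 / (10 * |x| + 1)) ^ 2 * T) := by gcongr
      _ = 10 * |x| * (1 / (10 * |x| + 1)) ^ 2 * T := by ring
      _ ≤ 1 * T := by gcongr
      _ = T := one_mul T
  have hll : Tendsto (fun T : ℝ => Real.log (Real.log T)) atTop atTop :=
    Real.tendsto_log_atTop.comp Real.tendsto_log_atTop
  filter_upwards [h1, eventually_ge_atTop (2 * |x|), eventually_gt_atTop 0,
    hll.eventually_ge_atTop 1, Real.tendsto_log_atTop.eventually_ge_atTop 2] with T a b c d e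
  exact ⟨b, c, d, e, a⟩

/-! ### the second moment -/

lemma second_upper : ∃ C c T0 : ℝ, 0 ≤ C ∧ 0 < c ∧ c ≤ 1 / 2 ∧ ∀ T : ℝ, T0 ≤ T →
    ∫ t in (0 : ℝ)..T, ‖riemannZeta (1 / 2 + I * t)‖ ^ 2
      ≤ T * (Real.log T + C * Real.log T ^ (1 - c)) := by
  obtain ⟨C0, hC0, N, h⟩ := tsm_rate
  obtain ⟨c, hc⟩ : ∃ c : ℝ, c = 1 / (N + 2) := ⟨_, rfl⟩
  have hN0 : (0 : ℝ) ≤ N := Nat.cast_nonneg N
  have hc0 : 0 < c := by rw [hc]; positivity
  have hc1 : c ≤ 1 / 2 := by
    rw [hc]; exact one_div_le_one_div_of_le (by norm_num) (by linarith)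
  have hcN : c * N ≤ 1 - c := by
    have h1 : c * (N + 2) = 1 := by rw [hc]; field_simp
    have h2 : c * (N + 2) = c * N + 2 * c := by ring
    linarith
  have hev : ∀ᶠ T : ℝ in atTop, C0 * Real.log T ≤ T := by
    have h1 := (Real.isLittleO_log_id_atTop).bound (c := 1 / C0) (by positivity)
    filter_upwards [h1, eventually_ge_atTop 1] with T hT hT1
    rw [Real.norm_of_nonneg (Real.log_nonneg hT1), id, Real.norm_of_nonneg (by linarith)] at hT
    calc C0 * Real.log T ≤ C0 * (1 / C0 * T) := by gcongr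
      _ = T := by field_simp
  obtain ⟨T0, hT0⟩ := eventually_atTop.1 (hev.and ((eventually_ge_atTop 1).and
    (Real.tendsto_log_atTop.eventually_ge_atTop 1)))
  refine ⟨1 + 2 * C0, c, T0, by positivity, hc0, hc1, fun T hT => ?_⟩
  obtain ⟨g1, g2, g3⟩ := hT0 T hT
  have hTpos : 0 < T := by linarith
  obtain ⟨L, hL⟩ : ∃ L, L = Real.log T := ⟨_, rfl⟩
  rw [← hL] at g1 g3 ⊢
  have hLpos : 0 < L := by linarith
  have hε0 : 0 < L ^ (-c) := by positivity
  have hε1 : L ^ (-c) ≤ 1 := Real.rpow_le_one_of_one_le_of_nonpos g3 (by linarith)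
  have hinv : (1 / L ^ (-c)) ^ N = L ^ (c * N) := by
    rw [Real.rpow_neg hLpos.le, one_div, inv_inv, ← Real.rpow_natCast, ← Real.rpow_mul hLpos.le]
  have hle : L ^ (c * N) ≤ L ^ (1 - c) := Real.rpow_le_rpow_of_exponent_le g3 hcN
  have hle1 : L ^ (1 - c) ≤ L := by
    calc L ^ (1 - c) ≤ L ^ (1 : ℝ) := Real.rpow_le_rpow_of_exponent_le g3 (by linarith)
      _ = L := Real.rpow_one L
  have hmain := h (L ^ (-c)) hε0 hε1 T (by
    rw [hinv]
    calc C0 * L ^ (c * N) ≤ C0 * L := by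
          have := hle.trans hle1
          gcongr
      _ ≤ T := g1) 1 1 le_rfl (by
      intro n hn
      rw [MonoidAlgebra.one_def] at hn
      by_cases h1 : n = 1
      · subst h1; simp
      · exfalso
        apply hn
        simp [h1])
  have hone : (1 : DP) = MonoidAlgebra.single 1 1 := MonoidAlgebra.one_def
  have hB1 : BK K2 (1 : DP) 1 = 1 := by
    rw [hone, BK, pair_single, pair_single]
    simp [K2]
  have hB2 : BK KL (1 : DP) 1 = 0 := by
    rw [hone, BK, pair_single, pair_single]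
    simp [KL, Kl, Kg]
  have hn : nrm (1 : DP) = 1 := by
    unfold nrm
    rw [hone]
    simp
  rw [hinv, hB1, hB2, hn, ← hL] at hmain
  simp only [abs_one, abs_zero, mul_one, one_pow, add_zero, map_one] at hmain
  refine hmain.trans ?_
  have hT16 : 1 ≤ T ^ (1 / 16 : ℝ) := Real.one_le_rpow g2 (by norm_num)
  have k1 : C0 * L ^ (c * N) ≤ C0 * L ^ (1 - c) := by gcongr
  have k2 : C0 * L ^ (c * N) / T ^ (1 / 16 : ℝ) ≤ C0 * L ^ (1 - c) := by
    refine (div_le_self (by positivity) hT16).trans k1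
  have k3 : L ^ (-c) * L = L ^ (1 - c) := by
    nth_rw 2 [← Real.rpow_one L]
    rw [← Real.rpow_add hLpos]; congr 1; ring
  refine mul_le_mul_of_nonneg_left ?_ hTpos.le
  have k4 : (1 + L ^ (-c)) * L = L + L ^ (1 - c) := by rw [add_mul, one_mul, k3]
  rw [k4]
  linarith

/-- the second moment with a rate, shifted -/
theorem mom_two_rate (x : ℝ) : ∃ C c T0 : ℝ, 0 ≤ C ∧ 0 < c ∧ 16 ≤ T0 ∧ ∀ T : ℝ, T0 ≤ T →
    |mom 2 x T - Real.log T| ≤ C * Real.log T ^ (1 - c) := by
  obtain ⟨C1, c, T1, hC1, hc0, hc1, hup⟩ := second_upper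
  obtain ⟨C2, T2, hC2, hT2, hlo⟩ := second_lower
  obtain ⟨K, hK, hsh⟩ := shift_bounds (g := fun t : ℝ => ‖riemannZeta (1 / 2 + I * t)‖ ^ 2)
    (continuous_zeta.norm.pow 2) (a := 0) le_rfl (fun t => by
      have : 0 ≤ ‖riemannZeta (1 / 2 + I * t)‖ ^ 2 := by positivity
      simpa using this) x
  have hev : ∀ᶠ T : ℝ in atTop, |x| + |T1| + |T2| + K ≤ T := eventually_ge_atTop _
  obtain ⟨T0, hT0⟩ := eventually_atTop.1 (hev.and (ev_cond x))
  refine ⟨4 * C1 + 4 * C2 + 3, c, max 16 T0, by positivity, hc0, le_max_left _ _, fun T hT => ?_⟩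
  have hT16 : 16 ≤ T := (le_max_left _ _).trans hT
  obtain ⟨g0, g1, g2, g3, g4, g5⟩ := hT0 T ((le_max_right _ _).trans hT)
  have hx := abs_nonneg x
  obtain ⟨s1, s2⟩ := hsh T g1
  have hmom : mom 2 x T = (∫ t in x..(x + T), ‖riemannZeta (1 / 2 + I * t)‖ ^ 2) / T := by
    have h1 := shift_integral (fun z => ‖z‖ ^ 2) x g2
    rw [← h1]
    unfold mom
    refine intervalIntegral.integral_congr fun u _ => ?_
    simp only [Real.rpow_two]
  obtain ⟨L, hL⟩ : ∃ L, L = Real.log T := ⟨_, rfl⟩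
  rw [hmom, ← hL]
  have hL2 : 2 ≤ L := by rw [hL]; exact g4
  have hL0 : 0 < L := by linarith
  have hLc : 1 ≤ L ^ (1 - c) := Real.one_le_rpow (by linarith) (by linarith)
  have hloglog : Real.log L ≤ 2 * L ^ (1 - c) := by
    have h1 := Real.log_le_rpow_div hL0.le (show (0 : ℝ) < 1 / 2 by norm_num)
    have h2 : L ^ (1 / 2 : ℝ) ≤ L ^ (1 - c) :=
      Real.rpow_le_rpow_of_exponent_le (by linarith) (by linarith)
    calc Real.log L ≤ L ^ (1 / 2 : ℝ) / (1 / 2) := h1
      _ = 2 * L ^ (1 / 2 : ℝ) := by ring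
      _ ≤ _ := by gcongr
  have habsT1 := le_abs_self T1
  have habsT2 := le_abs_self T2
  have habsT1' := abs_nonneg T1
  have habsT2' := abs_nonneg T2
  rw [abs_le]
  constructor
  · -- lower bound
    have k1 := hlo (T - |x|) (by linarith)
    have k2 := (close_main (x := x) (T := T) (T' := T - |x|) (by
      rw [sub_sub_cancel_left, abs_neg, abs_abs]) g1 g2 g3 g4 g5)
    have k3 := (abs_le.1 k2.1).1
    have hle : Real.log (Real.log (T - |x|)) ≤ Real.log L := by
      have hpos : 0 < T - |x| := by linarith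
      rcases le_or_gt (Real.log (T - |x|)) 0 with h | h
      · -- log of a nonpositive number; impossible
        exfalso
        have h5 := Real.log_le_log (by norm_num : (0 : ℝ) < 8) (by linarith : 8 ≤ T - |x|)
        have h6 : 0 < Real.log 8 := Real.log_pos (by norm_num)
        linarith
      · rw [hL]
        exact Real.log_le_log h (Real.log_le_log hpos (by linarith))
    have k4 : C2 * Real.log (Real.log (T - |x|)) ≤ C2 * (2 * L ^ (1 - c)) := by
      have := hle.trans hloglog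
      gcongr
    have k5 : (T - |x|) * (C2 * Real.log (Real.log (T - |x|))) ≤ T * (C2 * (2 * L ^ (1 - c))) := by
      calc (T - |x|) * (C2 * Real.log (Real.log (T - |x|)))
          ≤ (T - |x|) * (C2 * (2 * L ^ (1 - c))) := by
            have : 0 ≤ T - |x| := by linarith
            gcongr
        _ ≤ T * (C2 * (2 * L ^ (1 - c))) := by gcongr; linarith
    have k6 : T * (-((4 * C1 + 4 * C2 + 3) * L ^ (1 - c)) + L)
        ≤ ∫ t in x..(x + T), ‖riemannZeta (1 / 2 + I * t)‖ ^ 2 := by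
      refine le_trans ?_ s1
      rw [mul_sub] at k1
      rw [← hL] at k3
      have q1 : T * (-((4 * C1 + 4 * C2 + 3) * L ^ (1 - c)) + L)
          = T * L - T * ((4 * C1 + 4 * C2 + 3) * L ^ (1 - c)) := by ring
      rw [q1]
      have q2 : T * (C2 * (2 * L ^ (1 - c))) + 2 * (T * 1)
          ≤ T * ((4 * C1 + 4 * C2 + 3) * L ^ (1 - c)) := by
        have q3 : C2 * (2 * L ^ (1 - c)) + 2 * 1 ≤ (4 * C1 + 4 * C2 + 3) * L ^ (1 - c) := by
          have q4 : 0 ≤ C1 * L ^ (1 - c) := by positivity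
          have q5 : 0 ≤ C2 * L ^ (1 - c) := by positivity
          linarith
        calc T * (C2 * (2 * L ^ (1 - c))) + 2 * (T * 1) = T * (C2 * (2 * L ^ (1 - c)) + 2 * 1) := by
              ring
          _ ≤ _ := by gcongr
      linarith
    have k7 : -((4 * C1 + 4 * C2 + 3) * L ^ (1 - c)) + L
        ≤ (∫ t in x..(x + T), ‖riemannZeta (1 / 2 + I * t)‖ ^ 2) / T := by
      rw [le_div_iff₀ g2, mul_comm]; exact k6
    linarith
  · -- upper bound
    have k1 := hup (T + |x|) (by linarith)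
    have k2 := (close_main (x := x) (T := T) (T' := T + |x|) (by
      rw [add_sub_cancel_left, abs_abs]) g1 g2 g3 g4 g5)
    have k3 := (abs_le.1 k2.1).2
    have hle : Real.log (T + |x|) ≤ 2 * L := by
      have h1 : T + |x| ≤ T ^ 2 := by
        have : T + |x| ≤ 2 * T := by linarith
        nlinarith
      calc Real.log (T + |x|) ≤ Real.log (T ^ 2) := Real.log_le_log (by linarith) h1
        _ = 2 * L := by rw [Real.log_pow, hL]; norm_num
    have hlog0 : 0 ≤ Real.log (T + |x|) := Real.log_nonneg (by linarith)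
    have k4 : Real.log (T + |x|) ^ (1 - c) ≤ 2 * L ^ (1 - c) := by
      calc Real.log (T + |x|) ^ (1 - c) ≤ (2 * L) ^ (1 - c) :=
            Real.rpow_le_rpow hlog0 hle (by linarith)
        _ = 2 ^ (1 - c) * L ^ (1 - c) := by rw [Real.mul_rpow (by norm_num) hL0.le]
        _ ≤ 2 * L ^ (1 - c) := by
            have : (2 : ℝ) ^ (1 - c) ≤ 2 ^ (1 : ℝ) :=
              Real.rpow_le_rpow_of_exponent_le (by norm_num) (by linarith)
            rw [Real.rpow_one] at this
            gcongr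
    have k5 : (T + |x|) * (C1 * Real.log (T + |x|) ^ (1 - c)) ≤ (2 * T) * (C1 * (2 * L ^ (1 - c))) := by
      have h1 : T + |x| ≤ 2 * T := by linarith
      have h2 : 0 ≤ Real.log (T + |x|) ^ (1 - c) := by positivity
      gcongr
    have k6 : ∫ t in x..(x + T), ‖riemannZeta (1 / 2 + I * t)‖ ^ 2
        ≤ T * ((4 * C1 + 4 * C2 + 3) * L ^ (1 - c) + L) := by
      refine s2.trans ?_
      rw [mul_add] at k1
      rw [← hL] at k3
      have q3 : 4 * (C1 * L ^ (1 - c)) + 2 ≤ (4 * C1 + 4 * C2 + 3) * L ^ (1 - c) := by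
        have q5 : 0 ≤ C2 * L ^ (1 - c) := by positivity
        linarith
      have q4 := mul_le_mul_of_nonneg_left q3 g2.le
      have q5 : T * ((4 * C1 + 4 * C2 + 3) * L ^ (1 - c) + L)
        = T * L + T * ((4 * C1 + 4 * C2 + 3) * L ^ (1 - c)) := by ring
      rw [q5]
      linarith
    have k7 : (∫ t in x..(x + T), ‖riemannZeta (1 / 2 + I * t)‖ ^ 2) / T
        ≤ (4 * C1 + 4 * C2 + 3) * L ^ (1 - c) + L := by
      rw [div_le_iff₀ g2, mul_comm]; exact k6
    linarith

/-! ### the logarithmic moment -/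

lemma sq_mul_log_ge_shift {y : ℝ} (hy : 0 ≤ y) : -1 ≤ y ^ 2 * Real.log y := by
  rcases hy.eq_or_lt with h | h
  · rw [← h]; simp
  · have h1 := Real.one_sub_inv_le_log_of_pos h
    have h2 : y ^ 2 * (1 - y⁻¹) ≤ y ^ 2 * Real.log y := by gcongr
    have h3 : y ^ 2 * (1 - y⁻¹) = y ^ 2 - y := by field_simp
    nlinarith [sq_nonneg (y - 1 / 2)]

lemma continuous_sq_mul_log : Continuous (fun y : ℝ => y ^ 2 * Real.log y) := by
  have h : (fun y : ℝ => y ^ 2 * Real.log y) = fun y => y * (y * Real.log y) := by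
    funext y; ring
  rw [h]
  exact continuous_id.mul Real.continuous_mul_log

theorem lmom_rate (x : ℝ) : ∃ C T0 : ℝ, 0 ≤ C ∧ 16 ≤ T0 ∧ ∀ T : ℝ, T0 ≤ T →
    |lmom x T - Real.log T * Real.log (Real.log T)| ≤ C * Real.log T := by
  obtain ⟨C1, T1, hC1, hT1, hup⟩ := main_upper
  obtain ⟨C2, T2, hC2, hT2, hlo⟩ := main_lower
  obtain ⟨K, hK, hsh⟩ := shift_bounds (g := fun t : ℝ => ‖riemannZeta (1 / 2 + I * t)‖ ^ 2
      * Real.log ‖riemannZeta (1 / 2 + I * t)‖)
    (continuous_sq_mul_log.comp continuous_zeta.norm) (a := 1) zero_le_one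
    (fun t => sq_mul_log_ge_shift (norm_nonneg _)) x
  have hev : ∀ᶠ T : ℝ in atTop, |x| + |T1| + |T2| + K ≤ T := eventually_ge_atTop _
  obtain ⟨T0, hT0⟩ := eventually_atTop.1 (hev.and (ev_cond x))
  refine ⟨2 * C1 + 2 * C2 + 2, max 16 T0, by positivity, le_max_left _ _, fun T hT => ?_⟩
  have hT16 : 16 ≤ T := (le_max_left _ _).trans hT
  obtain ⟨g0, g1, g2, g3, g4, g5⟩ := hT0 T ((le_max_right _ _).trans hT)
  have hx := abs_nonneg x
  obtain ⟨s1, s2⟩ := hsh T g1
  have hmom : lmom x T = (∫ t in x..(x + T), ‖riemannZeta (1 / 2 + I * t)‖ ^ 2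
      * Real.log ‖riemannZeta (1 / 2 + I * t)‖) / T :=
    shift_integral (fun z => ‖z‖ ^ 2 * Real.log ‖z‖) x g2
  obtain ⟨L, hL⟩ : ∃ L, L = Real.log T := ⟨_, rfl⟩
  have hL2 : 2 ≤ L := by rw [hL]; exact g4
  have hTL : 2 * T ≤ T * L := by
    have := mul_le_mul_of_nonneg_left hL2 g2.le
    linarith
  have habsT1 := le_abs_self T1
  have habsT2 := le_abs_self T2
  have habsT1' := abs_nonneg T1
  have habsT2' := abs_nonneg T2
  -- lower bound for the integral
  have klo : T * L * Real.log L - (2 * C1 + 2 * C2 + 2) * (T * L)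
      ≤ ∫ t in x..(x + T), ‖riemannZeta (1 / 2 + I * t)‖ ^ 2
        * Real.log ‖riemannZeta (1 / 2 + I * t)‖ := by
    have k1 := hlo (T - |x|) (by linarith)
    have k2 := (close_main (x := x) (T := T) (T' := T - |x|) (by
      rw [sub_sub_cancel_left, abs_neg, abs_abs]) g1 g2 g3 g4 g5)
    rw [← hL] at k2
    have k3 := (abs_le.1 k2.1).2
    have k4 := (abs_le.1 k2.2).1
    have k5 : C2 * ((T - |x|) * Real.log (T - |x|)) ≤ C2 * (2 * (T * L)) := by
      have : (T - |x|) * Real.log (T - |x|) ≤ 2 * (T * L) := by linarith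
      gcongr
    have k6 : 0 ≤ C1 * (T * L) := by positivity
    linarith
  have kup : ∫ t in x..(x + T), ‖riemannZeta (1 / 2 + I * t)‖ ^ 2
        * Real.log ‖riemannZeta (1 / 2 + I * t)‖
      ≤ T * L * Real.log L + (2 * C1 + 2 * C2 + 2) * (T * L) := by
    have k1 := hup (T + |x|) (by linarith)
    have k2 := (close_main (x := x) (T := T) (T' := T + |x|) (by
      rw [add_sub_cancel_left, abs_abs]) g1 g2 g3 g4 g5)
    rw [← hL] at k2
    have k3 := (abs_le.1 k2.1).2
    have k4 := (abs_le.1 k2.2).2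
    have k5 : C1 * ((T + |x|) * Real.log (T + |x|)) ≤ C1 * (2 * (T * L)) := by
      have : (T + |x|) * Real.log (T + |x|) ≤ 2 * (T * L) := by linarith
      gcongr
    have k6 : 0 ≤ C2 * (T * L) := by positivity
    linarith
  rw [hmom, ← hL, abs_le]
  constructor
  · have k7 : L * Real.log L - (2 * C1 + 2 * C2 + 2) * L
        ≤ (∫ t in x..(x + T), ‖riemannZeta (1 / 2 + I * t)‖ ^ 2
          * Real.log ‖riemannZeta (1 / 2 + I * t)‖) / T := by
      rw [le_div_iff₀ g2]
      refine le_trans (le_of_eq ?_) klo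
      ring
    linarith
  · have k7 : (∫ t in x..(x + T), ‖riemannZeta (1 / 2 + I * t)‖ ^ 2
          * Real.log ‖riemannZeta (1 / 2 + I * t)‖) / T
        ≤ L * Real.log L + (2 * C1 + 2 * C2 + 2) * L := by
      rw [div_le_iff₀ g2]
      refine kup.trans (le_of_eq ?_)
      ring
    linarith

end Pool.Agent.Lib.MP_f9aece_nt_rt
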