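import Mathlib
import Pool.Agent.Lib.MP_f9aece_nt_rt.Explicit

/-!
S1 of the rate project: lower bound companion of `total_explicit`.
-/

set_option autoImplicit false

namespace Pool.Agent.Lib.MP_f9aece_nt_rt

open MeasureTheory Set Filter Topology Complex
open Pool.Agent.Lib.MP_f9aece_nt (DP pair BK K2 K2_nonneg K2_eq_inv_lcm)
open Pool.Agent.Lib.MP_f9aece_nt_h97

section

variable {K : Ker} {B0 B2 : ℝ}

theorem Bd.dual_lower (hBd : Bd K B0 B2) {T : ℝ} (hT : 2 * K.L ≤ T) {D : DP} {H : ℝ}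
    (hD : ∀ n, D.coeff n ≠ 0 → 1 ≤ n ∧ (n : ℝ) ≤ H) {x0 : ℝ} (hx0 : 0 < x0) {Ξ : ℕ} (hΞ : 1 ≤ Ξ)
    {δ : ℝ} (hδ : 0 < δ) (hδ1 : δ ≤ 1) :
    (1 - δ) * (K.Md T x0 D - Ed1 K B0 T x0 H Ξ D) - (1 / δ - 1) * Ed2 B2 T x0 Ξ D
      ≤ ∫ x in Ioo 0 x0, QQ (K.phi T) D x ^ 2 := by
  have hL := K.hL
  have hT0 : 0 < T := by linarith
  have hD1 : ∀ n, D.coeff n ≠ 0 → 1 ≤ n := fun n hn => (hD n hn).1
  have hΞ0 : (0 : ℝ) < Ξ := by exact_mod_cast hΞ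
  have hB2 := hBd.p2
  have ha : 0 < x0⁻¹ := by positivity
  rw [Ker.integral_inv_sq _ hx0]
  obtain ⟨i1, s1⟩ := hBd.PX_sq hT0 hD Ξ x0⁻¹
  have s2 := K.diag_eval hT0 ha hD1 hΞ
  set A := ∫ X in Ioi x0⁻¹, K.PX T D Ξ X ^ 2 with hA
  -- bound for A
  have hA1 : K.Md T x0 D - Ed1 K B0 T x0 H Ξ D ≤ 4 / T ^ 2 * A := by
    have h1 := neg_le_of_abs_le s1
    have h2 := neg_le_of_abs_le s2
    have e1 : T / x0⁻¹ = T * x0 := by rw [div_inv_eq_mul]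
    have e2 : x0⁻¹ / T = 1 / (T * x0) := by field_simp
    have e3 : T / (Ξ * x0⁻¹) = T * x0 / Ξ := by field_simp
    rw [e1, e2, e3] at h2
    have h3 : T / 2 * (K.m2 / 2 * ((Real.log (T * x0) + γE) * BK K2 D D + BK Kg D D)
        + K.c2 * BK K2 D D)
        - T / 2 * (nrm D ^ 2 * (2 * (1 / (T * x0)) ^ (1 / 2 : ℝ) * K.I1 + T * x0 / Ξ * K.I2))
        - CKx K B0 * (Ξ * H * nrm D) ^ 2 ≤ A := by linarith
    have h4 : 4 / T ^ 2 * (T / 2 * (K.m2 / 2 * ((Real.log (T * x0) + γE) * BK K2 D D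
        + BK Kg D D) + K.c2 * BK K2 D D)
        - T / 2 * (nrm D ^ 2 * (2 * (1 / (T * x0)) ^ (1 / 2 : ℝ) * K.I1 + T * x0 / Ξ * K.I2))
        - CKx K B0 * (Ξ * H * nrm D) ^ 2) ≤ 4 / T ^ 2 * A := by gcongr
    refine (le_of_eq ?_).trans h4
    unfold Ker.Md Ed1
    field_simp
    ring
  -- pointwise bound
  set R : ℝ := 2 * B2 * T ^ 2 * nrm D / Ξ with hR
  have hpt : ∀ X ∈ Ioi x0⁻¹, (1 - δ) * (4 / T ^ 2 * K.PX T D Ξ X ^ 2)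
        - (1 / δ - 1) * (4 / T ^ 2 * (R ^ 2 * X ^ (-4 : ℝ)))
      ≤ X ^ (-2 : ℝ) * QQ (K.phi T) D X⁻¹ ^ 2 := by
    intro X hX
    have hX0 : (0 : ℝ) < X := lt_trans ha hX
    rw [K.QQ_dual hT hD1 hX0]
    have e1 : X ^ (-2 : ℝ) = 1 / X ^ 2 := by
      rw [Real.rpow_neg hX0.le, one_div]; norm_num
    have e2 : X ^ (-4 : ℝ) = 1 / X ^ 4 := by
      rw [Real.rpow_neg hX0.le, one_div]
      congr 1
      have : (4 : ℝ) = ((4 : ℕ) : ℝ) := by norm_num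
      rw [this, Real.rpow_natCast]
    rw [e1, e2]
    have h1 := hBd.PP_sub_PX hT0 hD1 hΞ hX0
    set r := K.PP T D X - K.PX T D Ξ X with hr
    have h2 : K.PP T D X = K.PX T D Ξ X + r := by rw [hr]; ring
    have h3 : r ^ 2 ≤ R ^ 2 * (1 / X ^ 4) := by
      have h4 : |r| ≤ R * (1 / X ^ 2) := by
        refine h1.trans (le_of_eq ?_)
        rw [hR]
        field_simp
      calc r ^ 2 = |r| ^ 2 := (sq_abs r).symm
        _ ≤ (R * (1 / X ^ 2)) ^ 2 := by gcongr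
        _ = _ := by ring
    have hδ' : 0 ≤ 1 / δ - 1 := by
      rw [sub_nonneg, le_div_iff₀ hδ]
      linarith
    have h5 : (1 - δ) * K.PX T D Ξ X ^ 2 - (1 / δ - 1) * r ^ 2 ≤ K.PP T D X ^ 2 := by
      rw [h2]
      have h6 : 0 ≤ (δ * K.PX T D Ξ X + r) ^ 2 / δ := by positivity
      have h7 : (δ * K.PX T D Ξ X + r) ^ 2 / δ
          = δ * K.PX T D Ξ X ^ 2 + 2 * (K.PX T D Ξ X * r) + 1 / δ * r ^ 2 := by
        field_simp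
        ring
      rw [h7] at h6
      have h8 : (K.PX T D Ξ X + r) ^ 2 = K.PX T D Ξ X ^ 2 + 2 * (K.PX T D Ξ X * r) + r ^ 2 := by ring
      rw [h8, sub_mul, sub_mul, one_mul, one_mul]
      linarith only [h6]
    have e3 : 1 / X ^ 2 * (2 * X / T * K.PP T D X) ^ 2 = 4 / T ^ 2 * K.PP T D X ^ 2 := by
      field_simp
      ring
    rw [e3]
    calc (1 - δ) * (4 / T ^ 2 * K.PX T D Ξ X ^ 2)
        - (1 / δ - 1) * (4 / T ^ 2 * (R ^ 2 * (1 / X ^ 4)))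
        = 4 / T ^ 2 * ((1 - δ) * K.PX T D Ξ X ^ 2 - (1 / δ - 1) * (R ^ 2 * (1 / X ^ 4))) := by ring
      _ ≤ 4 / T ^ 2 * K.PP T D X ^ 2 := by
          gcongr
          refine le_trans ?_ h5
          gcongr
  have i2 : IntegrableOn (fun X : ℝ => X ^ (-4 : ℝ)) (Ioi x0⁻¹) :=
    integrableOn_Ioi_rpow_of_lt (by norm_num) ha
  have c4 : ∫ X in Ioi x0⁻¹, X ^ (-4 : ℝ) = x0 ^ 3 / 3 := by
    rw [integral_Ioi_rpow_of_lt (by norm_num) ha]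
    have e1 : (x0⁻¹) ^ ((-4 : ℝ) + 1) = x0 ^ 3 := by
      rw [Real.inv_rpow hx0.le, ← Real.rpow_neg hx0.le]
      have : -((-4 : ℝ) + 1) = ((3 : ℕ) : ℝ) := by norm_num
      rw [this, Real.rpow_natCast]
    rw [e1]
    norm_num
  have j1 : Integrable (fun X => (1 - δ) * (4 / T ^ 2 * K.PX T D Ξ X ^ 2)) (volume.restrict (Ioi x0⁻¹)) :=
    (Integrable.const_mul i1 _).const_mul _
  have j2 : Integrable (fun X : ℝ => (1 / δ - 1) * (4 / T ^ 2 * (R ^ 2 * X ^ (-4 : ℝ))))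
      (volume.restrict (Ioi x0⁻¹)) := (((Integrable.const_mul i2 _).const_mul _).const_mul _)
  have j3 : IntegrableOn (fun X : ℝ => X ^ (-2 : ℝ) * QQ (K.phi T) D X⁻¹ ^ 2) (Ioi x0⁻¹) := by
    have h1 : IntegrableOn (fun x : ℝ => QQ (K.phi T) D x ^ 2) (Ioi 0) := K.QQ_int2 hT hD1
    have h2 := (integrableOn_Ioi_comp_rpow_iff (fun x : ℝ => QQ (K.phi T) D x ^ 2)
      (p := -1) (by norm_num)).mpr h1
    refine (h2.mono_set (Ioi_subset_Ioi ha.le)).congr_fun (fun X hX => ?_) measurableSet_Ioi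
    show (|(-1 : ℝ)| * X ^ ((-1 : ℝ) - 1)) • QQ (K.phi T) D (X ^ (-1 : ℝ)) ^ 2 = _
    rw [Real.rpow_neg_one, abs_neg, abs_one, one_mul, smul_eq_mul]
    have e : ((-1 : ℝ) - 1) = -2 := by norm_num
    rw [e]
  have hmono : ∫ X in Ioi x0⁻¹, ((1 - δ) * (4 / T ^ 2 * K.PX T D Ξ X ^ 2)
        - (1 / δ - 1) * (4 / T ^ 2 * (R ^ 2 * X ^ (-4 : ℝ))))
      ≤ ∫ X in Ioi x0⁻¹, X ^ (-2 : ℝ) * QQ (K.phi T) D X⁻¹ ^ 2 :=
    setIntegral_mono_on (j1.sub j2) j3 measurableSet_Ioi hpt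
  refine le_trans ?_ hmono
  rw [integral_sub j1 j2, integral_const_mul, integral_const_mul, integral_const_mul,
    integral_const_mul, integral_const_mul, c4]
  have e4 : 4 / T ^ 2 * (R ^ 2 * (x0 ^ 3 / 3)) = Ed2 B2 T x0 Ξ D := by
    unfold Ed2
    rw [hR]
    field_simp
    try ring
  rw [e4]
  have h0 : 0 ≤ 1 - δ := by linarith
  gcongr

section pieces

lemma te_E2l {B2 N H τ Ξ : ℝ} (hτ : 1 ≤ τ) (hNH : N ^ 2 ≤ (N * H) ^ 2) (hΞ2 : τ ^ 6 ≤ Ξ) :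
    (1 / (τ ^ 2)⁻¹ - 1) * (16 / 3 * B2 ^ 2 * (τ ^ 16) ^ 2 * ((τ ^ 14)⁻¹) ^ 3 * N ^ 2 / Ξ ^ 2)
      ≤ 22 * B2 ^ 2 * (N * H) ^ 2 / τ ^ 17 := by
  have h := te_E2 (B2 := B2) hτ hNH hΞ2
  have hτ0 : 0 < τ := lt_of_lt_of_le one_pos hτ
  have b3 : 0 ≤ 16 / 3 * B2 ^ 2 * (τ ^ 16) ^ 2 * ((τ ^ 14)⁻¹) ^ 3 * N ^ 2 / Ξ ^ 2 := by positivity
  refine le_trans (mul_le_mul_of_nonneg_right ?_ b3) h
  linarith only

lemma te_mainl {T m2 γ c2 S Sl Sg l L : ℝ} (hT0 : 0 < T) (hm2 : 0 ≤ m2) (hL : |L| ≤ m2 / T) :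
    1 / T * (m2 * (16 * l * S - (Sl - Sg)) - (2 * m2 * |γ| + 2 * |c2| + m2) * |S|)
      ≤ 1 / T * (m2 * ((2 * l + γ) * S + Sg) + 2 * c2 * S)
      + (m2 / T * ((14 * l + γ) * S - Sl) + L * S) := by
  have t1 : -(m2 / T * |S|) ≤ L * S := by
    have : |L * S| ≤ m2 / T * |S| := by
      rw [abs_mul]
      exact mul_le_mul_of_nonneg_right hL (abs_nonneg _)
    exact neg_le_of_abs_le this
  have t2 : -(|γ| * |S|) ≤ γ * S := by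
    rw [← abs_mul]; exact neg_abs_le _
  have t3 : -(|c2| * |S|) ≤ c2 * S := by
    rw [← abs_mul]; exact neg_abs_le _
  have e1 : 1 / T * (m2 * ((2 * l + γ) * S + Sg) + 2 * c2 * S)
      + (m2 / T * ((14 * l + γ) * S - Sl) + L * S)
      = 1 / T * (m2 * (16 * l * S - (Sl - Sg)) + 2 * m2 * (γ * S) + 2 * (c2 * S)) + L * S := by
    field_simp
    ring
  have e2 : 1 / T * (m2 * (16 * l * S - (Sl - Sg)) - (2 * m2 * |γ| + 2 * |c2| + m2) * |S|)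
      = 1 / T * (m2 * (16 * l * S - (Sl - Sg)) + 2 * m2 * (-(|γ| * |S|))
        + 2 * (-(|c2| * |S|))) + -(m2 / T * |S|) := by
    field_simp
    ring
  rw [e1, e2]
  refine add_le_add (mul_le_mul_of_nonneg_left (add_le_add (add_le_add le_rfl
    (mul_le_mul_of_nonneg_left t2 (mul_nonneg two_pos.le hm2)))
    (mul_le_mul_of_nonneg_left t3 two_pos.le)) (one_div_pos.mpr hT0).le) t1

lemma te_finl {IU ID Md E1 E2' Mt m2 ml γ c2 CK I1 I2 B2 Z Y De δ C T S : ℝ}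
    (hm2 : 0 ≤ m2) (hCK : 0 ≤ CK) (hI1 : 0 ≤ I1) (hI2 : 0 ≤ I2) (hZ : 0 ≤ Z)
    (hSa : 0 ≤ 1 / T * |S|) (hδ0 : 0 ≤ δ) (hE10 : 0 ≤ E1)
    (hC : C = 2 * (2 * m2 * |γ| + 2 * |c2| + m2) + 2 * (4 * m2 + m2 * |γ| + 2 * |c2|)
      + 32 * CK + 16 * I1 + 8 * I2 + 22 * B2 ^ 2 + 6 * m2 + 13 * ml ^ 2 + 2 * (CK * 16))
    (sU : (1 - δ) * (Md - E1) - E2' ≤ IU)
    (hD2 : -De ≤ ID - Mt)
    (hmain : Y - (2 * m2 * |γ| + 2 * |c2| + m2) * (1 / T * |S|) ≤ Md + Mt)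
    (hδMd : δ * |Md| ≤ (4 * m2 + m2 * |γ| + 2 * |c2|) * Z)
    (hE1 : E1 ≤ (16 * CK + 4 * I1 + 2 * I2) * Z)
    (hE2 : E2' ≤ 22 * B2 ^ 2 * Z)
    (hDe : De ≤ (6 * m2 + 13 * ml ^ 2) * Z) :
    Y - C * (1 / T * |S|) - C * Z ≤ IU + ID := by
  have hgam : 0 ≤ |γ| := abs_nonneg _
  have hc2a : 0 ≤ |c2| := abs_nonneg _
  have hmg : 0 ≤ m2 * |γ| := mul_nonneg hm2 hgam
  have hb2 := sq_nonneg B2
  have hl2 := sq_nonneg ml
  have c1 : (2 * m2 * |γ| + 2 * |c2| + m2) * (1 / T * |S|) ≤ C * (1 / T * |S|) := by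
    refine mul_le_mul_of_nonneg_right ?_ hSa
    rw [hC]
    linarith only [hm2, hCK, hI1, hI2, hc2a, hmg, hb2, hl2]
  have c2' : ((4 * m2 + m2 * |γ| + 2 * |c2|) + (16 * CK + 4 * I1 + 2 * I2)
      + 22 * B2 ^ 2 + (6 * m2 + 13 * ml ^ 2)) * Z ≤ C * Z := by
    refine mul_le_mul_of_nonneg_right ?_ hZ
    rw [hC]
    linarith only [hm2, hCK, hI1, hI2, hc2a, hmg, hb2, hl2]
  have h2 : 0 ≤ δ * E1 := mul_nonneg hδ0 hE10
  have h4 : δ * Md ≤ δ * |Md| := mul_le_mul_of_nonneg_left (le_abs_self _) hδ0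
  have h3 : (1 - δ) * (Md - E1) = Md - δ * Md - E1 + δ * E1 := by ring
  rw [h3] at sU
  linarith only [sU, hD2, hmain, hδMd, hE1, hE2, hDe, c1, c2', h2, h4]

end pieces

set_option maxHeartbeats 4000000 in
/-- lower bound for the total quadratic mean, with the same constant -/
theorem total_lower (K : Ker) {B0 B2 : ℝ} (hB0 : 0 < B0) (hB2 : 0 < B2)
    (h0 : ∀ w, |K.G w| ≤ B0) (h2 : ∀ w, 0 < w → |K.G w| ≤ B2 / w ^ 2) :
    ∀ τ : ℝ, 1 ≤ τ → 2 * K.L < τ ^ 2 → ∀ (D : DP) (H : ℝ), 1 ≤ H →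
    (∀ n, D.coeff n ≠ 0 → 1 ≤ n ∧ (n : ℝ) ≤ H) →
    1 / τ ^ 16 * (K.m2 * (Real.log (τ ^ 16) * BK K2 D D - BK KL D D)
          - CT K B0 B2 * |BK K2 D D|) - CT K B0 B2 * (nrm D * H) ^ 2 / τ ^ 17
      ≤ ∫ x in Ioi (0 : ℝ), QQ (K.phi (τ ^ 16)) D x ^ 2 := by
  have hBd : Bd K B0 B2 := ⟨hB0, hB2, h0, h2⟩
  clear h0 h2
  have hm2 := K.m2_nonneg
  have hCK := hBd.CK_nonneg
  have hI1 := K.I1_nonneg
  have hI2 := K.I2_nonneg
  have hml := K.ml_nonneg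
  have hL := K.hL
  have hCT : CT K B0 B2 = 2 * (2 * K.m2 * |γE| + 2 * |K.c2| + K.m2)
    + 2 * (4 * K.m2 + K.m2 * |γE| + 2 * |K.c2|)
    + 32 * CKx K B0 + 16 * K.I1 + 8 * K.I2 + 22 * B2 ^ 2 + 6 * K.m2 + 13 * K.ml ^ 2
    + 2 * ((CKx K B0) * 16) := by
    unfold CT CKx
    ring
  rw [hCT]
  set C := 2 * (2 * K.m2 * |γE| + 2 * |K.c2| + K.m2) + 2 * (4 * K.m2 + K.m2 * |γE| + 2 * |K.c2|)
    + 32 * CKx K B0 + 16 * K.I1 + 8 * K.I2 + 22 * B2 ^ 2 + 6 * K.m2 + 13 * K.ml ^ 2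
    + 2 * ((CKx K B0) * 16) with hC
  intro τ hτ hLτ D H hH hD
  have hτ0 : 0 < τ := by linarith
  have hD1 : ∀ n, D.coeff n ≠ 0 → 1 ≤ n := fun n hn => (hD n hn).1
  set T := τ ^ 16 with hTdef
  have hT0 : 0 < T := by positivity
  have hT : 2 * K.L ≤ T := by
    have : τ ^ 2 ≤ τ ^ 16 := pow_le_pow_right₀ hτ (by norm_num)
    rw [hTdef]; linarith
  set x0 : ℝ := (τ ^ 14)⁻¹ with hx0def
  have hx0 : 0 < x0 := by positivity
  have hx01 : x0 ≤ 1 := inv_le_one_of_one_le₀ (one_le_pow₀ hτ)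
  have hε : ∀ y, K.phi T y ≠ 0 → |y - 1| ≤ K.L / T := fun y hy => K.phi_supp hT0 hy
  have hεx : 2 * (K.L / T) < x0 := by
    rw [hx0def, hTdef, ← mul_div_assoc, div_lt_iff₀ (by positivity)]
    have : (τ ^ 14)⁻¹ * τ ^ 16 = τ ^ 2 := by field_simp
    rw [this]; exact hLτ
  -- cutoff
  obtain ⟨Ξ, hΞ1, hΞ2, hΞ3⟩ : ∃ Ξ : ℕ, 1 ≤ Ξ ∧ τ ^ 6 ≤ Ξ ∧ (Ξ : ℝ) ≤ 2 * τ ^ 6 := by
    have h1 : (1 : ℝ) ≤ τ ^ 6 := one_le_pow₀ hτ
    refine ⟨⌈τ ^ 6⌉₊, Nat.one_le_ceil_iff.mpr (by positivity), Nat.le_ceil _, ?_⟩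
    have := (Nat.ceil_lt_add_one (a := τ ^ 6) (by positivity)).le
    linarith
  have hΞ0 : (0 : ℝ) < Ξ := by exact_mod_cast hΞ1
  set δ : ℝ := (τ ^ 2)⁻¹ with hδdef
  have hδ : 0 < δ := by positivity
  have hδ1 : δ ≤ 1 := inv_le_one_of_one_le₀ (one_le_pow₀ hτ)
  have hB := K.phi_bmp hT
  obtain ⟨iD, sD⟩ := hB.direct hε hD1 hx0 hx01 hεx
  have sU := hBd.dual_lower hT hD hx0 hΞ1 hδ hδ1
  have hQ2 := K.QQ_int2 hT hD1
  have hsplit : ∫ x in Ioi (0 : ℝ), QQ (K.phi T) D x ^ 2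
      = (∫ x in Ioo 0 x0, QQ (K.phi T) D x ^ 2) + ∫ x in Ioi x0, QQ (K.phi T) D x ^ 2 := by
    rw [← integral_Ioc_eq_integral_Ioo, ← Ioc_union_Ioi_eq_Ioi hx0.le,
      setIntegral_union (by
        rw [Set.disjoint_left]
        intro x h1 h2
        exact absurd h1.2 (not_le.mpr h2)) measurableSet_Ioi
        (hQ2.mono_set Ioc_subset_Ioi_self) (hQ2.mono_set (Ioi_subset_Ioi hx0.le))]
  rw [hsplit]
  set S := BK K2 D D with hS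
  set Sl := BK Kl D D with hSl
  set Sg := BK Kg D D with hSg
  set N := nrm D with hN
  have hN0 : 0 ≤ N := nrm_nonneg D
  have hSN : |S| ≤ N ^ 2 := by
    have := abs_BK_le (K := K2) (B := 1) (fun a b ha hb => K2_le_one ha hb) hD1
    rw [mul_one] at this
    exact this
  have hSgN : |Sg| ≤ N ^ 2 := by
    have := abs_BK_le (K := Kg) (B := 1) (fun a b ha hb => Kg_le_one ha hb) hD1
    rw [mul_one] at this
    exact this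
  have hphi2 : ∫ y, K.phi T y ^ 2 = K.m2 / T := by
    rw [K.integral_phi_sq hT0, inv_mul_eq_div]
  have hphil : ∫ y, |K.phi T y| = K.ml / T := by
    rw [K.integral_abs_phi hT0, inv_mul_eq_div]
  have hlm : |lm (K.phi T)| ≤ K.m2 / T := by
    have := hB.abs_lm_le
    rwa [hphi2, mul_one] at this
  rw [hphi2, hphil] at sD
  have hlogx : Real.log (1 / x0) = 14 * Real.log τ := by
    rw [hx0def, one_div, inv_inv, Real.log_pow]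
    norm_num
  have hTx : T * x0 = τ ^ 2 := by
    rw [hTdef, hx0def]; field_simp
  have hlogTx : Real.log (T * x0) = 2 * Real.log τ := by
    rw [hTx, Real.log_pow]; norm_num
  have hlogT : Real.log T = 16 * Real.log τ := by
    rw [hTdef, Real.log_pow]; norm_num
  have hlt0 : 0 ≤ Real.log τ := Real.log_nonneg hτ
  have hlt1 : Real.log τ ≤ τ := by
    have := Real.log_le_sub_one_of_pos hτ0
    linarith
  -- powers
  have hx0h : x0 ^ (1 / 2 : ℝ) = 1 / τ ^ 7 := by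
    have : x0 = (1 / τ ^ 7) ^ 2 := by rw [hx0def]; field_simp
    rw [this, ← Real.rpow_natCast, ← Real.rpow_mul (one_div_pos.mpr (pow_pos hτ0 7)).le]
    norm_num
  have hTxh : (1 / (T * x0)) ^ (1 / 2 : ℝ) = 1 / τ := by
    have : 1 / (T * x0) = (1 / τ) ^ 2 := by rw [hTx, one_div_pow]
    rw [this, ← Real.rpow_natCast, ← Real.rpow_mul (one_div_pos.mpr hτ0).le]
    norm_num
  rw [hlogx, hx0h] at sD
  have hD2 := neg_le_of_abs_le sD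
  -- dual main
  have hMd : K.Md T x0 D = 1 / T * (K.m2 * ((2 * Real.log τ + γE) * S + Sg) + 2 * K.c2 * S) := by
    unfold Ker.Md; rw [hlogTx]
  have hMdabs : |K.Md T x0 D| ≤ 1 / T * ((4 * K.m2 + K.m2 * |γE| + 2 * |K.c2|) * τ * N ^ 2) := by
    rw [hMd, abs_mul, abs_of_pos (one_div_pos.mpr hT0)]
    exact mul_le_mul_of_nonneg_left (te_Md hm2 hτ hlt0 hlt1 hSN hSgN) (one_div_pos.mpr hT0).le
  have hNH : N ^ 2 ≤ (N * H) ^ 2 := pow_le_pow_left₀ hN0 (le_mul_of_one_le_right hN0 hH) 2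
  have hcf : 0 ≤ 4 * K.m2 + K.m2 * |γE| + 2 * |K.c2| :=
    add_nonneg (add_nonneg (mul_nonneg four_pos.le hm2) (mul_nonneg hm2 (abs_nonneg _)))
      (mul_nonneg two_pos.le (abs_nonneg _))
  have hδMd := te_dMd (H := H) (M := |K.Md T x0 D|) hcf hτ0 hNH (by rw [abs_abs]; exact hMdabs)
  have hE1 : Ed1 K B0 T x0 H Ξ D ≤ (16 * CKx K B0 + 4 * K.I1 + 2 * K.I2) * (N * H) ^ 2 / τ ^ 17 := by
    unfold Ed1
    rw [hTxh, hTx, ← hN]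
    exact te_E1 hCK hI1 hI2 hτ hN0 hH hΞ0 hΞ2 hΞ3
  have hE10 : 0 ≤ Ed1 K B0 T x0 H Ξ D := by
    unfold Ed1
    have hH0 : 0 ≤ H := zero_le_one.trans hH
    clear_value T x0 N
    clear hE1 hδMd hMdabs hMd hD2 sD sU hQ2 hB iD hsplit hphi2 hphil hlm hSN hSgN hcf hC
    positivity
  have hE2 : (1 / δ - 1) * Ed2 B2 T x0 Ξ D ≤ 22 * B2 ^ 2 * (N * H) ^ 2 / τ ^ 17 := by
    unfold Ed2
    rw [← hN]
    exact te_E2l hτ hNH hΞ2
  have hDe : N ^ 2 * (6 * (K.m2 / T) * (1 / τ ^ 7) + 13 * (K.ml / T) ^ 2 / x0)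
      ≤ (6 * K.m2 + 13 * K.ml ^ 2) * (N * H) ^ 2 / τ ^ 17 := te_De hm2 hτ hNH
  -- main terms
  have hKL : BK KL D D = Sl - Sg := BK_KL D
  rw [hKL]
  have hmain : 1 / T * (K.m2 * (Real.log T * S - (Sl - Sg)) - (2 * K.m2 * |γE| + 2 * |K.c2| + K.m2) * |S|)
      ≤ K.Md T x0 D + (K.m2 / T * ((14 * Real.log τ + γE) * S - Sl) + lm (K.phi T) * S) := by
    rw [hMd, hlogT]
    exact te_mainl hT0 hm2 hlm
  have hZ : 0 ≤ (N * H) ^ 2 / τ ^ 17 := div_nonneg (sq_nonneg _) (pow_pos hτ0 17).le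
  have hSabs : 0 ≤ 1 / T * |S| := mul_nonneg (one_div_pos.mpr hT0).le (abs_nonneg _)
  have f1 : ∀ c : ℝ, c * (N * H) ^ 2 / τ ^ 17 = c * ((N * H) ^ 2 / τ ^ 17) :=
    fun c => mul_div_assoc _ _ _
  have e9 : 1 / T * (K.m2 * (Real.log T * S - (Sl - Sg)) - C * |S|)
      = 1 / T * (K.m2 * (Real.log T * S - (Sl - Sg))) - C * (1 / T * |S|) := by ring
  have e10 : 1 / T * (K.m2 * (Real.log T * S - (Sl - Sg)) - (2 * K.m2 * |γE| + 2 * |K.c2| + K.m2) * |S|)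
      = 1 / T * (K.m2 * (Real.log T * S - (Sl - Sg)))
        - (2 * K.m2 * |γE| + 2 * |K.c2| + K.m2) * (1 / T * |S|) := by ring
  rw [e9, f1]
  rw [e10] at hmain
  rw [f1] at hDe hE2 hE1 hδMd
  exact te_finl hm2 hCK hI1 hI2 hZ hSabs hδ.le hE10 hC sU hD2 hmain hδMd hE1 hE2 hDe

end

end Pool.Agent.Lib.MP_f9aece_nt_rt
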