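import Mathlib
import Pool.Agent.Lib.MP_f9aece_nt.LogSub
import Pool.Agent.Lib.MP_f9aece_nt_rt.Defs

/-!
R9, part 1: the moments in a window around the exponent `2`, from the logarithmic moment and
uniform upper bounds.
-/

set_option autoImplicit false

namespace Pool.Agent.Lib.MP_f9aece_nt_rt

open MeasureTheory Set Filter Topology Complex
open Pool.Agent.Lib.MP_f9aece_nt

/-- `|e^y - 1 - y| ≤ y^2 e^{|y|}` -/
lemma abs_exp_sub_one_sub_id_le_mul (y : ℝ) :
    |Real.exp y - 1 - y| ≤ y ^ 2 * Real.exp |y| := by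
  rcases le_total |y| 1 with h | h
  · have h1 := Real.abs_exp_sub_one_sub_id_le h
    have h2 : 1 ≤ Real.exp |y| := Real.one_le_exp (abs_nonneg y)
    nlinarith [sq_nonneg y]
  · have h0 : 0 ≤ Real.exp y - 1 - y := by linarith [Real.add_one_le_exp y]
    rw [abs_of_nonneg h0]
    have h3 : 1 ≤ y ^ 2 := by
      rw [← sq_abs]
      nlinarith
    rcases le_total 0 y with hy | hy
    · rw [abs_of_nonneg hy]
      nlinarith [Real.exp_pos y]
    · rw [abs_of_nonpos hy] at h ⊢
      have h4 : Real.exp y ≤ 1 := Real.exp_le_one_iff.2 hy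
      have h5 : -y + 1 ≤ Real.exp (-y) := Real.add_one_le_exp _
      nlinarith

/-- the pointwise inequality -/
lemma pointwise {z s h lam : ℝ} (hz : 0 ≤ z) (hs : 0 < s) (hs1 : s ≤ 1) (hh : |h| ≤ s / 2) :
    |z ^ (2 + h) * Real.exp (-(h * lam)) - z ^ 2 - h * (z ^ 2 * Real.log z - lam * z ^ 2)|
      ≤ 8 * h ^ 2 / s ^ 2 * (z ^ (2 + s) * Real.exp (-(s * lam))
        + z ^ (2 - s) * Real.exp (s * lam)) := by
  rcases hz.eq_or_lt with hz0 | hz0
  · subst hz0
    have h1 : (2 + h) ≠ 0 := by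
      have := abs_le.1 hh
      intro h0
      linarith [this.1]
    rw [Real.zero_rpow h1, Real.zero_rpow (by linarith), Real.zero_rpow (by linarith)]
    simp
  · set v := Real.log z - lam with hv
    have e1 : z ^ (2 + h) * Real.exp (-(h * lam)) = z ^ 2 * Real.exp (h * v) := by
      rw [Real.rpow_add hz0, Real.rpow_two, Real.rpow_def_of_pos hz0, mul_assoc, ← Real.exp_add]
      congr 2
      rw [hv]; ring
    have e2 : z ^ (2 + s) * Real.exp (-(s * lam)) = z ^ 2 * Real.exp (s * v) := by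
      rw [Real.rpow_add hz0, Real.rpow_two, Real.rpow_def_of_pos hz0, mul_assoc, ← Real.exp_add]
      congr 2
      rw [hv]; ring
    have e3 : z ^ (2 - s) * Real.exp (s * lam) = z ^ 2 * Real.exp (-(s * v)) := by
      rw [sub_eq_add_neg, Real.rpow_add hz0, Real.rpow_two, Real.rpow_def_of_pos hz0, mul_assoc,
        ← Real.exp_add]
      congr 2
      rw [hv]; ring
    rw [e1, e2, e3]
    have e4 : z ^ 2 * Real.exp (h * v) - z ^ 2 - h * (z ^ 2 * Real.log z - lam * z ^ 2)
        = z ^ 2 * (Real.exp (h * v) - 1 - h * v) := by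
      rw [hv]; ring
    rw [e4, abs_mul, abs_of_nonneg (sq_nonneg z), ← mul_add,
      mul_left_comm (8 * h ^ 2 / s ^ 2)]
    refine mul_le_mul_of_nonneg_left ?_ (sq_nonneg z)
    have h1 := abs_exp_sub_one_sub_id_le_mul (h * v)
    have h2 : |h * v| ≤ s * |v| / 2 := by
      rw [abs_mul]
      have := mul_le_mul_of_nonneg_right hh (abs_nonneg v)
      linarith
    have h3 : Real.exp |h * v| ≤ Real.exp (s * |v| / 2) := Real.exp_le_exp.2 h2
    -- `(s |v| / 2)^2 / 2 ≤ e^{s |v| / 2}`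
    have h4 : (s * |v| / 2) ^ 2 / 2 ≤ Real.exp (s * |v| / 2) := by
      have := Real.quadratic_le_exp_of_nonneg (x := s * |v| / 2) (by positivity)
      have h5 : 0 ≤ s * |v| / 2 := by positivity
      linarith
    have h6 : Real.exp (s * |v|) ≤ Real.exp (s * v) + Real.exp (-(s * v)) := by
      rcases abs_choice v with h7 | h7
      · rw [h7]; linarith [Real.exp_pos (-(s * v))]
      · rw [h7, mul_neg]; linarith [Real.exp_pos (s * v)]
    have h8 : v ^ 2 ≤ 8 / s ^ 2 * Real.exp (s * |v| / 2) := by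
      rw [div_mul_eq_mul_div, le_div_iff₀ (by positivity)]
      have : (s * |v| / 2) ^ 2 / 2 = v ^ 2 * s ^ 2 / 8 := by
        rw [div_pow, mul_pow, sq_abs]; ring
      rw [this] at h4
      linarith
    calc |Real.exp (h * v) - 1 - h * v| ≤ (h * v) ^ 2 * Real.exp |h * v| := h1
      _ ≤ (h * v) ^ 2 * Real.exp (s * |v| / 2) :=
          mul_le_mul_of_nonneg_left h3 (sq_nonneg _)
      _ = h ^ 2 * v ^ 2 * Real.exp (s * |v| / 2) := by ring
      _ ≤ h ^ 2 * (8 / s ^ 2 * Real.exp (s * |v| / 2)) * Real.exp (s * |v| / 2) := by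
          refine mul_le_mul_of_nonneg_right ?_ (Real.exp_pos _).le
          exact mul_le_mul_of_nonneg_left h8 (sq_nonneg _)
      _ = 8 * h ^ 2 / s ^ 2 * Real.exp (s * |v|) := by
          have : Real.exp (s * |v|) = Real.exp (s * |v| / 2) * Real.exp (s * |v| / 2) := by
            rw [← Real.exp_add]; congr 1; ring
          rw [this]; ring
      _ ≤ 8 * h ^ 2 / s ^ 2 * (Real.exp (s * v) + Real.exp (-(s * v))) :=
          mul_le_mul_of_nonneg_left h6 (by positivity)

section integrals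

variable (x T : ℝ)

/-- the modulus along the segment -/
noncomputable def zz (u : ℝ) : ℝ := ‖riemannZeta (1 / 2 + I * x + I * u * T)‖

lemma zz_nonneg (u : ℝ) : 0 ≤ zz x T u := norm_nonneg _

lemma continuous_zz : Continuous (zz x T) := by
  refine Continuous.norm ?_
  rw [continuous_iff_continuousAt]
  intro u
  have h1 : (1 / 2 + I * x + I * u * T : ℂ) ≠ 1 := by
    intro h
    have := congrArg Complex.re h
    simp at this
  have h2 := (differentiableAt_riemannZeta h1).continuousAt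
  have h3 : ContinuousAt (fun u : ℝ => (1 / 2 + I * x + I * u * T : ℂ)) u := by
    fun_prop
  exact ContinuousAt.comp (g := riemannZeta) h2 h3

lemma continuous_zz_rpow {β : ℝ} (hβ : 0 < β) : Continuous fun u => zz x T u ^ β :=
  (continuous_zz x T).rpow_const fun _ => Or.inr hβ.le

lemma continuous_zz_log : Continuous fun u => zz x T u ^ 2 * Real.log (zz x T u) := by
  have h := (continuous_zz x T).mul (Real.continuous_mul_log.comp (continuous_zz x T))
  refine h.congr fun u => ?_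
  show zz x T u * (zz x T u * Real.log (zz x T u)) = _
  ring

lemma mom_two_eq : mom 2 x T = ∫ u in (0 : ℝ)..1, zz x T u ^ 2 := by
  unfold mom
  refine intervalIntegral.integral_congr fun u _ => ?_
  exact Real.rpow_two _

/-- integrated form of the pointwise inequality -/
lemma mom_expand {s h lam : ℝ} (hs : 0 < s) (hs1 : s ≤ 1) (hh : |h| ≤ s / 2) :
    |mom (2 + h) x T * Real.exp (-(h * lam)) - mom 2 x T - h * (lmom x T - lam * mom 2 x T)|
      ≤ 8 * h ^ 2 / s ^ 2 * (mom (2 + s) x T * Real.exp (-(s * lam))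
        + mom (2 - s) x T * Real.exp (s * lam)) := by
  have hh' := abs_le.1 hh
  have i1 : IntervalIntegrable (fun u => zz x T u ^ (2 + h)) volume 0 1 :=
    (continuous_zz_rpow x T (by linarith [hh'.1])).intervalIntegrable _ _
  have i2 : IntervalIntegrable (fun u => zz x T u ^ (2 + s)) volume 0 1 :=
    (continuous_zz_rpow x T (by linarith)).intervalIntegrable _ _
  have i3 : IntervalIntegrable (fun u => zz x T u ^ (2 - s)) volume 0 1 :=
    (continuous_zz_rpow x T (by linarith)).intervalIntegrable _ _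
  have i4 : IntervalIntegrable (fun u => zz x T u ^ 2) volume 0 1 :=
    ((continuous_zz x T).pow 2).intervalIntegrable _ _
  have i5 : IntervalIntegrable (fun u => zz x T u ^ 2 * Real.log (zz x T u)) volume 0 1 :=
    (continuous_zz_log x T).intervalIntegrable _ _
  have e1 : mom (2 + h) x T * Real.exp (-(h * lam)) - mom 2 x T
        - h * (lmom x T - lam * mom 2 x T)
      = ∫ u in (0 : ℝ)..1, (zz x T u ^ (2 + h) * Real.exp (-(h * lam)) - zz x T u ^ 2
        - h * (zz x T u ^ 2 * Real.log (zz x T u) - lam * zz x T u ^ 2)) := by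
    rw [intervalIntegral.integral_sub ((i1.mul_const _).sub i4)
        ((i5.sub (i4.const_mul _)).const_mul _),
      intervalIntegral.integral_sub (i1.mul_const _) i4, intervalIntegral.integral_mul_const,
      intervalIntegral.integral_const_mul, intervalIntegral.integral_sub i5 (i4.const_mul _),
      intervalIntegral.integral_const_mul, ← mom_two_eq]
    rfl
  have e2 : 8 * h ^ 2 / s ^ 2 * (mom (2 + s) x T * Real.exp (-(s * lam))
        + mom (2 - s) x T * Real.exp (s * lam))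
      = ∫ u in (0 : ℝ)..1, 8 * h ^ 2 / s ^ 2 * (zz x T u ^ (2 + s) * Real.exp (-(s * lam))
        + zz x T u ^ (2 - s) * Real.exp (s * lam)) := by
    rw [intervalIntegral.integral_const_mul, intervalIntegral.integral_add (i2.mul_const _)
      (i3.mul_const _), intervalIntegral.integral_mul_const, intervalIntegral.integral_mul_const]
    rfl
  rw [e1, e2, ← Real.norm_eq_abs]
  refine intervalIntegral.norm_integral_le_of_norm_le zero_le_one ?_
    (((i2.mul_const _).add (i3.mul_const _)).const_mul _)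
  exact ae_of_all _ fun u _ => by
    rw [Real.norm_eq_abs]
    exact pointwise (zz_nonneg x T u) hs hs1 hh

end integrals

theorem window_of (x : ℝ)
    (h2 : ∃ C c T0 : ℝ, 0 ≤ C ∧ 0 < c ∧ 16 ≤ T0 ∧ ∀ T : ℝ, T0 ≤ T →
      |mom 2 x T - Real.log T| ≤ C * Real.log T ^ (1 - c))
    (hl : ∃ C T0 : ℝ, 0 ≤ C ∧ 16 ≤ T0 ∧ ∀ T : ℝ, T0 ≤ T →
      |lmom x T - Real.log T * Real.log (Real.log T)| ≤ C * Real.log T)
    (hu : ∃ η0 : ℝ, 0 < η0 ∧ ∃ T0 : ℝ, ∀ β : ℝ, 2 ≤ β → β ≤ 2 + η0 →
      ∀ T : ℝ, T0 ≤ T → mom β x T ≤ (1 + 1) * Real.log T ^ (β ^ 2 / 4))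
    (hd : ∃ η0 : ℝ, 0 < η0 ∧ ∃ T0 : ℝ, ∀ β : ℝ, 2 - η0 ≤ β → β ≤ 2 →
      ∀ T : ℝ, T0 ≤ T → mom β x T ≤ (1 + 1) * Real.log T ^ (β ^ 2 / 4)) :
    ∃ C c η T0 : ℝ, 0 ≤ C ∧ 0 < c ∧ 0 < η ∧ 16 ≤ T0 ∧ ∀ T : ℝ, T0 ≤ T →
    ∀ β : ℝ, (β - 2) ^ 2 * Real.log (Real.log T) ≤ η →
    |mom β x T / Real.log T ^ (β ^ 2 / 4) - 1|
      ≤ C * (|β - 2| + (β - 2) ^ 2 * Real.log (Real.log T) + Real.log T ^ (-c)) := by
  obtain ⟨C2, c2, T2, hC2, hc2, hT2, H2⟩ := h2
  obtain ⟨C3, T3, hC3, hT3, H3⟩ := hl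
  obtain ⟨η1, hη1, T4, H4⟩ := hu
  obtain ⟨η2, hη2, T5, H5⟩ := hd
  -- the size of `T`
  set m := min 1 (min η1 η2) with hm
  have hm0 : 0 < m := lt_min one_pos (lt_min hη1 hη2)
  have hm1 : m ≤ 1 := min_le_left _ _
  have hmη1 : m ≤ η1 := (min_le_right _ _).trans (min_le_left _ _)
  have hmη2 : m ≤ η2 := (min_le_right _ _).trans (min_le_right _ _)
  set lam0 := 4 / m ^ 2 with hlam0
  have hlam04 : 4 ≤ lam0 := by
    rw [hlam0, le_div_iff₀ (by positivity)]
    nlinarith
  refine ⟨C2 + (C3 + C2 / c2) + 8 * Real.exp 1 + 1, c2, 1,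
    max (max T2 T3) (max (max T4 T5) (Real.exp (Real.exp lam0))), by positivity, hc2, one_pos,
    hT2.trans ((le_max_left _ _).trans (le_max_left _ _)), ?_⟩
  intro T hT β hβ
  have hTT2 : T2 ≤ T := ((le_max_left _ _).trans (le_max_left _ _)).trans hT
  have hTT3 : T3 ≤ T := ((le_max_right _ _).trans (le_max_left _ _)).trans hT
  have hTT4 : T4 ≤ T := (((le_max_left _ _).trans (le_max_left _ _)).trans (le_max_right _ _)).trans hT
  have hTT5 : T5 ≤ T := (((le_max_right _ _).trans (le_max_left _ _)).trans (le_max_right _ _)).trans hT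
  have hTT6 : Real.exp (Real.exp lam0) ≤ T := ((le_max_right _ _).trans (le_max_right _ _)).trans hT
  have hT0 : 0 < T := (Real.exp_pos _).trans_le hTT6
  set X := Real.log T with hX
  have hXe : Real.exp lam0 ≤ X := by rwa [hX, Real.le_log_iff_exp_le hT0]
  have hX0 : 0 < X := (Real.exp_pos _).trans_le hXe
  set lam := Real.log X with hlam
  have hlam1 : lam0 ≤ lam := by rwa [hlam, Real.le_log_iff_exp_le hX0]
  have hlam4 : 4 ≤ lam := hlam04.trans hlam1
  have hlampos : 0 < lam := by linarith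
  set h := β - 2 with hh
  -- the width
  set s := 2 / Real.sqrt lam with hs
  have hsq : 0 < Real.sqrt lam := Real.sqrt_pos.2 hlampos
  have hs0 : 0 < s := by positivity
  have hs2 : s ^ 2 * lam = 4 := by
    rw [hs, div_pow, Real.sq_sqrt hlampos.le]
    field_simp
    norm_num
  have hsm : s ≤ m := by
    rw [hs, div_le_iff₀ hsq, ← div_le_iff₀' hm0]
    refine Real.le_sqrt_of_sq_le ?_
    rw [div_pow]
    have : (2 : ℝ) ^ 2 / m ^ 2 = lam0 := by rw [hlam0]; norm_num
    rw [this]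
    exact hlam1
  have hs1 : s ≤ 1 := hsm.trans hm1
  have hhs : |h| ≤ s / 2 := by
    refine abs_le_of_sq_le_sq ?_ (by positivity)
    have h1 : h ^ 2 * lam ≤ (s / 2) ^ 2 * lam := by
      have : (s / 2) ^ 2 * lam = 1 := by
        rw [div_pow, div_mul_eq_mul_div, hs2]; norm_num
      rw [this]
      exact hβ
    exact le_of_mul_le_mul_right h1 hlampos
  -- the main inequality
  have hexp := mom_expand x T (s := s) (h := h) (lam := lam) hs0 hs1 hhs
  have hβ2 : 2 + h = β := by rw [hh]; ring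
  rw [hβ2] at hexp
  have hXrpow : ∀ a : ℝ, X ^ a = Real.exp (lam * a) := fun a => Real.rpow_def_of_pos hX0 a
  have hXexp : X = Real.exp lam := (Real.exp_log hX0).symm
  -- side terms
  have hp : mom (2 + s) x T * Real.exp (-(s * lam)) ≤ 2 * (X * Real.exp 1) := by
    have h1 := H4 (2 + s) (by linarith) (by linarith) T hTT4
    rw [← hX, hXrpow] at h1
    have e1 : lam * ((2 + s) ^ 2 / 4) + -(s * lam) = lam + 1 := by linear_combination hs2 / 4
    calc mom (2 + s) x T * Real.exp (-(s * lam))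
        ≤ (1 + 1) * Real.exp (lam * ((2 + s) ^ 2 / 4)) * Real.exp (-(s * lam)) :=
          mul_le_mul_of_nonneg_right h1 (Real.exp_pos _).le
      _ = 2 * (X * Real.exp 1) := by
          rw [mul_assoc, ← Real.exp_add, e1, Real.exp_add, ← hXexp]
          ring
  have hn : mom (2 - s) x T * Real.exp (s * lam) ≤ 2 * (X * Real.exp 1) := by
    have h1 := H5 (2 - s) (by linarith) (by linarith) T hTT5
    rw [← hX, hXrpow] at h1
    have e1 : lam * ((2 - s) ^ 2 / 4) + s * lam = lam + 1 := by linear_combination hs2 / 4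
    calc mom (2 - s) x T * Real.exp (s * lam)
        ≤ (1 + 1) * Real.exp (lam * ((2 - s) ^ 2 / 4)) * Real.exp (s * lam) :=
          mul_le_mul_of_nonneg_right h1 (Real.exp_pos _).le
      _ = 2 * (X * Real.exp 1) := by
          rw [mul_assoc, ← Real.exp_add, e1, Real.exp_add, ← hXexp]
          ring
  have hrem : 8 * h ^ 2 / s ^ 2 * (mom (2 + s) x T * Real.exp (-(s * lam))
        + mom (2 - s) x T * Real.exp (s * lam)) ≤ 8 * Real.exp 1 * (h ^ 2 * lam) * X := by
    have e1 : 8 * h ^ 2 / s ^ 2 = 2 * (h ^ 2 * lam) := by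
      rw [div_eq_iff (by positivity)]
      linear_combination (-2 * h ^ 2) * hs2
    rw [e1]
    have h3 : 0 ≤ 2 * (h ^ 2 * lam) := by positivity
    calc 2 * (h ^ 2 * lam) * (mom (2 + s) x T * Real.exp (-(s * lam))
        + mom (2 - s) x T * Real.exp (s * lam))
        ≤ 2 * (h ^ 2 * lam) * (2 * (X * Real.exp 1) + 2 * (X * Real.exp 1)) :=
          mul_le_mul_of_nonneg_left (add_le_add hp hn) h3
      _ = 8 * Real.exp 1 * (h ^ 2 * lam) * X := by ring
  -- the first order terms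
  have hm2 := H2 T hTT2
  have hlm := H3 T hTT3
  rw [← hX] at hm2 hlm
  rw [← hlam] at hlm
  have hXc : X ^ (1 - c2) = X * X ^ (-c2) := by
    rw [sub_eq_add_neg, Real.rpow_add hX0, Real.rpow_one]
  have hlamX : lam * X ^ (1 - c2) ≤ X / c2 := by
    have h3 : lam ≤ X ^ c2 / c2 := Real.log_le_rpow_div hX0.le hc2
    have h4 : X ^ c2 * X ^ (1 - c2) = X := by
      rw [← Real.rpow_add hX0]; simp
    calc lam * X ^ (1 - c2) ≤ X ^ c2 / c2 * X ^ (1 - c2) :=
          mul_le_mul_of_nonneg_right h3 (Real.rpow_nonneg hX0.le _)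
      _ = X ^ c2 * X ^ (1 - c2) / c2 := by ring
      _ = X / c2 := by rw [h4]
  have hfirst : |lmom x T - lam * mom 2 x T| ≤ (C3 + C2 / c2) * X := by
    have e1 : lmom x T - lam * mom 2 x T = (lmom x T - X * lam) - lam * (mom 2 x T - X) := by ring
    rw [e1]
    refine (abs_sub _ _).trans ?_
    rw [abs_mul, abs_of_pos hlampos]
    have h3 : lam * |mom 2 x T - X| ≤ C2 / c2 * X := by
      calc lam * |mom 2 x T - X| ≤ lam * (C2 * X ^ (1 - c2)) :=
            mul_le_mul_of_nonneg_left hm2 hlampos.le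
        _ = C2 * (lam * X ^ (1 - c2)) := by ring
        _ ≤ C2 * (X / c2) := mul_le_mul_of_nonneg_left hlamX hC2
        _ = C2 / c2 * X := by ring
    linarith
  -- assembling
  have hmain : |mom β x T * Real.exp (-(h * lam)) - X|
      ≤ (C2 * X ^ (-c2) + |h| * (C3 + C2 / c2) + 8 * Real.exp 1 * (h ^ 2 * lam)) * X := by
    have e1 : mom β x T * Real.exp (-(h * lam)) - X
        = (mom β x T * Real.exp (-(h * lam)) - mom 2 x T - h * (lmom x T - lam * mom 2 x T))
          + (mom 2 x T - X) + h * (lmom x T - lam * mom 2 x T) := by ring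
    rw [e1]
    refine (abs_add_three _ _ _).trans ?_
    rw [abs_mul h]
    have h3 := mul_le_mul_of_nonneg_left hfirst (abs_nonneg h)
    rw [hXc] at hm2
    have h4 := hexp.trans hrem
    calc _ ≤ 8 * Real.exp 1 * (h ^ 2 * lam) * X + C2 * (X * X ^ (-c2))
          + |h| * ((C3 + C2 / c2) * X) := by linarith
      _ = _ := by ring
  have hratio : mom β x T / X ^ (β ^ 2 / 4)
      = mom β x T * Real.exp (-(h * lam)) / X * Real.exp (-(h ^ 2 * lam / 4)) := by
    have e0 : X⁻¹ = Real.exp (-lam) := by rw [Real.exp_neg, ← hXexp]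
    have e1 : Real.exp (-(lam * (β ^ 2 / 4)))
        = Real.exp (-(h * lam)) * Real.exp (-lam) * Real.exp (-(h ^ 2 * lam / 4)) := by
      rw [← Real.exp_add, ← Real.exp_add]
      congr 1
      rw [← hβ2]; ring
    calc mom β x T / X ^ (β ^ 2 / 4)
        = mom β x T * Real.exp (-(lam * (β ^ 2 / 4))) := by
          rw [hXrpow, Real.exp_neg]
          rfl
      _ = mom β x T * Real.exp (-(h * lam)) * X⁻¹ * Real.exp (-(h ^ 2 * lam / 4)) := by
          rw [e1, e0]
          ring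
      _ = _ := rfl
  have hE1 : Real.exp (-(h ^ 2 * lam / 4)) ≤ 1 := Real.exp_le_one_iff.2 (by
    have : 0 ≤ h ^ 2 * lam / 4 := by positivity
    linarith)
  have hE2 : |Real.exp (-(h ^ 2 * lam / 4)) - 1| ≤ h ^ 2 * lam / 4 := by
    rw [abs_sub_comm, abs_of_nonneg (by linarith)]
    linarith [Real.add_one_le_exp (-(h ^ 2 * lam / 4))]
  have hB : |mom β x T * Real.exp (-(h * lam)) / X - 1|
      ≤ C2 * X ^ (-c2) + |h| * (C3 + C2 / c2) + 8 * Real.exp 1 * (h ^ 2 * lam) := by
    have e1 : mom β x T * Real.exp (-(h * lam)) / X - 1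
        = (mom β x T * Real.exp (-(h * lam)) - X) / X := by
      field_simp
    rw [e1, abs_div, abs_of_pos hX0, div_le_iff₀ hX0]
    exact hmain
  rw [hratio]
  set B := mom β x T * Real.exp (-(h * lam)) / X with hBdef
  set E := Real.exp (-(h ^ 2 * lam / 4)) with hE
  have hE0 : 0 < E := Real.exp_pos _
  have e2 : B * E - 1 = (B - 1) * E + (E - 1) := by ring
  rw [e2]
  refine (abs_add_le _ _).trans ?_
  rw [abs_mul, abs_of_pos hE0]
  have h5 : |B - 1| * E ≤ |B - 1| := mul_le_of_le_one_right (abs_nonneg _) hE1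
  have h6 : 0 ≤ X ^ (-c2) := Real.rpow_nonneg hX0.le _
  have h7 : 0 ≤ h ^ 2 * lam := by positivity
  have h8 : 0 ≤ C3 + C2 / c2 := by positivity
  have h9 : 0 ≤ |h| := abs_nonneg h
  have h10 : 0 < Real.exp 1 := Real.exp_pos 1
  have h11 : |B - 1| * E + |E - 1|
      ≤ C2 * X ^ (-c2) + |h| * (C3 + C2 / c2) + 8 * Real.exp 1 * (h ^ 2 * lam)
        + h ^ 2 * lam / 4 := by linarith
  refine h11.trans ?_
  have p1 : 0 ≤ C2 * |h| := by positivity
  have p2 : 0 ≤ C2 * (h ^ 2 * lam) := by positivity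
  have p3 : 0 ≤ (C3 + C2 / c2) * (h ^ 2 * lam) := by positivity
  have p4 : 0 ≤ (C3 + C2 / c2) * X ^ (-c2) := by positivity
  have p5 : 0 ≤ 8 * Real.exp 1 * |h| := by positivity
  have p6 : 0 ≤ 8 * Real.exp 1 * X ^ (-c2) := by positivity
  have e3 : (C2 + (C3 + C2 / c2) + 8 * Real.exp 1 + 1) * (|h| + h ^ 2 * lam + X ^ (-c2))
      = C2 * X ^ (-c2) + C2 * |h| + C2 * (h ^ 2 * lam)
        + ((C3 + C2 / c2) * |h| + (C3 + C2 / c2) * (h ^ 2 * lam) + (C3 + C2 / c2) * X ^ (-c2))
        + (8 * Real.exp 1 * |h| + 8 * Real.exp 1 * (h ^ 2 * lam) + 8 * Real.exp 1 * X ^ (-c2))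
        + (|h| + h ^ 2 * lam + X ^ (-c2)) := by ring
  rw [e3]
  have e4 : |h| * (C3 + C2 / c2) = (C3 + C2 / c2) * |h| := mul_comm _ _
  linarith

end Pool.Agent.Lib.MP_f9aece_nt_rt
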