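import Mathlib
import Pool.Agent.Lib.MP_f9aece_nt_h5.UpperTwo
import Pool.Agent.Lib.MP_f9aece_nt_h24.UpperTwoPlus
import Pool.Agent.Lib.MP_f9aece_nt_rt.WindowOf
import Pool.Agent.Lib.MP_f9aece_nt_rt.Shift

/-!
R9: the moments in a window around the exponent `2`.
-/

set_option autoImplicit false

namespace Pool.Agent.Lib.MP_f9aece_nt_rt

open Pool.Agent.Lib.MP_f9aece_nt
open Pool.Agent.Lib.MP_f9aece_nt_h97
open Pool.Agent.Lib.MP_f9aece_nt_h5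

theorem window (x : ℝ) : ∃ C c η T0 : ℝ, 0 ≤ C ∧ 0 < c ∧ 0 < η ∧ 16 ≤ T0 ∧ ∀ T : ℝ, T0 ≤ T →
    ∀ β : ℝ, (β - 2) ^ 2 * Real.log (Real.log T) ≤ η →
    |mom β x T / Real.log T ^ (β ^ 2 / 4) - 1|
      ≤ C * (|β - 2| + (β - 2) ^ 2 * Real.log (Real.log T) + Real.log T ^ (-c)) :=
  window_of x (mom_two_rate x) (lmom_rate x) (upper_two_plus x 1 one_pos)
    (upper_uniform_two x 1 one_pos)

end Pool.Agent.Lib.MP_f9aece_nt_rt
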